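import Pool.Agent.R913.Tor.Log

/-!
# Generic points of torsors and the logarithmic derivatives
-/

set_option autoImplicit false
set_option linter.unusedSectionVars false

open Matrix MvPolynomial

namespace Pool.Agent.R913.Tor

open Pool.Agent.TH127.PT Pool.Agent.TH119.MX Pool.Agent.TH119.DR Pool.Agent.Y123.ST

variable {N : Type} [Fintype N] [DecidableEq N] {K : Subfield ℂ} {S : Set (Matrix N N ℂ)}

/-- The point `c` of `S` is generic over `K`: every polynomial relation over `K` between the entries of `c` holds on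
`S`. -/
def Generic (K : Subfield ℂ) (S : Set (Matrix N N ℂ)) (c : Matrix N N ℂ) : Prop :=
  ∀ P : MvPolynomial (N × N) ℂ, (∀ m, P.coeff m ∈ K) → eval (fl c) P = 0 → Van S P

/-- The invertible matrices which satisfy all polynomial relations over `K` between the entries of `c`. -/
def Zar (K : Subfield ℂ) (c : Matrix N N ℂ) : Set (Matrix N N ℂ) :=
  {x | IsUnit x ∧ ∀ P : MvPolynomial (N × N) ℂ, (∀ m, P.coeff m ∈ K) → eval (fl c) P = 0 → eval (fl x) P = 0}

/-- A set of matrices is closed under `x y⁻¹ z`. -/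
def IsTorsor (T : Set (Matrix N N ℂ)) : Prop := ∀ x ∈ T, ∀ y ∈ T, ∀ z ∈ T, x * y⁻¹ * z ∈ T

theorem mem_Zar {c : Matrix N N ℂ} (hc : IsUnit c) : c ∈ Zar K c := ⟨hc, fun _ _ h => h⟩

theorem Zar_sub {c : Matrix N N ℂ} (h : IsTorsor (Zar K c)) : IsSubtorsor K (Zar K c) := by
  refine ⟨fun x hx => hx.1, h, {P | (∀ m, P.coeff m ∈ K) ∧ eval (fl c) P = 0}, fun p hp => hp.1, fun x => ?_⟩
  constructor
  · rintro ⟨h1, h2⟩
    exact ⟨h1, fun p hp => h2 p hp.1 hp.2⟩
  · rintro ⟨h1, h2⟩
    exact ⟨h1, fun p hp1 hp2 => h2 p ⟨hp1, hp2⟩⟩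

theorem Zar_le (hS : IsSubtorsor K S) {c : Matrix N N ℂ} (hc : c ∈ S) : Zar K c ⊆ S := by
  obtain ⟨I, h1, h2⟩ := hS.algebraic
  intro x hx
  rw [h2]
  exact ⟨hx.1, fun p hp => hx.2 p (h1 p hp) (((h2 c).1 hc).2 p hp)⟩

theorem Generic.le_Zar (hS : IsSubtorsor K S) {c : Matrix N N ℂ} (h : Generic K S c) : S ⊆ Zar K c :=
  fun x hx => ⟨hS.isUnit x hx, fun P hP1 hP2 => h P hP1 hP2 x hx⟩

theorem Generic.le (hS : IsSubtorsor K S) {c : Matrix N N ℂ} (h : Generic K S c) {T : Set (Matrix N N ℂ)}
    (hT : IsSubtorsor K T) (hcT : c ∈ T) : S ⊆ T := by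
  obtain ⟨I, h1, h2⟩ := hT.algebraic
  intro x hx
  rw [h2]
  exact ⟨hS.isUnit x hx, fun p hp => h p (h1 p hp) (((h2 c).1 hcT).2 p hp) x hx⟩

theorem logs_le (hS : IsSubtorsor K S) {c : Matrix N N ℂ} (hc : c ∈ S) : logs K c ≤ LM S := by
  refine Submodule.span_le.2 ?_
  rintro M ⟨D, rfl⟩
  exact logder_mem hS D hc

/-- **The extension of derivations**: a matrix `w` with `w c` tangent to all relations over `K` is a logarithmic
derivative. -/
theorem mem_logs_of_tangent {c w : Matrix N N ℂ} (hc : IsUnit c)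
    (h : ∀ P : MvPolynomial (N × N) ℂ, (∀ m, P.coeff m ∈ K) → eval (fl c) P = 0 →
      dd P (fl c) (fl (w * c)) = 0) : w ∈ logs K c := by
  obtain ⟨D, hD⟩ := exists_der (K := K) (L := ℂ) (fl c) (fl (w * c)) fun P hP => by
    have h1 : eval (fl c) (P.map (algebraMap K ℂ)) = 0 := by
      rw [eval_map, ← aeval_def]
      exact hP
    have h2 := h (P.map (algebraMap K ℂ)) (fun m => by rw [coeff_map]; exact (P.coeff m).2) h1
    rw [← h2]
    unfold dd
    refine Finset.sum_congr rfl fun b _ => ?_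
    rw [pderiv_map, eval_map, ← aeval_def]
  refine mem_logs.2 ⟨D, ?_⟩
  have h1 : c.map D = w * c := by
    ext i j
    exact hD (i, j)
  rw [h1, Matrix.mul_assoc, unit_mul_inv hc, Matrix.mul_one]

/-- the derivative of a relation along a logarithmic derivative -/
theorem dd_of_logs {c w : Matrix N N ℂ} (hc : IsUnit c) (hw : w ∈ logs K c) {P : MvPolynomial (N × N) ℂ}
    (hP : ∀ m, P.coeff m ∈ K) (h : eval (fl c) P = 0) : dd P (fl c) (fl (w * c)) = 0 := by
  obtain ⟨D, rfl⟩ := mem_logs.1 hw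
  have h1 : c.map D * c⁻¹ * c = c.map D := by rw [Matrix.mul_assoc, unit_inv_mul hc, Matrix.mul_one]
  rw [h1]
  have h2 := dd_der' D P hP (fl c)
  rw [h, map_zero] at h2
  exact h2

/-- a generic point has the full space of logarithmic derivatives -/
theorem Generic.logs_eq (hS : IsSubtorsor K S) {c : Matrix N N ℂ} (hc : c ∈ S) (h : Generic K S c) :
    LM S ≤ logs K c := by
  intro w hw
  refine mem_logs_of_tangent (hS.isUnit c hc) fun P hP1 hP2 => ?_
  exact hw P (h P hP1 hP2) c hc

/-- if the relations of `c` define a torsor, its Lie algebra is the space of the logarithmic derivatives -/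
theorem logs_Zar {c : Matrix N N ℂ} (hc : IsUnit c) (h : IsTorsor (Zar K c)) : logs K c = LM (Zar K c) := by
  have hT := Zar_sub h
  refine le_antisymm (logs_le hT (mem_Zar hc)) fun w hw => ?_
  refine mem_logs_of_tangent hc fun P hP1 hP2 => ?_
  exact hw P (fun x hx => hx.2 P hP1 hP2) c (mem_Zar hc)

theorem mem_KP {B : Type} [Fintype B] {P : MvPolynomial B ℂ} (h : ∀ m, P.coeff m ∈ K) : P ∈ KP K B := by
  classical
  obtain ⟨P0, rfl⟩ := exists_map P h
  exact ⟨P0, rfl⟩

theorem pderiv_KP {B : Type} {P : MvPolynomial B ℂ} (h : P ∈ KP K B) (b : B) : pderiv b P ∈ KP K B := by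
  obtain ⟨P0, rfl⟩ := h
  exact ⟨pderiv b P0, by rw [pderiv_map]⟩

theorem vf_KP {w : Matrix N N ℂ} (hw : ∀ i j, w i j ∈ K) {P : MvPolynomial (N × N) ℂ} (hP : P ∈ KP K (N × N)) :
    vf w P ∈ KP K (N × N) := by
  rw [vf_eq]
  unfold DL sb
  refine sum_mem fun b _ => mul_mem (pderiv_KP hP b) (sum_mem fun k _ => mul_mem (C_mem_KP ?_) (X_mem_KP k))
  change (w * um (Pi.single k 1)) b.1 b.2 ∈ K
  rw [Matrix.mul_apply]
  refine sum_mem fun j _ => mul_mem (hw _ _) ?_
  change (Pi.single k (1 : ℂ) : N × N → ℂ) (j, b.2) ∈ K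
  rw [Pi.single_apply]
  split_ifs
  · exact K.one_mem
  · exact K.zero_mem

/-- the relations over `K` of `c` are stable under the vector fields over `K` of the logarithmic derivatives -/
theorem rel_vf {c w : Matrix N N ℂ} (hc : IsUnit c) (hw : w ∈ logs K c) (hwK : ∀ i j, w i j ∈ K)
    {P : MvPolynomial (N × N) ℂ} (hP : ∀ m, P.coeff m ∈ K) (h : eval (fl c) P = 0) :
    (∀ m, (vf w P).coeff m ∈ K) ∧ eval (fl c) (vf w P) = 0 := by
  refine ⟨fun m => coeff_of_KP (vf_KP hwK (mem_KP hP)) m, ?_⟩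
  rw [eval_vf, ml_fl]
  exact dd_of_logs hc hw hP h

/-- **If the space of the logarithmic derivatives is rational over `K`, it is closed under brackets.** -/
theorem logs_lie {c : Matrix N N ℂ} (hc : IsUnit c) (hr : Rational K (logs K c)) {v w : Matrix N N ℂ}
    (hv : v ∈ logs K c) (hw : w ∈ logs K c) : v * w - w * v ∈ logs K c := by
  have base : ∀ v w : Matrix N N ℂ, v ∈ logs K c → w ∈ logs K c → (∀ i j, v i j ∈ K) → (∀ i j, w i j ∈ K) →
      v * w - w * v ∈ logs K c := by
    intro v w hv hw hvK hwK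
    refine mem_logs_of_tangent hc fun P hP1 hP2 => ?_
    have h1 : dd P (fl c) (fl ((v * w - w * v) * c)) = eval (fl c) (vf (v * w - w * v) P) := by
      rw [eval_vf, ml_fl]
    rw [h1, ← vf_lie, Derivation.commutator_apply, map_sub]
    obtain ⟨h2, h3⟩ := rel_vf hc hv hvK hP1 hP2
    obtain ⟨h4, h5⟩ := rel_vf hc hw hwK hP1 hP2
    rw [(rel_vf hc hw hwK h2 h3).2, (rel_vf hc hv hvK h4 h5).2, sub_zero]
  have h1 := hr hv
  clear hv
  induction h1 using Submodule.span_induction with
  | mem v hv =>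
    have h2 := hr hw
    clear hw
    induction h2 using Submodule.span_induction with
    | mem w hw => exact base v w hv.1 hw.1 hv.2 hw.2
    | zero =>
      rw [Matrix.mul_zero, Matrix.zero_mul, sub_zero]
      exact Submodule.zero_mem _
    | add x y _ _ hx hy =>
      rw [com_add]
      exact Submodule.add_mem _ hx hy
    | smul a x _ hx =>
      rw [com_smul]
      exact Submodule.smul_mem _ _ hx
  | zero =>
    rw [Matrix.mul_zero, Matrix.zero_mul, sub_zero]
    exact Submodule.zero_mem _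
  | add x y _ _ hx hy =>
    rw [add_com]
    exact Submodule.add_mem _ hx hy
  | smul a x _ hx =>
    rw [smul_com]
    exact Submodule.smul_mem _ _ hx

/-- **If the logarithmic derivatives fill the Lie algebra of an irreducible torsor, the point is generic.** -/
theorem generic_of_logs (hS : IsSubtorsor K S) (hirr : Irred S) {c : Matrix N N ℂ} (hc : c ∈ S)
    (hL : LM S ≤ logs K c) : Generic K S c := by
  have hcu := hS.isUnit c hc
  -- the complex span of the relations
  let J : Submodule ℂ (MvPolynomial (N × N) ℂ) :=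
    Submodule.span ℂ {P | (∀ m, P.coeff m ∈ K) ∧ eval (fl c) P = 0}
  have hJ1 : ∀ P, P ∈ J → P ∈ mx (fl c) := by
    intro P hP
    induction hP using Submodule.span_induction with
    | mem P hP => exact hP.2
    | zero => exact Ideal.zero_mem _
    | add x y _ _ hx hy => exact Ideal.add_mem _ hx hy
    | smul a x _ hx =>
      rw [MvPolynomial.smul_eq_C_mul]
      exact Ideal.mul_mem_left _ _ hx
  have hvadd : ∀ (v w : Matrix N N ℂ) (P : MvPolynomial (N × N) ℂ), vf (v + w) P = vf v P + vf w P := by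
    intro v w P
    refine MvPolynomial.funext fun y => ?_
    rw [map_add, eval_vf, eval_vf, eval_vf, ← dd_add_right]
    congr 1
    change fl ((v + w) * um y) = fl (v * um y) + fl (w * um y)
    rw [Matrix.add_mul, fl_add]
  have hvsmul : ∀ (a : ℂ) (w : Matrix N N ℂ) (P : MvPolynomial (N × N) ℂ), vf (a • w) P = a • vf w P := by
    intro a w P
    refine MvPolynomial.funext fun y => ?_
    rw [smul_eval, eval_vf, eval_vf, ← dd_smul_right]
    congr 1
    change fl ((a • w) * um y) = a • fl (w * um y)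
    rw [Matrix.smul_mul, fl_smul]
  have hvzero : ∀ P : MvPolynomial (N × N) ℂ, vf (0 : Matrix N N ℂ) P = 0 := by
    intro P
    have := hvsmul 0 0 P
    rwa [zero_smul, zero_smul] at this
  have hJ2 : ∀ w ∈ LM S, ∀ P, P ∈ J → vf w P ∈ J := by
    intro w hw P hP
    have h1 := LM_rational hS hw
    clear hw
    induction h1 using Submodule.span_induction with
    | mem w hw =>
      induction hP using Submodule.span_induction with
      | mem P hP => exact Submodule.subset_span (rel_vf hcu (hL hw.1) hw.2 hP.1 hP.2)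
      | zero =>
        rw [map_zero]
        exact Submodule.zero_mem _
      | add x y _ _ hx hy =>
        rw [map_add]
        exact Submodule.add_mem _ hx hy
      | smul a x _ hx =>
        rw [Derivation.map_smul]
        exact Submodule.smul_mem _ _ hx
    | zero =>
      rw [hvzero]
      exact Submodule.zero_mem _
    | add x y _ _ hx hy =>
      rw [hvadd]
      exact Submodule.add_mem _ hx hy
    | smul a x _ hx =>
      rw [hvsmul]
      exact Submodule.smul_mem _ _ hx
  intro P hP1 hP2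
  exact van_of_stable hS hirr hc (fun P => P ∈ J) hJ1 hJ2 P (Submodule.subset_span ⟨hP1, hP2⟩)

/-- the determinant -/
theorem trace_log {c : Matrix N N ℂ} (hc : IsUnit c) (D : Derivation K ℂ ℂ) :
    D (det c) = trace (c.map D * c⁻¹) * det c := by
  have h1 := dd_det c (c.map D * c⁻¹)
  have h2 : c.map D * c⁻¹ * c = c.map D := by rw [Matrix.mul_assoc, unit_inv_mul hc, Matrix.mul_one]
  rw [h2] at h1
  rw [← h1, ← eval_det c]
  exact (dd_der' D _ (fun m => coeff_of_KP det_KP m) (fl c)).symm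

theorem trace_der {g : Submodule ℂ (Matrix N N ℂ)} {w : Matrix N N ℂ} (hw : w ∈ der g) : trace w = 0 := by
  unfold der at hw
  induction hw using Submodule.span_induction with
  | mem w hw =>
    obtain ⟨x, _, y, _, rfl⟩ := hw
    rw [Matrix.trace_sub, Matrix.trace_mul_comm, sub_self]
  | zero => exact Matrix.trace_zero _ _
  | add x y _ _ hx hy => rw [Matrix.trace_add, hx, hy, add_zero]
  | smul a x _ hx => rw [Matrix.trace_smul, hx, smul_zero]

/-- a one-dimensional centre -/
theorem ab_of_det [IsAlgClosed K] (hS : IsSubtorsor K S) {c : Matrix N N ℂ} (hc : c ∈ S) {W : Matrix N N ℂ}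
    (hW : LM S ≤ der (LM S) ⊔ Submodule.span ℂ {W}) (hdet : det c ∉ K) : LM S ≤ der (LM S) ⊔ logs K c := by
  have hcu := hS.isUnit c hc
  obtain ⟨D, hD⟩ := exists_der_ne hdet
  rw [trace_log hcu] at hD
  have h1 : trace (c.map D * c⁻¹) ≠ 0 := left_ne_zero_of_mul hD
  have h2 : c.map D * c⁻¹ ∈ logs K c := mem_logs.2 ⟨D, rfl⟩
  obtain ⟨d, hd, e, he, hde⟩ := Submodule.mem_sup.1 (hW (logs_le hS hc h2))
  obtain ⟨a, rfl⟩ := Submodule.mem_span_singleton.1 he
  have ha : a ≠ 0 := by
    rintro rfl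
    apply h1
    rw [← hde, zero_smul, add_zero]
    exact trace_der hd
  have h3 : W ∈ der (LM S) ⊔ logs K c := by
    have h4 : W = a⁻¹ • (-d) + a⁻¹ • (c.map D * c⁻¹) := by
      rw [← hde, ← smul_add, neg_add_cancel_left, smul_smul, inv_mul_cancel₀ ha, one_smul]
    rw [h4]
    exact Submodule.add_mem_sup (Submodule.smul_mem _ _ (neg_mem hd)) (Submodule.smul_mem _ _ h2)
  refine hW.trans (sup_le le_sup_left ?_)
  exact Submodule.span_le.2 (by rintro x rfl; exact h3)

end Pool.Agent.R913.Tor
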