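import Pool.Agent.R913.Tor.Prm

/-!
# The Zariski closure of a point is a torsor if and only if the logarithmic derivatives span a rational space
-/

set_option autoImplicit false
set_option linter.unusedSectionVars false

open Matrix MvPolynomial

namespace Pool.Agent.R913.Tor

open Pool.Agent.TH127.PT Pool.Agent.TH119.MX Pool.Agent.TH119.DR Pool.Agent.Y123.ST

variable {N : Type} [Fintype N] [DecidableEq N] {K : Subfield ℂ}

theorem vf_add (v w : Matrix N N ℂ) (P : MvPolynomial (N × N) ℂ) : vf (v + w) P = vf v P + vf w P := by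
  refine MvPolynomial.funext fun y => ?_
  rw [map_add, eval_vf, eval_vf, eval_vf, ← dd_add_right]
  congr 1
  change fl ((v + w) * um y) = fl (v * um y) + fl (w * um y)
  rw [Matrix.add_mul, fl_add]

theorem vf_smul (a : ℂ) (w : Matrix N N ℂ) (P : MvPolynomial (N × N) ℂ) : vf (a • w) P = a • vf w P := by
  refine MvPolynomial.funext fun y => ?_
  rw [smul_eval, eval_vf, eval_vf, ← dd_smul_right]
  congr 1
  change fl ((a • w) * um y) = a • fl (w * um y)
  rw [Matrix.smul_mul, fl_smul]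

theorem vf_zero (P : MvPolynomial (N × N) ℂ) : vf (0 : Matrix N N ℂ) P = 0 := by
  have := vf_smul 0 0 P
  rwa [zero_smul, zero_smul] at this

/-- the ideal of the relations is stable under the vector fields in a rational space of logarithmic derivatives -/
theorem relI_vf {c : Matrix N N ℂ} (hc : IsUnit c) {H : Submodule ℂ (Matrix N N ℂ)} (hH : Rational K H)
    (hL : H ≤ logs K c) {w : Matrix N N ℂ} (hw : w ∈ H) {P : MvPolynomial (N × N) ℂ}
    (hP : P ∈ relI K (fl c)) : vf w P ∈ relI K (fl c) := by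
  have h1 := hH hw
  clear hw
  induction h1 using Submodule.span_induction with
  | mem w hw =>
    rw [mem_relI] at hP
    induction hP using Submodule.span_induction with
    | mem P hP =>
      rw [mem_relI]
      exact Submodule.subset_span (rel_vf hc (hL hw.1) hw.2 hP.1 hP.2)
    | zero =>
      rw [map_zero]
      exact Ideal.zero_mem _
    | add x y _ _ hx hy =>
      rw [map_add]
      exact Ideal.add_mem _ hx hy
    | smul a x _ hx =>
      rw [Derivation.map_smul, MvPolynomial.smul_eq_C_mul]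
      exact Ideal.mul_mem_left _ _ hx
  | zero =>
    rw [vf_zero]
    exact Ideal.zero_mem _
  | add x y _ _ hx hy =>
    rw [vf_add]
    exact Ideal.add_mem _ hx hy
  | smul a x _ hx =>
    rw [vf_smul, MvPolynomial.smul_eq_C_mul]
    exact Ideal.mul_mem_left _ _ hx

/-- the vector fields and the translations -/
theorem vf_cp {g w : Matrix N N ℂ} (hg : IsUnit g) (P : MvPolynomial (N × N) ℂ) :
    vf w (cp (ml g) P) = cp (ml g) (vf (g * w * g⁻¹) P) := by
  refine MvPolynomial.funext fun y => ?_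
  rw [eval_vf, dd_cp, eval_cp, eval_vf]
  congr 1
  change fl (g * um (fl (w * um y))) = fl ((g * w * g⁻¹) * um (fl (g * um y)))
  rw [um_fl, um_fl, Matrix.mul_assoc (g * w), ← Matrix.mul_assoc g⁻¹, unit_inv_mul hg, Matrix.one_mul,
    Matrix.mul_assoc]

theorem cp_add (L : (N × N → ℂ) →ₗ[ℂ] (N × N → ℂ)) (P Q : MvPolynomial (N × N) ℂ) :
    cp L (P + Q) = cp L P + cp L Q := map_add (bind₁ (sb L)) P Q

theorem cp_smul (L : (N × N → ℂ) →ₗ[ℂ] (N × N → ℂ)) (a : ℂ) (P : MvPolynomial (N × N) ℂ) :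
    cp L (a • P) = a • cp L P := map_smul (bind₁ (sb L)) a P

theorem cp_comp (g h : Matrix N N ℂ) (P : MvPolynomial (N × N) ℂ) :
    cp (ml g) (cp (ml h) P) = cp (ml (h * g)) P := by
  refine MvPolynomial.funext fun y => ?_
  rw [eval_cp, eval_cp, eval_cp]
  have h1 : ml h (ml g y) = ml (h * g) y := by
    change fl (h * um (fl (g * um y))) = fl (h * g * um y)
    rw [um_fl, Matrix.mul_assoc]
  rw [h1]

theorem cp_one (P : MvPolynomial (N × N) ℂ) : cp (ml (1 : Matrix N N ℂ)) P = P := by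
  refine MvPolynomial.funext fun y => ?_
  rw [eval_cp]
  have h1 : ml (1 : Matrix N N ℂ) y = y := by
    change fl (1 * um y) = y
    rw [Matrix.one_mul, fl_um]
  rw [h1]

/-- the points of the closure transport the rational subobjects -/
theorem Zar_conj {c z : Matrix N N ℂ} (hc : IsUnit c) (hz : z ∈ Zar K c) {U : Submodule ℂ (Matrix N N ℂ)}
    (hU : Rational K U) (hU' : Rational K (conjBy c U)) : conjBy z U = conjBy c U := by
  have hdet : det z ≠ 0 := ((Matrix.isUnit_iff_isUnit_det z).1 hz.1).ne_zero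
  have h5 : ∀ A ∈ U, z⁻¹ * A * z ∈ conjBy c U := by
    intro A hA
    have h6 := hU hA
    clear hA
    induction h6 using Submodule.span_induction with
    | mem A hA =>
      refine mem_of_ann_rational hU' fun u hu1 hu2 => ?_
      have h7 : eval (fl c) (PG A u) = 0 := by
        rw [eval_PG, sum_adj hc, hu1 _ ((inv_mem_conjBy hc).2 hA.1), mul_zero]
      have h8 := hz.2 _ (fun m => coeff_of_KP (PG_KP hA.2 hu2) m) h7
      rw [eval_PG, sum_adj hz.1] at h8
      exact (mul_eq_zero.1 h8).resolve_left hdet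
    | zero =>
      rw [Matrix.mul_zero, Matrix.zero_mul]
      exact Submodule.zero_mem _
    | add v w _ _ hv hw =>
      rw [Matrix.mul_add, Matrix.add_mul]
      exact Submodule.add_mem _ hv hw
    | smul a v _ hv =>
      rw [Matrix.mul_smul, Matrix.smul_mul]
      exact Submodule.smul_mem _ _ hv
  have h6 : conjBy z U ≤ conjBy c U := by
    intro A hA
    have h7 := h5 _ hA
    have h8 : z⁻¹ * (z * A * z⁻¹) * z = A := (cj z hz.1).left_inv A
    rwa [h8] at h7
  refine Submodule.eq_of_le_of_finrank_eq h6 ?_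
  rw [finrank_conjBy hz.1, finrank_conjBy hc]

theorem Zar_van {c z : Matrix N N ℂ} (hz : z ∈ Zar K c) {P : MvPolynomial (N × N) ℂ}
    (hP : P ∈ relI K (fl c)) : eval (fl z) P = 0 := by
  rw [mem_relI] at hP
  induction hP using Submodule.span_induction with
  | mem P hP => exact hz.2 P hP.1 hP.2
  | zero => exact map_zero _
  | add x y _ _ hx hy => rw [map_add, hx, hy, add_zero]
  | smul a x _ hx => rw [smul_eval, hx, mul_zero]

theorem mem_Zar_iff {c z : Matrix N N ℂ} : z ∈ Zar K c ↔ IsUnit z ∧ ∀ P ∈ relI K (fl c), eval (fl z) P = 0 := by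
  constructor
  · intro h
    exact ⟨h.1, fun P hP => Zar_van h hP⟩
  · rintro ⟨h1, h2⟩
    exact ⟨h1, fun P hP1 hP2 => h2 P (by rw [mem_relI]; exact Submodule.subset_span ⟨hP1, hP2⟩)⟩

/-- the translation as a ring homomorphism -/
noncomputable def cpH (g : Matrix N N ℂ) : MvPolynomial (N × N) ℂ →+* MvPolynomial (N × N) ℂ :=
  (bind₁ (sb (ml g)) : MvPolynomial (N × N) ℂ →ₐ[ℂ] MvPolynomial (N × N) ℂ).toRingHom

theorem cpH_apply (g : Matrix N N ℂ) (P : MvPolynomial (N × N) ℂ) : cpH g P = cp (ml g) P := rfl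

/-- injective endomorphisms and ascending chains -/
theorem chain {R : Type} [CommRing R] [IsNoetherianRing R] (J : Ideal R) (θ θ' : R →+* R)
    (h1 : ∀ x, θ (θ' x) = x) (h : ∀ x ∈ J, θ x ∈ J) {x : R} (hx : θ x ∈ J) : x ∈ J := by
  let f : ℕ →o Ideal R :=
    { toFun := fun n => Ideal.comap (θ ^ n) J
      monotone' := monotone_nat_of_le_succ fun n y hy => by
        rw [Ideal.mem_comap] at hy ⊢
        rw [pow_succ']
        exact h _ hy }
  obtain ⟨n, hn⟩ := monotone_stabilizes_iff_noetherian.2 (inferInstance : IsNoetherian R R) f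
  have h2 := hn (n + 1) (Nat.le_succ n)
  have h3 : (θ ^ n) ((θ' ^ n) x) = x := by
    rw [RingHom.coe_pow, RingHom.coe_pow]
    have h4 : Function.LeftInverse θ θ' := h1
    exact h4.iterate n x
  have h4 : (θ' ^ n) x ∈ f (n + 1) := by
    change (θ ^ (n + 1)) ((θ' ^ n) x) ∈ J
    rw [pow_succ']
    change θ ((θ ^ n) ((θ' ^ n) x)) ∈ J
    rw [h3]
    exact hx
  rw [← h2] at h4
  have h5 : (θ ^ n) ((θ' ^ n) x) ∈ J := h4
  rwa [h3] at h5

section main

variable [IsAlgClosed K] {c : Matrix N N ℂ} (hc : IsUnit c) (hr : Rational K (logs K c))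

include hc hr

/-- the key step: the ideal of the relations is stable under the translations -/
theorem cp_mem {z : Matrix N N ℂ} (hz : z ∈ Zar K c) {P : MvPolynomial (N × N) ℂ} (hP : P ∈ relI K (fl c)) :
    cp (ml (z * c⁻¹)) P ∈ relI K (fl c) := by
  have hprime := relI_prime (K := K) (fl c)
  have hr' : Rational K (conjBy c (logs K c)) :=
    (sub_iff hc hr).2 fun w hw A hA => logs_lie hc hr hw hA
  have hconj := Zar_conj hc hz hr hr'
  have hg : IsUnit (z * c⁻¹) := by
    refine hz.1.mul ?_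
    rw [Matrix.isUnit_iff_isUnit_det, Matrix.det_nonsing_inv]
    exact ((Matrix.isUnit_iff_isUnit_det c).1 hc).ringInverse
  have hginv : (z * c⁻¹)⁻¹ = c * z⁻¹ := by
    rw [Matrix.mul_inv_rev, Matrix.nonsing_inv_nonsing_inv c ((Matrix.isUnit_iff_isUnit_det c).1 hc)]
  refine mem_of_stable hc (relI K (fl c)) (fun P hP => relI_le _ hP) (logs K c : Set (Matrix N N ℂ))
    (fun w hw => mem_logs_of_tangent hc fun P hP1 hP2 =>
      hw P (by rw [mem_relI]; exact Submodule.subset_span ⟨hP1, hP2⟩))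
    (fun w hw P hP => relI_vf hc hr le_rfl hw hP)
    (fun Q => ∃ P ∈ relI K (fl c), Q = cp (ml (z * c⁻¹)) P) ?_ ?_ _ ⟨P, hP, rfl⟩
  · rintro Q ⟨P, hP, rfl⟩
    rw [mem_mx, eval_cp, ml_fl, Matrix.mul_assoc, unit_inv_mul hc, Matrix.mul_one]
    exact Zar_van hz hP
  · rintro w hw Q ⟨P, hP, rfl⟩
    refine ⟨vf (z * c⁻¹ * w * (z * c⁻¹)⁻¹) P, relI_vf hc hr le_rfl ?_ hP, vf_cp hg P⟩
    rw [hginv]
    have h1 : c⁻¹ * w * c ∈ conjBy c (logs K c) := (inv_mem_conjBy hc).2 hw
    rw [← hconj, mem_conjBy] at h1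
    have h2 : z * c⁻¹ * w * (c * z⁻¹) = z * (c⁻¹ * w * c) * z⁻¹ := by simp only [Matrix.mul_assoc]
    rw [h2]
    exact h1

/-- the translations are onto -/
theorem mem_of_cp {z : Matrix N N ℂ} (hz : z ∈ Zar K c) {Q : MvPolynomial (N × N) ℂ}
    (hQ : cp (ml (z * c⁻¹)) Q ∈ relI K (fl c)) : Q ∈ relI K (fl c) := by
  have hcu : IsUnit c⁻¹ := by
    rw [Matrix.isUnit_iff_isUnit_det, Matrix.det_nonsing_inv]
    exact ((Matrix.isUnit_iff_isUnit_det c).1 hc).ringInverse
  have hg : IsUnit (z * c⁻¹) := hz.1.mul hcu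
  refine chain (relI K (fl c)) (cpH (z * c⁻¹)) (cpH (z * c⁻¹)⁻¹) (fun x => ?_) (fun P hP => ?_) hQ
  · rw [cpH_apply, cpH_apply, cp_comp, unit_inv_mul hg, cp_one]
  · rw [cpH_apply]
    exact cp_mem hc hr hz hP

/-- **The Zariski closure is a torsor.** -/
theorem torsor_of_rational : IsTorsor (Zar K c) := by
  have hcu : IsUnit c⁻¹ := by
    rw [Matrix.isUnit_iff_isUnit_det, Matrix.det_nonsing_inv]
    exact ((Matrix.isUnit_iff_isUnit_det c).1 hc).ringInverse
  -- translations by the points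
  have h1 : ∀ z ∈ Zar K c, ∀ x ∈ Zar K c, z * c⁻¹ * x ∈ Zar K c := by
    intro z hz x hx
    rw [mem_Zar_iff]
    refine ⟨(hz.1.mul hcu).mul hx.1, fun P hP => ?_⟩
    have h2 := Zar_van hx (cp_mem hc hr hz hP)
    rwa [eval_cp, ml_fl] at h2
  have h2 : ∀ z ∈ Zar K c, ∀ x ∈ Zar K c, (z * c⁻¹)⁻¹ * x ∈ Zar K c := by
    intro z hz x hx
    have hg : IsUnit (z * c⁻¹) := hz.1.mul hcu
    have hgi : IsUnit (z * c⁻¹)⁻¹ := by
      rw [Matrix.isUnit_iff_isUnit_det, Matrix.det_nonsing_inv]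
      exact ((Matrix.isUnit_iff_isUnit_det _).1 hg).ringInverse
    rw [mem_Zar_iff]
    refine ⟨hgi.mul hx.1, fun P hP => ?_⟩
    have h3 : cp (ml (z * c⁻¹)) (cp (ml (z * c⁻¹)⁻¹) P) ∈ relI K (fl c) := by
      rw [cp_comp, unit_inv_mul hg, cp_one]
      exact hP
    have h4 := Zar_van hx (mem_of_cp hc hr hz h3)
    rwa [eval_cp, ml_fl] at h4
  intro x hx y hy z hz
  have h3 := h1 x hx _ (h2 y hy z hz)
  have h4 : x * c⁻¹ * ((y * c⁻¹)⁻¹ * z) = x * y⁻¹ * z := by
    rw [Matrix.mul_inv_rev, Matrix.nonsing_inv_nonsing_inv c ((Matrix.isUnit_iff_isUnit_det c).1 hc)]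
    calc x * c⁻¹ * (c * y⁻¹ * z) = x * (c⁻¹ * c) * y⁻¹ * z := by simp only [Matrix.mul_assoc]
      _ = x * y⁻¹ * z := by rw [unit_inv_mul hc, Matrix.mul_one]
  rwa [h4] at h3

omit hr in
/-- **The criterion**: the Zariski closure of `c` over `K` is a torsor if and only if the logarithmic derivatives of
`c` span a space which is rational over `K`. -/
theorem torsor_iff : IsTorsor (Zar K c) ↔ Rational K (logs K c) := by
  constructor
  · intro h
    rw [logs_Zar hc h]
    exact LM_rational (Zar_sub h)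
  · intro h
    exact torsor_of_rational hc h

end main

end Pool.Agent.R913.Tor
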