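import Pool.Agent.R913.Tor.Crit

/-!
# Subtorsors under groups over a smaller field
-/

set_option autoImplicit false
set_option linter.unusedSectionVars false

open Matrix MvPolynomial

namespace Pool.Agent.R913.Tor

open Pool.Agent.TH127.PT Pool.Agent.TH119.MX Pool.Agent.TH119.DR Pool.Agent.Y123.ST

variable {N : Type} [Fintype N] [DecidableEq N] {k K : Subfield ℂ} {S T : Set (Matrix N N ℂ)}

/-- The group of a torsor of matrices: all quotients `x y⁻¹` of its points. -/
def quot (T : Set (Matrix N N ℂ)) : Set (Matrix N N ℂ) := {g | ∃ x ∈ T, ∃ y ∈ T, g = x * y⁻¹}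

/-- The group of `T` is defined over `k`: it is stable under the automorphisms of `ℂ` over `k`. -/
def GroupOver (k : Subfield ℂ) (T : Set (Matrix N N ℂ)) : Prop :=
  ∀ σ : ℂ ≃+* ℂ, (∀ a ∈ k, σ a = a) → ∀ g ∈ quot T, g.map σ ∈ quot T

theorem Rational.mono (hk : k ≤ K) {U : Submodule ℂ (Matrix N N ℂ)} (h : Rational k U) : Rational K U := by
  refine h.trans (Submodule.span_mono ?_)
  rintro A ⟨h1, h2⟩
  exact ⟨h1, fun i j => hk (h2 i j)⟩

theorem quot_mul_mem (hT : IsSubtorsor K T) {g x : Matrix N N ℂ} (hg : g ∈ quot T) (hx : x ∈ T) : g * x ∈ T := by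
  obtain ⟨a, ha, b, hb, rfl⟩ := hg
  exact hT.torsor a ha b hb x hx

theorem mem_quot_of_mul (hT : IsSubtorsor K T) {g x : Matrix N N ℂ} (hx : x ∈ T) (h : g * x ∈ T) : g ∈ quot T := by
  refine ⟨g * x, h, x, hx, ?_⟩
  rw [Matrix.mul_assoc, mul_inv' hT hx, Matrix.mul_one]

/-- the Lie algebra only depends on the group -/
theorem LM_quot (hT : IsSubtorsor K T) {c : Matrix N N ℂ} (hc : c ∈ T) : LM (quot T) = LM T := by
  have hci := mul_inv' hT hc
  ext w
  constructor
  · intro hw P hP x hx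
    have h1 : Van (quot T) (cp (mr c) P) := by
      intro g hg
      rw [eval_cp, mr_fl]
      exact hP _ (quot_mul_mem hT hg hc)
    have h2 : x * c⁻¹ ∈ quot T := ⟨x, hx, c, hc, rfl⟩
    have h3 := hw _ h1 _ h2
    rw [dd_cp, mr_fl, mr_fl, um_fl, Matrix.mul_assoc x, inv_mul' hT hc, Matrix.mul_one, Matrix.mul_assoc w,
      Matrix.mul_assoc x, inv_mul' hT hc, Matrix.mul_one] at h3
    rw [um_fl]
    exact h3
  · intro hw P hP g hg
    have h1 : Van T (cp (mr c⁻¹) P) := by
      intro x hx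
      rw [eval_cp, mr_fl]
      exact hP _ ⟨x, hx, c, hc, rfl⟩
    have h2 := hw _ h1 _ (quot_mul_mem hT hg hc)
    rw [dd_cp, mr_fl, mr_fl, um_fl, Matrix.mul_assoc g, hci, Matrix.mul_one, ← Matrix.mul_assoc w,
      Matrix.mul_assoc (w * g), hci, Matrix.mul_one] at h2
    rw [um_fl]
    exact h2

/-- a set of matrices which is stable under automorphisms has a rational Lie algebra -/
theorem LM_rational' (h : ∀ σ : ℂ ≃+* ℂ, (∀ a ∈ k, σ a = a) → ∀ g ∈ T, g.map σ ∈ T) : Rational k (LM T) := by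
  refine rational_of_aut _ fun σ hσ w hw => ?_
  intro P hP x hx
  have hvan : Van T (P.map (σ.symm : ℂ →+* ℂ)) := by
    intro y hy
    have h1 := hP _ (h σ hσ y hy)
    have h2 := eval_aut' σ (P.map (σ.symm : ℂ →+* ℂ)) (fl y)
    rw [MvPolynomial.map_map] at h2
    have h3 : (σ : ℂ →+* ℂ).comp (σ.symm : ℂ →+* ℂ) = RingHom.id ℂ := by
      ext z
      simp
    rw [h3, MvPolynomial.map_id] at h2
    have h4 : (fun b => σ (fl y b)) = fl (y.map σ) := rfl
    rw [h4, h1] at h2
    exact (map_eq_zero_iff σ σ.injective).1 h2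
  have h1 := hw _ hvan _ (h σ.symm (symm_fix hσ) x hx)
  have h2 := dd_aut σ (P.map (σ.symm : ℂ →+* ℂ)) (fl (x.map σ.symm)) (fl (um (fl w) * x.map σ.symm))
  rw [h1, map_zero, MvPolynomial.map_map] at h2
  have h3 : (σ : ℂ →+* ℂ).comp (σ.symm : ℂ →+* ℂ) = RingHom.id ℂ := by
    ext z
    simp
  rw [h3, MvPolynomial.map_id] at h2
  have h4 : (fun b => σ (fl (x.map σ.symm) b)) = fl x := by
    funext b
    simp [fl]
  have h5 : (fun b => σ (fl (um (fl w) * x.map σ.symm) b)) = fl (um (fl (w.map σ)) * x) := by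
    have h6 := fl_map_mul σ (um (fl w)) (x.map σ.symm)
    have h7 : (x.map σ.symm).map σ = x := by
      ext i j
      simp
    rw [h7] at h6
    exact h6
  rw [h4, h5] at h2
  exact h2.symm

theorem LM_rational_over (hT : IsSubtorsor K T) (hk : GroupOver k T) {c : Matrix N N ℂ} (hc : c ∈ T) :
    Rational k (LM T) := by
  rw [← LM_quot hT hc]
  exact LM_rational' hk

/-- intersections -/
theorem inter_sub' (hS : IsSubtorsor K S) (hT : IsSubtorsor K T) : IsSubtorsor K (T ∩ S) := by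
  refine ⟨fun x hx => hS.isUnit x hx.2, fun x hx y hy z hz => ⟨hT.torsor x hx.1 y hy.1 z hz.1,
    hS.torsor x hx.2 y hy.2 z hz.2⟩, ?_⟩
  obtain ⟨I, h1, h2⟩ := hS.algebraic
  obtain ⟨I', h1', h2'⟩ := hT.algebraic
  refine ⟨I ∪ I', ?_, fun x => ?_⟩
  · rintro p (hp | hp) m
    · exact h1 p hp m
    · exact h1' p hp m
  · rw [Set.mem_inter_iff, h2, h2']
    constructor
    · rintro ⟨⟨h3, h4⟩, -, h5⟩
      refine ⟨h3, ?_⟩
      rintro p (hp | hp)
      · exact h5 p hp
      · exact h4 p hp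
    · rintro ⟨h3, h4⟩
      exact ⟨⟨h3, fun p hp => h4 p (Or.inr hp)⟩, h3, fun p hp => h4 p (Or.inl hp)⟩

theorem inter_over (hS : IsSubtorsor K S) (hT : IsSubtorsor K T) (hkS : GroupOver k S) (hkT : GroupOver k T)
    {c : Matrix N N ℂ} (hcS : c ∈ S) (hcT : c ∈ T) : GroupOver k (T ∩ S) := by
  intro σ hσ g hg
  obtain ⟨x, hx, y, hy, rfl⟩ := hg
  have h1 := hkS σ hσ _ ⟨x, hx.2, y, hy.2, rfl⟩
  have h2 := hkT σ hσ _ ⟨x, hx.1, y, hy.1, rfl⟩
  exact mem_quot_of_mul (inter_sub' hS hT) ⟨hcT, hcS⟩ ⟨quot_mul_mem hT h2 hcT, quot_mul_mem hS h1 hcS⟩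

/-- the subtorsor of a subobject -/
theorem stab_over (hS : IsSubtorsor K S) (hkS : GroupOver k S) {c : Matrix N N ℂ} (hc : c ∈ S)
    {U : Submodule ℂ (Matrix N N ℂ)} (hk : k ≤ K) (hU : Rational k U) (hU' : Rational K (conjBy c U)) :
    GroupOver k (stab S c U) := by
  intro σ hσ g hg
  have hst := stab_sub hS hc (hU.mono hk) hU'
  obtain ⟨x, hx, y, hy, hgxy⟩ := hg
  have hxu := hS.isUnit x hx.1
  have hyu := hS.isUnit y hy.1
  have h1 : g.map σ ∈ quot S := hkS σ hσ _ ⟨x, hx.1, y, hy.1, hgxy⟩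
  have h2 : g.map σ * c ∈ S := quot_mul_mem hS h1 hc
  have hg1 : conjBy g U = U := by
    rw [hgxy, conjBy_mul, hx.2, ← hy.2, ← conjBy_mul, unit_mul_inv hyu, conjBy_one]
  have hgu : IsUnit g := by
    rw [hgxy]
    refine hxu.mul ?_
    rw [Matrix.isUnit_iff_isUnit_det, Matrix.det_nonsing_inv]
    exact ((Matrix.isUnit_iff_isUnit_det y).1 hyu).ringInverse
  have hgσ : IsUnit (g.map σ) := hgu.map ((σ : ℂ →+* ℂ).mapMatrix (m := N))
  have hginv : (g.map σ)⁻¹ = g⁻¹.map σ := by
    refine Matrix.inv_eq_right_inv ?_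
    have h3 : (g * g⁻¹).map σ = g.map σ * g⁻¹.map σ :=
      Matrix.map_mul (f := (σ : ℂ →+* ℂ)) (L := g) (M := g⁻¹)
    rw [← h3, unit_mul_inv hgu]
    exact Matrix.map_one σ (map_zero σ) (map_one σ)
  have hle : U ≤ conjBy (g.map σ) U := by
    intro A hA
    rw [mem_conjBy, hginv]
    have h3 : A.map σ.symm ∈ U := hU.aut (symm_fix hσ) hA
    rw [← hg1, mem_conjBy] at h3
    have h4 := hU.aut hσ h3
    have h5 : (g * A.map σ.symm * g⁻¹).map σ = g.map σ * A * g⁻¹.map σ := by
      have e1 : (g * A.map σ.symm * g⁻¹).map σ = (g * A.map σ.symm).map σ * g⁻¹.map σ :=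
        Matrix.map_mul (f := (σ : ℂ →+* ℂ)) (L := g * A.map σ.symm) (M := g⁻¹)
      have e2 : (g * A.map σ.symm).map σ = g.map σ * (A.map σ.symm).map σ :=
        Matrix.map_mul (f := (σ : ℂ →+* ℂ)) (L := g) (M := A.map σ.symm)
      have e3 : (A.map σ.symm).map σ = A := by
        ext i j
        simp
      rw [e1, e2, e3]
    rwa [h5] at h4
  have heq : conjBy (g.map σ) U = U :=
    (Submodule.eq_of_le_of_finrank_eq hle (finrank_conjBy hgσ U).symm).symm
  refine mem_quot_of_mul hst ⟨hc, rfl⟩ ⟨h2, ?_⟩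
  rw [conjBy_mul, heq]

/-- **The core argument**, for a rational structure over `k`. -/
theorem der_le_of_sub' {g : Submodule ℂ (Matrix N N ℂ)} (hg : Rational k g)
    {t : Submodule ℂ (Matrix N N ℂ)} (ht : IsIdeal g t) (htr : Rational k t)
    (h : ∀ U : Submodule ℂ (Matrix N N ℂ), t ≤ U → U ≤ g → Rational k U → IsIdeal g U) : der g ≤ t := by
  have hline : ∀ x ∈ g, ∀ y ∈ g, (∀ i j, y i j ∈ k) → ∃ a : ℂ, x * y - y * x - a • y ∈ t := by
    intro x hx y hy hyK
    have hU : Rational k (t ⊔ Submodule.span ℂ {y}) := by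
      refine sup_le (htr.trans (Submodule.span_mono ?_)) ?_
      · rintro A ⟨hA, hA'⟩
        exact ⟨Submodule.mem_sup_left hA, hA'⟩
      · refine Submodule.span_le.2 ?_
        rintro A rfl
        exact Submodule.subset_span ⟨Submodule.mem_sup_right (Submodule.mem_span_singleton_self _), hyK⟩
    have hUg : t ⊔ Submodule.span ℂ {y} ≤ g :=
      sup_le ht.1 (Submodule.span_le.2 (by rintro A rfl; exact hy))
    have h1 : IsIdeal g (t ⊔ Submodule.span ℂ {y}) := h _ le_sup_left hUg hU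
    have h2 := h1.2 x hx y (Submodule.mem_sup_right (Submodule.mem_span_singleton_self _))
    obtain ⟨z, hz, u, hu, huz⟩ := Submodule.mem_sup.1 h2
    obtain ⟨a, rfl⟩ := Submodule.mem_span_singleton.1 hu
    refine ⟨a, ?_⟩
    rw [← huz, add_sub_cancel_right]
    exact hz
  have base : ∀ x ∈ g, ∀ y ∈ g, (∀ i j, x i j ∈ k) → (∀ i j, y i j ∈ k) → x * y - y * x ∈ t := by
    intro x hx y hy hxK hyK
    obtain ⟨a, ha⟩ := hline x hx y hy hyK
    obtain ⟨b, hb⟩ := hline y hy x hx hxK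
    have h1 : a • y + b • x ∈ t := by
      have h2 := t.add_mem ha hb
      have h3 : x * y - y * x - a • y + (y * x - x * y - b • x) = -(a • y + b • x) := by abel
      rw [h3] at h2
      have h4 := t.neg_mem h2
      rwa [neg_neg] at h4
    by_cases ha0 : a = 0
    · rw [ha0, zero_smul, sub_zero] at ha
      exact ha
    · have h2 : y + (a⁻¹ * b) • x ∈ t := by
        have h3 := t.smul_mem a⁻¹ h1
        rwa [smul_add, smul_smul, smul_smul, inv_mul_cancel₀ ha0, one_smul] at h3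
      have h3 := ht.2 x hx _ h2
      rw [com_add, com_smul, sub_self, smul_zero, add_zero] at h3
      exact h3
  refine Submodule.span_le.2 ?_
  rintro z ⟨x, hx, y, hy, rfl⟩
  change x * y - y * x ∈ t
  have h1 := hg hx
  clear hx
  induction h1 using Submodule.span_induction with
  | mem x hx =>
    have h2 := hg hy
    clear hy
    induction h2 using Submodule.span_induction with
    | mem y hy => exact base x hx.1 y hy.1 hx.2 hy.2
    | zero =>
      rw [Matrix.mul_zero, Matrix.zero_mul, sub_zero]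
      exact t.zero_mem
    | add v w _ _ hv hw =>
      rw [com_add]
      exact t.add_mem hv hw
    | smul a v _ hv =>
      rw [com_smul]
      exact t.smul_mem _ hv
  | zero =>
    rw [Matrix.mul_zero, Matrix.zero_mul, sub_zero]
    exact t.zero_mem
  | add v w _ _ hv hw =>
    rw [add_com]
    exact t.add_mem hv hw
  | smul a v _ hv =>
    rw [smul_com]
    exact t.smul_mem _ hv

/-- Every subobject of the adjoint object is an ideal, for the rational structures over `k` and over `K`. -/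
def AdjIdeals (k K : Subfield ℂ) (g : Submodule ℂ (Matrix N N ℂ)) (c : Matrix N N ℂ) : Prop :=
  ∀ U : Submodule ℂ (Matrix N N ℂ), U ≤ g → Rational k U → Rational K (conjBy c U) → IsIdeal g U

/-- Every subobject of the endomorphisms is stable under the derived algebra of `g`. -/
def EndStable (k K : Subfield ℂ) (g : Submodule ℂ (Matrix N N ℂ)) (c : Matrix N N ℂ) : Prop :=
  ∀ U : Submodule ℂ (Matrix N N ℂ), Rational k U → Rational K (conjBy c U) →
    ∀ w ∈ der g, ∀ A ∈ U, w * A - A * w ∈ U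

/-- `g` is the sum of its derived algebra and of its centre. -/
def CentreDer (g : Submodule ℂ (Matrix N N ℂ)) : Prop :=
  ∃ z : Submodule ℂ (Matrix N N ℂ), g ≤ der g ⊔ z ∧ ∀ x ∈ z, ∀ y ∈ g, x * y = y * x

/-- The Lie algebra of every torsor over `K` through `c`, under a group over `k`, contains the derived algebra
of `g`. -/
def AllLarge (k K : Subfield ℂ) (g : Submodule ℂ (Matrix N N ℂ)) (c : Matrix N N ℂ) : Prop :=
  ∀ T : Set (Matrix N N ℂ), IsSubtorsor K T → GroupOver k T → c ∈ T → der g ≤ LM T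

/-- `S` is contained in every torsor over `K` through `c` under a group over `k`. -/
def Smallest (k K : Subfield ℂ) (S : Set (Matrix N N ℂ)) (c : Matrix N N ℂ) : Prop :=
  ∀ T : Set (Matrix N N ℂ), IsSubtorsor K T → GroupOver k T → c ∈ T → S ⊆ T

section main

variable [IsAlgClosed K] (hk : k ≤ K) (hS : IsSubtorsor K S) (hkS : GroupOver k S) {c : Matrix N N ℂ} (hc : c ∈ S)

include hk hS hkS hc

theorem fwd (h : AdjIdeals k K (LM S) c) {T : Set (Matrix N N ℂ)} (hT : IsSubtorsor K T) (hkT : GroupOver k T)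
    (hcT : c ∈ T) : der (LM S) ≤ LM (T ∩ S) := by
  have hT1 := inter_sub' hS hT
  have hc1 : c ∈ T ∩ S := ⟨hcT, hc⟩
  have hkT1 := inter_over hS hT hkS hkT hc hcT
  have hcu := hS.isUnit c hc
  have hle : LM (T ∩ S) ≤ LM S := LM_mono hS hc1 Set.inter_subset_right
  have hr := LM_rational_over hT1 hkT1 hc1
  have hid : IsIdeal (LM S) (LM (T ∩ S)) := by
    refine h _ hle hr ?_
    rw [conjBy_LM hT1 hc1]
    exact RM_rational hT1
  refine der_le_of_sub' (LM_rational_over hS hkS hc) hid hr fun U hU1 hU2 hU3 => h U hU2 hU3 ?_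
  refine (sub_iff hcu (hU3.mono hk)).2 fun w hw A hA => hU1 ?_
  have h1 := hid.2 A (hU2 hA) w (logs_le hT1 hc1 hw)
  have h2 := (LM (T ∩ S)).neg_mem h1
  rwa [neg_sub] at h2

theorem adj_tfae (hz : CentreDer (LM S)) :
    List.TFAE [AdjIdeals k K (LM S) c, EndStable k K (LM S) c, AllLarge k K (LM S) c] := by
  tfae_have 1 → 3 := fun h T hT hkT hcT =>
    (fwd hk hS hkS hc h hT hkT hcT).trans (LM_mono hT ⟨hcT, hc⟩ Set.inter_subset_left)
  tfae_have 3 → 2 := by
    intro h U hU hU' w hw A hA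
    have h1 := h _ (stab_sub hS hc (hU.mono hk) hU') (stab_over hS hkS hc hk hU hU') ⟨hc, rfl⟩ hw
    exact main_bwd hS hc (hU.mono hk) hU' h1 A hA
  tfae_have 2 → 1 := by
    intro h U hUg hU hU'
    refine ⟨hUg, fun x hx y hy => ?_⟩
    obtain ⟨z, hz1, hz2⟩ := hz
    obtain ⟨d, hd, e, he, rfl⟩ := Submodule.mem_sup.1 (hz1 hx)
    rw [add_com, hz2 e he y (hUg hy), sub_self, add_zero]
    exact h U hU hU' d hd y hy
  tfae_finish

/-- **The criterion for the smallest torsor.** -/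
theorem adj_smallest (hirr : Irred S) (hz : CentreDer (LM S)) (hab : LM S ≤ der (LM S) ⊔ logs K c) :
    AdjIdeals k K (LM S) c ↔ Smallest k K S c := by
  constructor
  · intro h T hT hkT hcT
    have h1 := fwd hk hS hkS hc h hT hkT hcT
    have hT1 := inter_sub' hS hT
    have h2 : LM S ≤ LM (T ∩ S) := hab.trans (sup_le h1 (logs_le hT1 ⟨hcT, hc⟩))
    exact (full hS hirr hT1 hc ⟨hcT, hc⟩ h2).trans Set.inter_subset_left
  · intro h
    refine ((adj_tfae hk hS hkS hc hz).out 0 2).2 fun T hT hkT hcT => ?_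
    have h1 : LM S ≤ LM T := LM_mono hT hc (h T hT hkT hcT)
    exact (der_le fun x hx y hy => lie_mem hx hy).trans h1

end main

end Pool.Agent.R913.Tor
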