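import Pool.Agent.R913.Tor.Rt

/-!
# Reductive Lie algebras of matrices, and subobjects of the adjoint object
-/

set_option autoImplicit false
set_option linter.unusedSectionVars false

open Matrix MvPolynomial

namespace Pool.Agent.R913.Tor

open Pool.Agent.TH127.PT Pool.Agent.TH119.MX Pool.Agent.TH119.DR Pool.Agent.Y123.ST

variable {N : Type} [Fintype N] [DecidableEq N]

/-- The space spanned by the commutators of elements of `g`. -/
def der (g : Submodule ℂ (Matrix N N ℂ)) : Submodule ℂ (Matrix N N ℂ) :=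
  Submodule.span ℂ {z | ∃ x ∈ g, ∃ y ∈ g, z = x * y - y * x}

/-- `I` is an ideal of `g`. -/
def IsIdeal (g I : Submodule ℂ (Matrix N N ℂ)) : Prop :=
  I ≤ g ∧ ∀ x ∈ g, ∀ y ∈ I, x * y - y * x ∈ I

/-- Every ideal of `g` has a complementary ideal. -/
def Reductive (g : Submodule ℂ (Matrix N N ℂ)) : Prop :=
  ∀ I, IsIdeal g I → ∃ J, IsIdeal g J ∧ I ⊓ J = ⊥ ∧ I ⊔ J = g

theorem com_mem_der {g : Submodule ℂ (Matrix N N ℂ)} {x y : Matrix N N ℂ} (hx : x ∈ g) (hy : y ∈ g) :
    x * y - y * x ∈ der g := Submodule.subset_span ⟨x, hx, y, hy, rfl⟩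

theorem com_add (x y z : Matrix N N ℂ) : x * (y + z) - (y + z) * x = (x * y - y * x) + (x * z - z * x) := by
  rw [Matrix.mul_add, Matrix.add_mul]
  abel

theorem add_com (x y z : Matrix N N ℂ) : (y + z) * x - x * (y + z) = (y * x - x * y) + (z * x - x * z) := by
  rw [Matrix.mul_add, Matrix.add_mul]
  abel

theorem com_smul (x y : Matrix N N ℂ) (a : ℂ) : x * (a • y) - (a • y) * x = a • (x * y - y * x) := by
  rw [Matrix.mul_smul, Matrix.smul_mul, smul_sub]

theorem smul_com (x y : Matrix N N ℂ) (a : ℂ) : (a • y) * x - x * (a • y) = a • (y * x - x * y) := by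
  rw [Matrix.mul_smul, Matrix.smul_mul, smul_sub]

theorem der_mono {g h : Submodule ℂ (Matrix N N ℂ)} (hgh : g ≤ h) : der g ≤ der h := by
  refine Submodule.span_mono ?_
  rintro z ⟨x, hx, y, hy, rfl⟩
  exact ⟨x, hgh hx, y, hgh hy, rfl⟩

theorem der_le {g : Submodule ℂ (Matrix N N ℂ)} (hg : ∀ x ∈ g, ∀ y ∈ g, x * y - y * x ∈ g) : der g ≤ g := by
  refine Submodule.span_le.2 ?_
  rintro z ⟨x, hx, y, hy, rfl⟩
  exact hg x hx y hy

theorem der_ideal {g : Submodule ℂ (Matrix N N ℂ)} (hg : ∀ x ∈ g, ∀ y ∈ g, x * y - y * x ∈ g) :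
    IsIdeal g (der g) :=
  ⟨der_le hg, fun _ hx _ hy => com_mem_der hx (der_le hg hy)⟩

/-- the commutators of two sums of spaces which commute with the second summand -/
theorem der_sup_central {g a b : Submodule ℂ (Matrix N N ℂ)} (h1 : g ≤ a ⊔ b)
    (ha : a ≤ g) (hc : ∀ x ∈ b, ∀ y ∈ g, x * y = y * x) : der g ≤ der a := by
  refine Submodule.span_le.2 ?_
  rintro z ⟨x, hx, y, hy, rfl⟩
  obtain ⟨x1, hx1, x2, hx2, rfl⟩ := Submodule.mem_sup.1 (h1 hx)
  obtain ⟨y1, hy1, y2, hy2, rfl⟩ := Submodule.mem_sup.1 (h1 hy)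
  have e1 : (x1 + x2) * (y1 + y2) - (y1 + y2) * (x1 + x2) = x1 * y1 - y1 * x1 := by
    have h2 := hc x2 hx2 (y1 + y2) hy
    have h3 := hc y2 hy2 x1 (ha hx1)
    rw [Matrix.add_mul, h2, Matrix.mul_add (y1 + y2), Matrix.mul_add x1, Matrix.add_mul y1 y2 x1, h3]
    abel
  rw [e1]
  exact com_mem_der hx1 hy1

section red

variable {g : Submodule ℂ (Matrix N N ℂ)} (hg : ∀ x ∈ g, ∀ y ∈ g, x * y - y * x ∈ g) (hr : Reductive g)

include hg hr

/-- two ideals with zero intersection commute; the complement of the derived algebra is central -/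
theorem exists_central : ∃ a : Submodule ℂ (Matrix N N ℂ), a ≤ g ∧ der g ⊔ a = g ∧
    ∀ x ∈ a, ∀ y ∈ g, x * y = y * x := by
  obtain ⟨a, ha1, ha2, ha3⟩ := hr _ (der_ideal hg)
  refine ⟨a, ha1.1, ha3, fun x hx y hy => ?_⟩
  have h1 := ha1.2 y hy x hx
  have h2 : y * x - x * y ∈ der g := com_mem_der hy (ha1.1 hx)
  have h3 : y * x - x * y ∈ der g ⊓ a := ⟨h2, h1⟩
  rw [ha2, Submodule.mem_bot] at h3
  exact (sub_eq_zero.1 h3).symm

theorem der_perfect : der g ≤ der (der g) := by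
  obtain ⟨a, ha1, ha2, ha3⟩ := exists_central hg hr
  exact der_sup_central ha2.ge (der_le hg) ha3

/-- a matrix which is multiplied by scalars by the derived algebra commutes with it -/
theorem com_of_line {Z : Matrix N N ℂ} (hZ : ∀ w ∈ der g, ∃ a : ℂ, w * Z - Z * w = a • Z) :
    ∀ w ∈ der g, w * Z = Z * w := by
  intro w hw
  have h1 := der_perfect hg hr hw
  clear hw
  unfold der at h1
  induction h1 using Submodule.span_induction with
  | mem w hw =>
    obtain ⟨x, hx, y, hy, rfl⟩ := hw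
    obtain ⟨a, ha⟩ := hZ x hx
    obtain ⟨b, hb⟩ := hZ y hy
    have e : (x * y - y * x) * Z - Z * (x * y - y * x) =
        (x * (y * Z - Z * y) - (y * Z - Z * y) * x) - (y * (x * Z - Z * x) - (x * Z - Z * x) * y) := by
      noncomm_ring
    rw [hb, ha, com_smul, com_smul, ha, hb, smul_smul, smul_smul, mul_comm a b, sub_self] at e
    exact sub_eq_zero.1 e
  | zero => rw [Matrix.zero_mul, Matrix.mul_zero]
  | add v w _ _ hv hw => rw [Matrix.add_mul, Matrix.mul_add, hv, hw]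
  | smul a v _ hv => rw [Matrix.smul_mul, Matrix.mul_smul, hv]

end red

/-- the centraliser of `t` in `g` -/
def cent (g t : Submodule ℂ (Matrix N N ℂ)) : Submodule ℂ (Matrix N N ℂ) where
  carrier := {z | z ∈ g ∧ ∀ x ∈ t, z * x = x * z}
  zero_mem' := ⟨g.zero_mem, fun x _ => by rw [Matrix.zero_mul, Matrix.mul_zero]⟩
  add_mem' := by
    rintro y z ⟨h1, h2⟩ ⟨h3, h4⟩
    exact ⟨g.add_mem h1 h3, fun x hx => by rw [Matrix.add_mul, Matrix.mul_add, h2 x hx, h4 x hx]⟩
  smul_mem' := by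
    rintro a z ⟨h1, h2⟩
    exact ⟨g.smul_mem a h1, fun x hx => by rw [Matrix.smul_mul, Matrix.mul_smul, h2 x hx]⟩

theorem cent_rational {K : Subfield ℂ} {g t : Submodule ℂ (Matrix N N ℂ)} (hg : Rational K g)
    (ht : Rational K t) : Rational K (cent g t) := by
  refine rational_of_aut _ fun σ hσ z hz => ⟨hg.aut hσ hz.1, fun x hx => ?_⟩
  have h1 := hz.2 _ (ht.aut (symm_fix hσ) hx)
  have h2 : (z * x.map σ.symm).map σ = (x.map σ.symm * z).map σ := by rw [h1]
  have h3 : ∀ a b : Matrix N N ℂ, (a * b).map σ = a.map σ * b.map σ := fun a b =>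
    Matrix.map_mul (f := (σ : ℂ →+* ℂ)) (L := a) (M := b)
  rw [h3, h3] at h2
  have h4 : (x.map σ.symm).map σ = x := by
    ext i j
    simp
  rwa [h4] at h2

variable {K : Subfield ℂ}

theorem map_der_mul (D : Derivation K ℂ ℂ) (a b : Matrix N N ℂ) :
    (a * b).map D = a.map D * b + a * b.map D := by
  ext i j
  simp only [Matrix.map_apply, Matrix.add_apply, Matrix.mul_apply, map_sum, Derivation.leibniz,
    Finset.sum_add_distrib, smul_eq_mul]
  rw [add_comm]
  congr 1
  refine Finset.sum_congr rfl fun k _ => ?_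
  rw [mul_comm]

theorem map_der_const (D : Derivation K ℂ ℂ) {a : Matrix N N ℂ} (ha : ∀ i j, a i j ∈ K) : a.map D = 0 := by
  ext i j
  exact D.map_algebraMap ⟨a i j, ha i j⟩

/-- conjugates of a rational matrix commuting with the logarithmic derivatives -/
theorem conj_rational [IsAlgClosed K] {c Z : Matrix N N ℂ} (hc : IsUnit c) (hZ : ∀ i j, Z i j ∈ K)
    (h : ∀ D : Derivation K ℂ ℂ, Z * (c.map D * c⁻¹) = c.map D * c⁻¹ * Z) :
    ∀ i j, (c⁻¹ * Z * c) i j ∈ K := by
  have hdet := (Matrix.isUnit_iff_isUnit_det c).1 hc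
  have h1 : c⁻¹ * c = 1 := Matrix.nonsing_inv_mul c hdet
  have h2 : c * c⁻¹ = 1 := Matrix.mul_nonsing_inv c hdet
  intro i j
  obtain ⟨a, ha⟩ := Pool.Agent.W516.DR.mem_of_derivation (K := K) (L := ℂ) (x := (c⁻¹ * Z * c) i j) fun D => by
    have h3 : (c * (c⁻¹ * Z * c)).map D = (Z * c).map D := by
      rw [Matrix.mul_assoc c⁻¹, ← Matrix.mul_assoc c, h2, Matrix.one_mul]
    rw [map_der_mul D c, map_der_mul D Z, map_der_const D hZ, Matrix.zero_mul, zero_add] at h3
    have h4 : c.map D * (c⁻¹ * Z * c) = Z * c.map D := by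
      have h5 := h D
      calc c.map D * (c⁻¹ * Z * c) = (c.map D * c⁻¹ * Z) * c := by simp only [Matrix.mul_assoc]
        _ = Z * (c.map D * c⁻¹) * c := by rw [h5]
        _ = Z * c.map D := by rw [Matrix.mul_assoc, Matrix.mul_assoc, h1, Matrix.mul_one]
    rw [h4] at h3
    have h5 : c * (c⁻¹ * Z * c).map D = 0 := by
      have := add_left_cancel (a := Z * c.map D) (b := c * (c⁻¹ * Z * c).map D) (c := 0) (by rw [h3, add_zero])
      exact this
    have h6 : (c⁻¹ * Z * c).map D = 0 := by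
      calc (c⁻¹ * Z * c).map D = c⁻¹ * (c * (c⁻¹ * Z * c).map D) := by
            rw [← Matrix.mul_assoc, h1, Matrix.one_mul]
        _ = 0 := by rw [h5, Matrix.mul_zero]
    exact congrFun (congrFun h6 i) j
  rw [← ha]
  exact a.2

theorem rational_line {Z : Matrix N N ℂ} (hZ : ∀ i j, Z i j ∈ K) :
    Rational K (Submodule.span ℂ {Z}) := by
  refine Submodule.span_le.2 ?_
  rintro A rfl
  exact Submodule.subset_span ⟨Submodule.mem_span_singleton_self _, hZ⟩

theorem conjBy_line {c Z : Matrix N N ℂ} (hc : IsUnit c) :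
    conjBy c (Submodule.span ℂ {Z}) = Submodule.span ℂ {c⁻¹ * Z * c} := by
  have hdet := (Matrix.isUnit_iff_isUnit_det c).1 hc
  have h1 : c⁻¹ * c = 1 := Matrix.nonsing_inv_mul c hdet
  have h2 : c * c⁻¹ = 1 := Matrix.mul_nonsing_inv c hdet
  ext A
  rw [mem_conjBy, Submodule.mem_span_singleton, Submodule.mem_span_singleton]
  constructor
  · rintro ⟨a, ha⟩
    refine ⟨a, ?_⟩
    calc a • (c⁻¹ * Z * c) = c⁻¹ * (a • Z) * c := by rw [Matrix.mul_smul, Matrix.smul_mul]
      _ = (c⁻¹ * c) * A * (c⁻¹ * c) := by rw [ha]; simp only [Matrix.mul_assoc]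
      _ = A := by rw [h1, Matrix.one_mul, Matrix.mul_one]
  · rintro ⟨a, rfl⟩
    refine ⟨a, ?_⟩
    calc a • Z = a • ((c * c⁻¹) * Z * (c * c⁻¹)) := by rw [h2, Matrix.one_mul, Matrix.mul_one]
      _ = c * a • (c⁻¹ * Z * c) * c⁻¹ := by
        rw [Matrix.mul_smul, Matrix.smul_mul]
        simp only [Matrix.mul_assoc]

/-- **The core argument**: an ideal `t` of a reductive Lie algebra `g`, both rational over `K`, which contains the
logarithmic derivatives of `c`, contains the derived algebra, if the rational lines whose transports by `c` are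
rational are ideals. -/
theorem core [IsAlgClosed K] {g : Submodule ℂ (Matrix N N ℂ)} (hlie : ∀ x ∈ g, ∀ y ∈ g, x * y - y * x ∈ g)
    (hg : Rational K g) (hr : Reductive g) {c : Matrix N N ℂ} (hc : IsUnit c)
    (h : ∀ Z ∈ g, (∀ i j, Z i j ∈ K) → (∀ i j, (c⁻¹ * Z * c) i j ∈ K) → IsIdeal g (Submodule.span ℂ {Z}))
    {t : Submodule ℂ (Matrix N N ℂ)} (ht : IsIdeal g t) (htr : Rational K t)
    (hlog : ∀ D : Derivation K ℂ ℂ, c.map D * c⁻¹ ∈ t) : der g ≤ der t := by
  obtain ⟨k, hk1, hk2, hk3⟩ := hr _ ht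
  -- the elements of `k` commute with `t`
  have hkc : k ≤ cent g t := by
    intro z hz
    refine ⟨hk1.1 hz, fun x hx => ?_⟩
    have h1 := hk1.2 x (ht.1 hx) z hz
    have h2 := ht.2 z (hk1.1 hz) x hx
    have h3 : z * x - x * z ∈ t ⊓ k := by
      refine ⟨h2, ?_⟩
      have := k.neg_mem h1
      rwa [neg_sub] at this
    rw [hk2, Submodule.mem_bot] at h3
    exact sub_eq_zero.1 h3
  -- the centraliser is central
  have hcen : ∀ z ∈ cent g t, ∀ y ∈ g, z * y = y * z := by
    obtain ⟨a, ha1, ha2, ha3⟩ := exists_central hlie hr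
    intro z hz
    have h1 := cent_rational hg htr hz
    clear hz
    induction h1 using Submodule.span_induction with
    | mem Z hZ =>
      obtain ⟨⟨hZ1, hZ2⟩, hZ3⟩ := hZ
      have h2 : ∀ i j, (c⁻¹ * Z * c) i j ∈ K :=
        conj_rational hc hZ3 fun D => hZ2 _ (hlog D)
      have h3 : IsIdeal g (Submodule.span ℂ {Z}) := h Z hZ1 hZ3 h2
      have h4 : ∀ w ∈ der g, w * Z = Z * w := by
        refine com_of_line hlie hr fun w hw => ?_
        have h5 := h3.2 w (der_le hlie hw) Z (Submodule.mem_span_singleton_self _)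
        obtain ⟨a, ha⟩ := Submodule.mem_span_singleton.1 h5
        exact ⟨a, ha.symm⟩
      intro y hy
      rw [← ha2] at hy
      obtain ⟨y1, hy1, y2, hy2, rfl⟩ := Submodule.mem_sup.1 hy
      rw [Matrix.mul_add, Matrix.add_mul, h4 y1 hy1, ha3 y2 hy2 Z hZ1]
    | zero =>
      intro y _
      rw [Matrix.zero_mul, Matrix.mul_zero]
    | add v w _ _ hv hw =>
      intro y hy
      rw [Matrix.add_mul, Matrix.mul_add, hv y hy, hw y hy]
    | smul a v _ hv =>
      intro y hy
      rw [Matrix.smul_mul, Matrix.mul_smul, hv y hy]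
  refine der_sup_central (a := t) (b := k) hk3.ge ht.1 fun x hx y hy => ?_
  exact hcen x (hkc hx) y hy

end Pool.Agent.R913.Tor
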