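import Pool.Agent.Y123.ST.Exp
import Pool.Agent.W516.DRDeriv

/-!
# The Lie algebra of a subtorsor is closed under brackets
-/

set_option autoImplicit false
set_option linter.unusedSectionVars false

open Matrix MvPolynomial

namespace Pool.Agent.R913.Tor

open Pool.Agent.TH127.PT Pool.Agent.TH119.MX Pool.Agent.TH119.DR Pool.Agent.Y123.ST

variable {N : Type} [Fintype N] [DecidableEq N]

/-- the vector field of `w` as a derivation -/
noncomputable def vf (w : Matrix N N ℂ) :
    Derivation ℂ (MvPolynomial (N × N) ℂ) (MvPolynomial (N × N) ℂ) :=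
  mkDerivation ℂ fun b => sb (ml w) b

theorem vf_X (w : Matrix N N ℂ) (b : N × N) : vf w (X b) = sb (ml w) b := mkDerivation_X _ _ _

theorem vf_eq (w : Matrix N N ℂ) (P : MvPolynomial (N × N) ℂ) : vf w P = DL w P := by
  classical
  induction P using MvPolynomial.induction_on with
  | C a =>
    rw [show (C a : MvPolynomial (N × N) ℂ) = algebraMap ℂ _ a from rfl, Derivation.map_algebraMap]
    simp [DL]
  | add p q hp hq =>
    rw [map_add, hp, hq]
    unfold DL
    rw [← Finset.sum_add_distrib]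
    refine Finset.sum_congr rfl fun b _ => ?_
    rw [map_add, add_mul]
  | mul_X p b hp =>
    rw [Derivation.leibniz, hp, vf_X]
    unfold DL
    rw [smul_eq_mul, smul_eq_mul, Finset.mul_sum]
    have h1 : ∀ k, pderiv k (p * X b) * sb (ml w) k =
        X b * (pderiv k p * sb (ml w) k) + (if b = k then p * sb (ml w) b else 0) := by
      intro k
      rw [pderiv_mul]
      by_cases h2 : b = k
      · subst h2
        rw [pderiv_X_self, if_pos rfl]
        ring
      · rw [pderiv_X_of_ne h2, if_neg h2]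
        ring
    rw [Finset.sum_congr rfl fun k _ => h1 k, Finset.sum_add_distrib, Finset.sum_ite_eq,
      if_pos (Finset.mem_univ b), add_comm]

theorem eval_vf (w : Matrix N N ℂ) (P : MvPolynomial (N × N) ℂ) (y : N × N → ℂ) :
    eval y (vf w P) = dd P y (ml w y) := by
  rw [vf_eq, eval_DL]

theorem vf_lie (w w' : Matrix N N ℂ) : ⁅vf w, vf w'⁆ = vf (w' * w - w * w') := by
  refine MvPolynomial.derivation_ext fun b => ?_
  rw [Derivation.commutator_apply, vf_X, vf_X, vf_X]
  refine MvPolynomial.funext fun y => ?_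
  rw [map_sub, eval_vf, eval_vf, dd_sb, dd_sb, eval_sb]
  have h1 : ml (w' * w - w * w') y = ml w' (ml w y) - ml w (ml w' y) := by
    change fl ((w' * w - w * w') * um y) = fl (w' * um (fl (w * um y))) - fl (w * um (fl (w' * um y)))
    rw [um_fl, um_fl, Matrix.sub_mul, Matrix.mul_assoc, Matrix.mul_assoc]
    rfl
  rw [h1, Pi.sub_apply]

/-- the left Lie algebra as a space of matrices -/
def LM (T : Set (Matrix N N ℂ)) : Submodule ℂ (Matrix N N ℂ) where
  carrier := {w | fl w ∈ LL T}
  zero_mem' := (LL T).zero_mem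
  add_mem' := fun h h' => (LL T).add_mem h h'
  smul_mem' := fun a _ h => (LL T).smul_mem a h

theorem mem_LM {T : Set (Matrix N N ℂ)} {w : Matrix N N ℂ} : w ∈ LM T ↔ fl w ∈ LL T := Iff.rfl

/-- the right Lie algebra as a space of matrices -/
def RM (T : Set (Matrix N N ℂ)) : Submodule ℂ (Matrix N N ℂ) where
  carrier := {w | fl w ∈ RR T}
  zero_mem' := (RR T).zero_mem
  add_mem' := fun h h' => (RR T).add_mem h h'
  smul_mem' := fun a _ h => (RR T).smul_mem a h

theorem mem_RM {T : Set (Matrix N N ℂ)} {w : Matrix N N ℂ} : w ∈ RM T ↔ fl w ∈ RR T := Iff.rfl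

variable {K : Subfield ℂ} {T : Set (Matrix N N ℂ)}

theorem lie_mem {w w' : Matrix N N ℂ} (hw : w ∈ LM T) (hw' : w' ∈ LM T) : w * w' - w' * w ∈ LM T := by
  intro P hP x hx
  have h1 : dd P (fl x) (fl ((w * w' - w' * w) * x)) = eval (fl x) (vf (w * w' - w' * w) P) := by
    rw [eval_vf, ml_fl]
  rw [um_fl, h1, ← vf_lie, Derivation.commutator_apply, map_sub]
  have h2 : ∀ {v : Matrix N N ℂ} {Q : MvPolynomial (N × N) ℂ}, v ∈ LM T → Van T Q → Van T (vf v Q) := by
    intro v Q hv hQ
    rw [vf_eq]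
    exact van_DL hv hQ
  rw [h2 hw' (h2 hw hP) x hx, h2 hw (h2 hw' hP) x hx, sub_zero]

/-- a tangent vector at one point -/
theorem mem_LM_of_point (hT : IsSubtorsor K T) {c w : Matrix N N ℂ} (hc : c ∈ T)
    (h : ∀ P, Van T P → dd P (fl c) (fl (w * c)) = 0) : w ∈ LM T := by
  intro P hP x hx
  have h1 := h _ (van_right hT hP hc hx)
  rw [dd_cp, mr_fl, mr_fl, ← Matrix.mul_assoc, mul_inv' hT hc, Matrix.one_mul] at h1
  have h2 : w * c * (c⁻¹ * x) = w * x := by
    rw [Matrix.mul_assoc, ← Matrix.mul_assoc c, mul_inv' hT hc, Matrix.one_mul]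
  rw [h2] at h1
  rw [um_fl]
  exact h1

theorem LM_mono {S : Set (Matrix N N ℂ)} (hS : IsSubtorsor K S) {c : Matrix N N ℂ} (hc : c ∈ T)
    (hTS : T ⊆ S) : LM T ≤ LM S := by
  intro w hw
  refine mem_LM_of_point hS (hTS hc) fun P hP => ?_
  exact hw P (fun x hx => hP x (hTS hx)) c hc

end Pool.Agent.R913.Tor
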