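import Pool.Agent.R913.Tor.Rt

/-!
# The subtorsor attached to a subobject of the endomorphisms
-/

set_option autoImplicit false
set_option linter.unusedSectionVars false

open Matrix MvPolynomial

namespace Pool.Agent.R913.Tor

open Pool.Agent.TH127.PT Pool.Agent.TH119.MX Pool.Agent.TH119.DR Pool.Agent.Y123.ST

variable {N : Type} [Fintype N] [DecidableEq N]

theorem unit_inv_mul {x : Matrix N N ℂ} (hx : IsUnit x) : x⁻¹ * x = 1 :=
  Matrix.nonsing_inv_mul x ((Matrix.isUnit_iff_isUnit_det x).1 hx)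

theorem unit_mul_inv {x : Matrix N N ℂ} (hx : IsUnit x) : x * x⁻¹ = 1 :=
  Matrix.mul_nonsing_inv x ((Matrix.isUnit_iff_isUnit_det x).1 hx)

/-- conjugation as a linear equivalence -/
noncomputable def cj (x : Matrix N N ℂ) (hx : IsUnit x) : Matrix N N ℂ ≃ₗ[ℂ] Matrix N N ℂ where
  toFun A := x * A * x⁻¹
  invFun A := x⁻¹ * A * x
  map_add' A A' := by rw [Matrix.mul_add, Matrix.add_mul]
  map_smul' a A := by rw [Matrix.mul_smul, Matrix.smul_mul]; rfl
  left_inv A := by
    calc x⁻¹ * (x * A * x⁻¹) * x = (x⁻¹ * x) * A * (x⁻¹ * x) := by simp only [Matrix.mul_assoc]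
      _ = A := by rw [unit_inv_mul hx, Matrix.one_mul, Matrix.mul_one]
  right_inv A := by
    calc x * (x⁻¹ * A * x) * x⁻¹ = (x * x⁻¹) * A * (x * x⁻¹) := by simp only [Matrix.mul_assoc]
      _ = A := by rw [unit_mul_inv hx, Matrix.one_mul, Matrix.mul_one]

theorem finrank_conjBy {x : Matrix N N ℂ} (hx : IsUnit x) (U : Submodule ℂ (Matrix N N ℂ)) :
    Module.finrank ℂ (conjBy x U) = Module.finrank ℂ U := by
  have h1 : conjBy x U = U.comap (cj x hx : Matrix N N ℂ →ₗ[ℂ] Matrix N N ℂ) := rfl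
  rw [h1]
  have h2 : U.comap (cj x hx : Matrix N N ℂ →ₗ[ℂ] Matrix N N ℂ) =
      U.map ((cj x hx).symm : Matrix N N ℂ →ₗ[ℂ] Matrix N N ℂ) :=
    (Submodule.map_equiv_eq_comap_symm (cj x hx).symm U).symm
  rw [h2]
  exact LinearEquiv.finrank_map_eq (cj x hx).symm U

theorem conjBy_mul {x y : Matrix N N ℂ} (U : Submodule ℂ (Matrix N N ℂ)) :
    conjBy (x * y) U = conjBy y (conjBy x U) := by
  ext A
  rw [mem_conjBy, mem_conjBy, mem_conjBy, Matrix.mul_inv_rev]
  simp only [Matrix.mul_assoc]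

theorem conjBy_one (U : Submodule ℂ (Matrix N N ℂ)) : conjBy 1 U = U := by
  ext A
  rw [mem_conjBy, inv_one, Matrix.one_mul, Matrix.mul_one]

/-- the points of `S` which transport the subobject -/
def stab (S : Set (Matrix N N ℂ)) (c : Matrix N N ℂ) (U : Submodule ℂ (Matrix N N ℂ)) : Set (Matrix N N ℂ) :=
  {x | x ∈ S ∧ conjBy x U = conjBy c U}

theorem adj_eq {x : Matrix N N ℂ} (hx : IsUnit x) : adjugate x = det x • x⁻¹ := by
  have h1 := Matrix.adjugate_mul x
  calc adjugate x = adjugate x * (x * x⁻¹) := by rw [unit_mul_inv hx, Matrix.mul_one]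
    _ = _ := by rw [← Matrix.mul_assoc, h1, Matrix.smul_mul, Matrix.one_mul]

theorem sum_adj {x : Matrix N N ℂ} (hx : IsUnit x) (A : Matrix N N ℂ) (u : N × N → ℂ) :
    ∑ b, u b * (adjugate x * A * x) b.1 b.2 = det x * ∑ b, u b * (x⁻¹ * A * x) b.1 b.2 := by
  rw [Finset.mul_sum]
  refine Finset.sum_congr rfl fun b _ => ?_
  rw [adj_eq hx, Matrix.smul_mul, Matrix.smul_mul, Matrix.smul_apply, smul_eq_mul]
  ring

theorem inv_mem_conjBy {x A : Matrix N N ℂ} (hx : IsUnit x) {U : Submodule ℂ (Matrix N N ℂ)} :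
    x⁻¹ * A * x ∈ conjBy x U ↔ A ∈ U := by
  rw [mem_conjBy]
  have : x * (x⁻¹ * A * x) * x⁻¹ = A := (cj x hx).right_inv A
  rw [this]

variable {K : Subfield ℂ} {S : Set (Matrix N N ℂ)}

theorem stab_sub (hS : IsSubtorsor K S) {c : Matrix N N ℂ} (hc : c ∈ S) {U : Submodule ℂ (Matrix N N ℂ)}
    (hU : Rational K U) (hU' : Rational K (conjBy c U)) : IsSubtorsor K (stab S c U) := by
  have hu : ∀ x ∈ stab S c U, IsUnit x := fun x hx => hS.isUnit x hx.1
  refine ⟨hu, ?_, ?_⟩
  · intro x hx y hy z hz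
    refine ⟨hS.torsor x hx.1 y hy.1 z hz.1, ?_⟩
    calc conjBy (x * y⁻¹ * z) U = conjBy z (conjBy y⁻¹ (conjBy x U)) := by rw [conjBy_mul, conjBy_mul]
      _ = conjBy z (conjBy y⁻¹ (conjBy y U)) := by rw [hx.2, hy.2]
      _ = conjBy z U := by rw [← conjBy_mul (x := y), unit_mul_inv (hu y hy), conjBy_one]
      _ = conjBy c U := hz.2
  · obtain ⟨I, h1, h2⟩ := hS.algebraic
    refine ⟨I ∪ {p | ∃ A : Matrix N N ℂ, ∃ u : N × N → ℂ, A ∈ U ∧ (∀ i j, A i j ∈ K) ∧ u ∈ ann (conjBy c U) ∧
      (∀ b, u b ∈ K) ∧ p = PG A u}, ?_, fun x => ?_⟩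
    · rintro p (hp | ⟨A, u, -, h3, -, h4, rfl⟩) m
      · exact h1 p hp m
      · exact coeff_of_KP (PG_KP h3 h4) m
    · constructor
      · rintro ⟨h3, h4⟩
        refine ⟨hS.isUnit x h3, ?_⟩
        rintro p (hp | ⟨A, u, h5, -, h6, -, rfl⟩)
        · exact ((h2 x).1 h3).2 p hp
        · change eval (fl x) (PG A u) = 0
          rw [eval_PG, sum_adj (hS.isUnit x h3)]
          rw [← h4] at h6
          rw [h6 _ ((inv_mem_conjBy (hS.isUnit x h3)).2 h5), mul_zero]
      · rintro ⟨h3, h4⟩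
        have hxS : x ∈ S := (h2 x).2 ⟨h3, fun p hp => h4 p (Or.inl hp)⟩
        refine ⟨hxS, ?_⟩
        have hdet : det x ≠ 0 := ((Matrix.isUnit_iff_isUnit_det x).1 h3).ne_zero
        have h5 : ∀ A ∈ U, x⁻¹ * A * x ∈ conjBy c U := by
          intro A hA
          have h6 := hU hA
          clear hA
          induction h6 using Submodule.span_induction with
          | mem A hA =>
            refine mem_of_ann_rational hU' fun u hu1 hu2 => ?_
            have h7 : eval (fl x) (PG A u) = 0 := h4 _ (Or.inr ⟨A, u, hA.1, hA.2, hu1, hu2, rfl⟩)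
            rw [eval_PG, sum_adj h3] at h7
            exact (mul_eq_zero.1 h7).resolve_left hdet
          | zero =>
            rw [Matrix.mul_zero, Matrix.zero_mul]
            exact Submodule.zero_mem _
          | add v w _ _ hv hw =>
            rw [Matrix.mul_add, Matrix.add_mul]
            exact Submodule.add_mem _ hv hw
          | smul a v _ hv =>
            rw [Matrix.mul_smul, Matrix.smul_mul]
            exact Submodule.smul_mem _ _ hv
        have h6 : conjBy x U ≤ conjBy c U := by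
          intro A hA
          have h7 := h5 _ hA
          have h8 : x⁻¹ * (x * A * x⁻¹) * x = A := (cj x h3).left_inv A
          rwa [h8] at h7
        refine Submodule.eq_of_le_of_finrank_eq h6 ?_
        rw [finrank_conjBy h3, finrank_conjBy (hS.isUnit c hc)]

/-- **If the Lie algebra of the subtorsor of a subobject contains `w`, the subobject is stable under `w`.** -/
theorem main_bwd (hS : IsSubtorsor K S) {c : Matrix N N ℂ} (hc : c ∈ S) {U : Submodule ℂ (Matrix N N ℂ)}
    (hU : Rational K U) (hU' : Rational K (conjBy c U)) {w : Matrix N N ℂ} (hw : w ∈ LM (stab S c U)) :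
    ∀ A ∈ U, w * A - A * w ∈ U := by
  have hcu := hS.isUnit c hc
  have hcT : c ∈ stab S c U := ⟨hc, rfl⟩
  have hdet : det c ≠ 0 := ((Matrix.isUnit_iff_isUnit_det c).1 hcu).ne_zero
  intro A hA
  have h1 := hU hA
  clear hA
  induction h1 using Submodule.span_induction with
  | mem A hA =>
    have h2 : A * w - w * A ∈ U := by
      rw [← inv_mem_conjBy hcu]
      refine mem_of_ann_rational hU' fun u hu1 hu2 => ?_
      have h3 : Van (stab S c U) (PG A u) := by
        intro x hx
        have hxu := hS.isUnit x hx.1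
        rw [eval_PG, sum_adj hxu]
        have hu3 := hu1
        rw [← hx.2] at hu3
        rw [hu3 _ ((inv_mem_conjBy hxu).2 hA.1), mul_zero]
      have h4 := hw _ h3 c hcT
      have h5 := h3 c hcT
      rw [eval_PG] at h5
      rw [um_fl, dd_PG, h5, mul_zero, zero_add, sum_adj hcu] at h4
      exact (mul_eq_zero.1 h4).resolve_left hdet
    have h3 := U.neg_mem h2
    rwa [neg_sub] at h3
  | zero =>
    rw [Matrix.mul_zero, Matrix.zero_mul, sub_zero]
    exact U.zero_mem
  | add v v' _ _ hv hv' =>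
    have : w * (v + v') - (v + v') * w = (w * v - v * w) + (w * v' - v' * w) := by
      rw [Matrix.mul_add, Matrix.add_mul]
      abel
    rw [this]
    exact U.add_mem hv hv'
  | smul a v _ hv =>
    have : w * (a • v) - (a • v) * w = a • (w * v - v * w) := by
      rw [Matrix.mul_smul, Matrix.smul_mul, smul_sub]
    rw [this]
    exact U.smul_mem _ hv

end Pool.Agent.R913.Tor
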