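import Pool.Agent.R913.Tor.Ext

/-!
# The transcendence degree and the space of the derivatives
-/

set_option autoImplicit false
set_option linter.unusedSectionVars false

namespace Pool.Agent.R913.Tor

open MvPolynomial Module

noncomputable section

variable {K L : Type} [Field K] [Field L] [CharZero K] [Algebra K L]

/-- the field of the constants of a derivation -/
def cst (D : Derivation K L L) : IntermediateField K L where
  carrier := {x | D x = 0}
  mul_mem' := by
    intro a b ha hb
    change D (a * b) = 0
    rw [D.leibniz, ha, hb, smul_zero, smul_zero, add_zero]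
  add_mem' := by
    intro a b ha hb
    change D (a + b) = 0
    rw [map_add, ha, hb, add_zero]
  algebraMap_mem' := fun a => D.map_algebraMap a
  inv_mem' := by
    intro a ha
    change D a⁻¹ = 0
    rw [D.leibniz_inv, ha, smul_zero]

theorem mem_cst {D : Derivation K L L} {x : L} : x ∈ cst D ↔ D x = 0 := Iff.rfl

/-- a derivation kills the elements which are algebraic over its constants -/
theorem der_alg (D : Derivation K L L) {x : L} (hx : IsAlgebraic (cst D) x) : D x = 0 := by
  let D' : Derivation (cst D) L L :=
    { toFun := D
      map_add' := map_add D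
      map_smul' := fun a y => by
        change D ((a : L) * y) = (a : L) * D y
        rw [D.leibniz, mem_cst.1 a.2, smul_zero, add_zero, smul_eq_mul]
      map_one_eq_zero' := D.map_one_eq_zero
      leibniz' := D.leibniz }
  have _ : CharZero (cst D) := charZero_of_injective_algebraMap (algebraMap K (cst D)).injective
  have h1 : (minpoly (cst D) x).Separable := (minpoly.irreducible hx.isIntegral).separable
  have h2 : Polynomial.aeval x (Polynomial.derivative (minpoly (cst D) x)) ≠ 0 :=
    h1.aeval_derivative_ne_zero (minpoly.aeval _ _)
  have h3 := D'.map_aeval (minpoly (cst D) x) x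
  rw [minpoly.aeval, map_zero, smul_eq_mul] at h3
  exact (mul_eq_zero.1 h3.symm).resolve_left h2

variable {B : Type} [Fintype B]

/-- the space of the values of the derivations -/
def vals (K : Type) [Field K] [Algebra K L] (c : B → L) : Submodule L (B → L) where
  carrier := {v | ∃ D : Derivation K L L, ∀ b, v b = D (c b)}
  zero_mem' := ⟨0, fun _ => rfl⟩
  add_mem' := by
    rintro v w ⟨D, hD⟩ ⟨D', hD'⟩
    exact ⟨D + D', fun b => by rw [Pi.add_apply, hD, hD']; rfl⟩
  smul_mem' := by
    rintro a v ⟨D, hD⟩
    exact ⟨a • D, fun b => by rw [Pi.smul_apply, hD]; rfl⟩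

theorem mem_vals {c v : B → L} : v ∈ vals K c ↔ ∃ D : Derivation K L L, ∀ b, v b = D (c b) := Iff.rfl

/-- **The transcendence degree of the algebra generated by finitely many elements is the dimension of the space of the
values of the derivations.** -/
theorem trdeg_eq (c : B → L) :
    Algebra.trdeg K (Algebra.adjoin K (Set.range c)) = (finrank L (vals K c) : Cardinal) := by
  classical
  let A := Algebra.adjoin K (Set.range c)
  let t : Set A := ((↑) : A → L) ⁻¹' (Set.range c)
  have htop : Algebra.adjoin K t = ⊤ := Algebra.adjoin_adjoin_coe_preimage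
  have _ : Algebra.IsAlgebraic (Algebra.adjoin K t) A := ⟨fun a => by
    have h1 : a ∈ Algebra.adjoin K t := by
      rw [htop]
      exact Algebra.mem_top
    exact isAlgebraic_algebraMap (⟨a, h1⟩ : Algebra.adjoin K t)⟩
  obtain ⟨u, hut, hu⟩ := exists_isTranscendenceBasis_subset (R := K) t
  have hufin : u.Finite := ((Set.finite_range c).preimage Subtype.val_injective.injOn).subset hut
  let _ : Fintype u := hufin.fintype
  have hb : ∀ x : u, ∃ b, c b = ((x : A) : L) := fun x => hut x.2
  choose β hβ using hb
  -- a derivation which kills the basis kills everything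
  have hkill : ∀ D : Derivation K L L, (∀ x : u, D ((x : A) : L) = 0) → ∀ b, D (c b) = 0 := by
    intro D hD b
    have hcA : c b ∈ A := Algebra.subset_adjoin ⟨b, rfl⟩
    have h1 := hu.isAlgebraic.isAlgebraic (⟨c b, hcA⟩ : A)
    have hmem : ∀ y : Algebra.adjoin K (Set.range ((↑) : u → A)), ((y : A) : L) ∈ cst D := by
      rintro ⟨y, hy⟩
      induction hy using Algebra.adjoin_induction with
      | mem y hy =>
        obtain ⟨x, rfl⟩ := hy
        exact hD x
      | algebraMap r => exact (cst D).algebraMap_mem r
      | add x y _ _ hx hy => exact (cst D).add_mem hx hy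
      | mul x y _ _ hx hy => exact (cst D).mul_mem hx hy
    obtain ⟨p, hp0, hp⟩ := h1
    let ψ : Algebra.adjoin K (Set.range ((↑) : u → A)) →+* cst D :=
      { toFun := fun y => ⟨((y : A) : L), hmem y⟩
        map_one' := rfl
        map_mul' := fun _ _ => rfl
        map_zero' := rfl
        map_add' := fun _ _ => rfl }
    have hψ : Function.Injective ψ := by
      intro y z hyz
      have := congrArg Subtype.val hyz
      exact Subtype.ext (Subtype.ext this)
    refine der_alg D ⟨p.map ψ, (Polynomial.map_ne_zero_iff hψ).2 hp0, ?_⟩
    have h2 := congrArg (fun a : A => (a : L)) hp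
    rw [Polynomial.aeval_def, Polynomial.eval₂_map]
    rw [Polynomial.aeval_def] at h2
    have h3 := Polynomial.hom_eval₂ p (algebraMap (Algebra.adjoin K (Set.range ((↑) : u → A))) A)
      (A.val : A →+* L) ⟨c b, hcA⟩
    exact h3.symm.trans h2
  let Φ : vals K c →ₗ[L] (u → L) :=
    { toFun := fun v x => (v : B → L) (β x)
      map_add' := fun _ _ => rfl
      map_smul' := fun _ _ => rfl }
  have hinj : Function.Injective Φ := by
    rw [injective_iff_map_eq_zero]
    rintro ⟨v, D, hD⟩ h
    apply Subtype.ext
    funext b
    change v b = 0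
    rw [hD]
    refine hkill D (fun x => ?_) b
    have h1 := congrFun h x
    change v (β x) = 0 at h1
    rw [hD, hβ] at h1
    exact h1
  have hsurj : Function.Surjective Φ := by
    intro v
    have hind : AlgebraicIndependent K (fun x : u => ((x : A) : L)) :=
      hu.1.map' (f := A.val) Subtype.val_injective
    obtain ⟨D, hD⟩ := exists_der (K := K) (fun x : u => ((x : A) : L)) v fun P hP => by
      have h1 : P = 0 := hind.eq_zero_of_aeval_eq_zero P hP
      rw [h1]
      simp
    refine ⟨⟨fun b => D (c b), D, fun b => rfl⟩, ?_⟩
    funext x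
    change D (c (β x)) = v x
    rw [hβ, hD]
  have h1 : finrank L (vals K c) = Fintype.card u := by
    rw [(LinearEquiv.ofBijective Φ ⟨hinj, hsurj⟩).finrank_eq, Module.finrank_pi]
  have _ : Nontrivial K := inferInstance
  have _ : NoZeroDivisors A := inferInstance
  rw [h1, ← hu.cardinalMk_eq_trdeg, Cardinal.mk_fintype]

end

end Pool.Agent.R913.Tor
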