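import Pool.Agent.R913.Tor.Tz
import Pool.Agent.R913.Tor.Trd

/-!
# The criterion for the transcendence degree
-/

set_option autoImplicit false
set_option linter.unusedSectionVars false

open Matrix MvPolynomial

namespace Pool.Agent.R913.Tor

open Pool.Agent.TH127.PT Pool.Agent.TH119.MX Pool.Agent.TH119.DR Pool.Agent.Y123.ST

variable {N : Type} [Fintype N] [DecidableEq N] {K : Subfield ℂ} {S : Set (Matrix N N ℂ)}

theorem finrank_logs {c : Matrix N N ℂ} (hc : IsUnit c) :
    Module.finrank ℂ (logs K c) = Module.finrank ℂ (vals K (fl c)) := by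
  have key : ∀ M : logs K c, fl ((M : Matrix N N ℂ) * c) ∈ vals K (fl c) := by
    rintro ⟨M, hM⟩
    obtain ⟨D, rfl⟩ := mem_logs.1 hM
    refine ⟨D, fun b => ?_⟩
    change fl (c.map D * c⁻¹ * c) b = D (fl c b)
    rw [Matrix.mul_assoc, unit_inv_mul hc, Matrix.mul_one]
    rfl
  let Φ : logs K c →ₗ[ℂ] vals K (fl c) :=
    { toFun := fun M => ⟨fl ((M : Matrix N N ℂ) * c), key M⟩
      map_add' := fun M M' => by
        apply Subtype.ext
        change fl (((M : Matrix N N ℂ) + (M' : Matrix N N ℂ)) * c) = fl ((M : Matrix N N ℂ) * c) + fl ((M' : Matrix N N ℂ) * c)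
        rw [Matrix.add_mul, fl_add]
      map_smul' := fun a M => by
        apply Subtype.ext
        change fl ((a • (M : Matrix N N ℂ)) * c) = a • fl ((M : Matrix N N ℂ) * c)
        rw [Matrix.smul_mul, fl_smul] }
  refine (LinearEquiv.ofBijective Φ ⟨?_, ?_⟩).finrank_eq
  · rw [injective_iff_map_eq_zero]
    rintro ⟨M, hM⟩ h
    apply Subtype.ext
    have h1 : fl (M * c) = 0 := congrArg Subtype.val h
    have h2 : M * c = 0 := by
      have := congrArg um h1
      rwa [um_fl] at this
    calc M = M * c * c⁻¹ := by rw [Matrix.mul_assoc, unit_mul_inv hc, Matrix.mul_one]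
      _ = 0 := by rw [h2, Matrix.zero_mul]
  · rintro ⟨v, D, hD⟩
    refine ⟨⟨c.map D * c⁻¹, mem_logs.2 ⟨D, rfl⟩⟩, ?_⟩
    apply Subtype.ext
    change fl (c.map D * c⁻¹ * c) = v
    rw [Matrix.mul_assoc, unit_inv_mul hc, Matrix.mul_one]
    funext b
    exact (hD b).symm

/-- **The transcendence degree is the dimension of the space of the logarithmic derivatives.** -/
theorem trdeg_logs {c : Matrix N N ℂ} (hc : IsUnit c) :
    Algebra.trdeg K (Algebra.adjoin K (Set.range (fl c))) = (Module.finrank ℂ (logs K c) : Cardinal) := by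
  rw [finrank_logs hc]
  exact trdeg_eq (fl c)

/-- Every subobject of the adjoint object is an ideal: every complex subspace `U` of `g` such that `U` and `c⁻¹ U c`
are spanned by matrices with entries in `K` is an ideal of `g`. -/
def SubIdeals (K : Subfield ℂ) (g : Submodule ℂ (Matrix N N ℂ)) (c : Matrix N N ℂ) : Prop :=
  ∀ U : Submodule ℂ (Matrix N N ℂ), U ≤ g → Rational K U → Rational K (conjBy c U) → IsIdeal g U

/-- Every Lie subalgebra of `g` which is spanned by matrices with entries in `K` and contains the logarithmic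
derivatives of `c` is an ideal of `g`. -/
def SubalgIdeals (K : Subfield ℂ) (g : Submodule ℂ (Matrix N N ℂ)) (c : Matrix N N ℂ) : Prop :=
  ∀ U : Submodule ℂ (Matrix N N ℂ), U ≤ g → Rational K U → (∀ x ∈ U, ∀ y ∈ U, x * y - y * x ∈ U) →
    logs K c ≤ U → IsIdeal g U

theorem SubIdeals.subalg [IsAlgClosed K] {g : Submodule ℂ (Matrix N N ℂ)} {c : Matrix N N ℂ} (hc : IsUnit c)
    (h : SubIdeals K g c) : SubalgIdeals K g c := fun U hU hUr hUl hL =>
  h U hU hUr ((sub_iff hc hUr).2 fun w hw A hA => hUl w (hL hw) A hA)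

/-- **The core argument without reductivity**: if the rational subalgebras are ideals, the smallest one contains the
derived algebra. -/
theorem der_le_of_sub {g : Submodule ℂ (Matrix N N ℂ)} (hg : Rational K g) {c : Matrix N N ℂ}
    (h : SubalgIdeals K g c) {t : Submodule ℂ (Matrix N N ℂ)} (ht : IsIdeal g t)
    (htr : Rational K t) (hlog : logs K c ≤ t) : der g ≤ t := by
  -- the lines modulo `t`
  have hline : ∀ x ∈ g, ∀ y ∈ g, (∀ i j, y i j ∈ K) → ∃ a : ℂ, x * y - y * x - a • y ∈ t := by
    intro x hx y hy hyK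
    have hU : Rational K (t ⊔ Submodule.span ℂ {y}) := by
      refine sup_le (htr.trans (Submodule.span_mono ?_)) ?_
      · rintro A ⟨hA, hA'⟩
        exact ⟨Submodule.mem_sup_left hA, hA'⟩
      · refine Submodule.span_le.2 ?_
        rintro A rfl
        exact Submodule.subset_span ⟨Submodule.mem_sup_right (Submodule.mem_span_singleton_self _), hyK⟩
    have hUg : t ⊔ Submodule.span ℂ {y} ≤ g :=
      sup_le ht.1 (Submodule.span_le.2 (by rintro A rfl; exact hy))
    have h1 : IsIdeal g (t ⊔ Submodule.span ℂ {y}) := by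
      refine h _ hUg hU ?_ (hlog.trans le_sup_left)
      intro v hv w hw
      obtain ⟨v1, hv1, v2, hv2, rfl⟩ := Submodule.mem_sup.1 hv
      obtain ⟨w1, hw1, w2, hw2, rfl⟩ := Submodule.mem_sup.1 hw
      obtain ⟨a, rfl⟩ := Submodule.mem_span_singleton.1 hv2
      obtain ⟨b, rfl⟩ := Submodule.mem_span_singleton.1 hw2
      have h2 : (v1 + a • y) * (w1 + b • y) - (w1 + b • y) * (v1 + a • y) =
          (v1 * w1 - w1 * v1) - b • (y * v1 - v1 * y) + a • (y * w1 - w1 * y) := by
        simp only [Matrix.add_mul, Matrix.mul_add, Matrix.smul_mul, Matrix.mul_smul, smul_add, smul_sub, smul_smul,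
          mul_comm b a]
        abel
      rw [h2]
      refine Submodule.mem_sup_left (t.add_mem (t.sub_mem ?_ (t.smul_mem _ ?_)) (t.smul_mem _ ?_))
      · exact ht.2 v1 (ht.1 hv1) w1 hw1
      · exact ht.2 y hy v1 hv1
      · exact ht.2 y hy w1 hw1
    have h2 := h1.2 x hx y (Submodule.mem_sup_right (Submodule.mem_span_singleton_self _))
    obtain ⟨z, hz, u, hu, huz⟩ := Submodule.mem_sup.1 h2
    obtain ⟨a, rfl⟩ := Submodule.mem_span_singleton.1 hu
    refine ⟨a, ?_⟩
    rw [← huz, add_sub_cancel_right]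
    exact hz
  have base : ∀ x ∈ g, ∀ y ∈ g, (∀ i j, x i j ∈ K) → (∀ i j, y i j ∈ K) → x * y - y * x ∈ t := by
    intro x hx y hy hxK hyK
    obtain ⟨a, ha⟩ := hline x hx y hy hyK
    obtain ⟨b, hb⟩ := hline y hy x hx hxK
    -- `[x, y]` is congruent to `a y` and to `- b x`
    have h1 : a • y + b • x ∈ t := by
      have h2 := t.add_mem ha hb
      have h3 : x * y - y * x - a • y + (y * x - x * y - b • x) = -(a • y + b • x) := by abel
      rw [h3] at h2
      have h4 := t.neg_mem h2
      rwa [neg_neg] at h4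
    by_cases ha0 : a = 0
    · rw [ha0, zero_smul, sub_zero] at ha
      exact ha
    · -- then `y` is congruent to a multiple of `x`
      have h2 : y + (a⁻¹ * b) • x ∈ t := by
        have h3 := t.smul_mem a⁻¹ h1
        rwa [smul_add, smul_smul, smul_smul, inv_mul_cancel₀ ha0, one_smul] at h3
      have h3 := ht.2 x hx _ h2
      rw [com_add, com_smul, sub_self, smul_zero, add_zero] at h3
      exact h3
  refine Submodule.span_le.2 ?_
  rintro z ⟨x, hx, y, hy, rfl⟩
  change x * y - y * x ∈ t
  have h1 := hg hx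
  clear hx
  induction h1 using Submodule.span_induction with
  | mem x hx =>
    have h2 := hg hy
    clear hy
    induction h2 using Submodule.span_induction with
    | mem y hy => exact base x hx.1 y hy.1 hx.2 hy.2
    | zero =>
      rw [Matrix.mul_zero, Matrix.zero_mul, sub_zero]
      exact t.zero_mem
    | add v w _ _ hv hw =>
      rw [com_add]
      exact t.add_mem hv hw
    | smul a v _ hv =>
      rw [com_smul]
      exact t.smul_mem _ hv
  | zero =>
    rw [Matrix.mul_zero, Matrix.zero_mul, sub_zero]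
    exact t.zero_mem
  | add v w _ _ hv hw =>
    rw [add_com]
    exact t.add_mem hv hw
  | smul a v _ hv =>
    rw [smul_com]
    exact t.smul_mem _ hv

/-- **The criterion for the equality of the transcendence degree and the dimension.** -/
theorem criterion [IsAlgClosed K] (hS : IsSubtorsor K S) {c : Matrix N N ℂ} (hc : c ∈ S) :
    List.TFAE [
      Algebra.trdeg K (Algebra.adjoin K (Set.range (fl c))) = (Module.finrank ℂ (LM S) : Cardinal),
      IsTorsor (Zar K c) ∧ SubIdeals K (LM S) c ∧ LM S ≤ der (LM S) ⊔ logs K c,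
      IsTorsor (Zar K c) ∧ SubalgIdeals K (LM S) c ∧ LM S ≤ der (LM S) ⊔ logs K c] := by
  have hcu := hS.isUnit c hc
  have hle := logs_le hS hc
  have h0 : Algebra.trdeg K (Algebra.adjoin K (Set.range (fl c))) = (Module.finrank ℂ (LM S) : Cardinal) ↔
      logs K c = LM S := by
    rw [trdeg_logs hcu, Nat.cast_inj]
    constructor
    · intro h
      exact Submodule.eq_of_le_of_finrank_eq hle h
    · intro h
      rw [h]
  rw [h0, torsor_iff hcu]
  tfae_have 1 → 2 := by
    intro h
    refine ⟨h ▸ LM_rational hS, fun U hU hUr hUc => ⟨hU, fun x hx y hy => ?_⟩, ?_⟩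
    · exact (sub_iff hcu hUr).1 hUc x (h ▸ hx) y hy
    · rw [h]
      exact le_sup_right
  tfae_have 2 → 3 := fun ⟨h1, h2, h3⟩ => ⟨h1, h2.subalg hcu, h3⟩
  tfae_have 3 → 1 := by
    rintro ⟨h1, h2, h3⟩
    have h4 : IsIdeal (LM S) (logs K c) := h2 _ hle h1 (fun x hx y hy => logs_lie hcu h1 hx hy) le_rfl
    have h5 : der (LM S) ≤ logs K c := der_le_of_sub (LM_rational hS) h2 h4 h1 le_rfl
    exact le_antisymm hle (h3.trans (sup_le h5 le_rfl))
  tfae_finish

end Pool.Agent.R913.Tor
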