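import Pool.Agent.R913.Tor.Br

/-!
# Directional derivatives through dual numbers
-/

set_option autoImplicit false
set_option linter.unusedSectionVars false

open Matrix MvPolynomial

namespace Pool.Agent.R913.Tor

open Pool.Agent.TH127.PT Pool.Agent.TH119.MX Pool.Agent.TH119.DR Pool.Agent.Y123.ST

open DualNumber

section

variable {B : Type*} [Fintype B]

theorem aeval_dual (P : MvPolynomial B ℂ) (x v : B → ℂ) :
    aeval (fun b => algebraMap ℂ ℂ[ε] (x b) + v b • (ε : ℂ[ε])) P =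
      algebraMap ℂ ℂ[ε] (eval x P) + dd P x v • (ε : ℂ[ε]) := by
  induction P using MvPolynomial.induction_on with
  | C a => rw [aeval_C, eval_C, dd_C, zero_smul, add_zero]
  | add p q hp hq => rw [map_add, hp, hq, map_add, dd_add, map_add, add_smul]; ring
  | mul_X p b hp =>
    rw [map_mul, hp, aeval_X, map_mul, eval_X, dd_mul, dd_X, eval_X]
    apply TrivSqZeroExt.ext
    · simp [TrivSqZeroExt.algebraMap_eq_inl]
    · simp [TrivSqZeroExt.algebraMap_eq_inl]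
      ring

end

variable {N : Type} [Fintype N] [DecidableEq N]

/-- the generic matrix -/
noncomputable def gX (N : Type) : Matrix N N (MvPolynomial (N × N) ℂ) := Matrix.of fun i j => X (i, j)

/-- the polynomial `∑ u_b (adj X * A * X)_b` -/
noncomputable def PG (A : Matrix N N ℂ) (u : N × N → ℂ) : MvPolynomial (N × N) ℂ :=
  ∑ b, C (u b) * (adjugate (gX N) * A.map (C : ℂ →+* MvPolynomial (N × N) ℂ) * gX N) b.1 b.2

theorem eval_gX (x : Matrix N N ℂ) : (eval (fl x)).mapMatrix (gX N) = x := by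
  ext i j
  simp [gX, fl]

theorem eval_PG (A : Matrix N N ℂ) (u : N × N → ℂ) (x : Matrix N N ℂ) :
    eval (fl x) (PG A u) = ∑ b, u b * (adjugate x * A * x) b.1 b.2 := by
  unfold PG
  rw [map_sum]
  refine Finset.sum_congr rfl fun b _ => ?_
  rw [map_mul, eval_C]
  congr 1
  have h1 : (eval (fl x)).mapMatrix (adjugate (gX N) * A.map (C : ℂ →+* MvPolynomial (N × N) ℂ) * gX N) =
      adjugate x * A * x := by
    rw [map_mul, map_mul, RingHom.map_adjugate, eval_gX]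
    congr 2
    ext i j
    simp
  rw [← h1]
  rfl

/-- the dual point -/
theorem dual_gX (c w : Matrix N N ℂ) :
    (aeval (fun b => algebraMap ℂ ℂ[ε] (fl c b) + fl (w * c) b • (ε : ℂ[ε])) :
      MvPolynomial (N × N) ℂ →ₐ[ℂ] ℂ[ε]).mapMatrix (gX N) =
    (1 + (ε : ℂ[ε]) • w.map (algebraMap ℂ ℂ[ε])) * c.map (algebraMap ℂ ℂ[ε]) := by
  have h1 : (ε : ℂ[ε]) • w.map (algebraMap ℂ ℂ[ε]) * c.map (algebraMap ℂ ℂ[ε]) =
      (ε : ℂ[ε]) • (w * c).map (algebraMap ℂ ℂ[ε]) := by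
    rw [Matrix.smul_mul, Matrix.map_mul]
  rw [Matrix.add_mul, Matrix.one_mul, h1]
  ext1 i j
  simp only [gX, AlgHom.mapMatrix_apply, Matrix.map_apply, Matrix.of_apply, aeval_X, Matrix.add_apply,
    Matrix.smul_apply, smul_eq_mul]
  rw [Algebra.smul_def, mul_comm]
  rfl

theorem det_dual (w : Matrix N N ℂ) :
    det (1 + (ε : ℂ[ε]) • w.map (algebraMap ℂ ℂ[ε])) =
      algebraMap ℂ ℂ[ε] 1 + (trace w) • (ε : ℂ[ε]) := by
  rw [Matrix.det_one_add_smul, pow_two, eps_mul_eps, mul_zero, add_zero, map_one]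
  congr 1
  rw [Algebra.smul_def]
  congr 1
  exact (AddMonoidHom.map_trace (algebraMap ℂ ℂ[ε]).toAddMonoidHom w).symm

theorem adj_dual (w : Matrix N N ℂ) :
    adjugate (1 + (ε : ℂ[ε]) • w.map (algebraMap ℂ ℂ[ε])) =
      det (1 + (ε : ℂ[ε]) • w.map (algebraMap ℂ ℂ[ε])) • (1 - (ε : ℂ[ε]) • w.map (algebraMap ℂ ℂ[ε])) := by
  set M := 1 + (ε : ℂ[ε]) • w.map (algebraMap ℂ ℂ[ε]) with hM
  have h1 : M * (1 - (ε : ℂ[ε]) • w.map (algebraMap ℂ ℂ[ε])) = 1 := by
    rw [hM, Matrix.add_mul, Matrix.one_mul, Matrix.mul_sub, Matrix.mul_one, Matrix.smul_mul, Matrix.mul_smul,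
      smul_smul, eps_mul_eps, zero_smul]
    abel
  calc adjugate M = adjugate M * (M * (1 - (ε : ℂ[ε]) • w.map (algebraMap ℂ ℂ[ε]))) := by
        rw [h1, Matrix.mul_one]
    _ = _ := by
        rw [← Matrix.mul_assoc, Matrix.adjugate_mul, Matrix.smul_mul, Matrix.one_mul]

theorem dual_entry (c w A : Matrix N N ℂ) :
    (aeval (fun b => algebraMap ℂ ℂ[ε] (fl c b) + fl (w * c) b • (ε : ℂ[ε])) :
      MvPolynomial (N × N) ℂ →ₐ[ℂ] ℂ[ε]).mapMatrix
      (adjugate (gX N) * A.map (C : ℂ →+* MvPolynomial (N × N) ℂ) * gX N) =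
    det (1 + (ε : ℂ[ε]) • w.map (algebraMap ℂ ℂ[ε])) •
      ((adjugate c * A * c).map (algebraMap ℂ ℂ[ε]) +
        (ε : ℂ[ε]) • (adjugate c * (A * w - w * A) * c).map (algebraMap ℂ ℂ[ε])) := by
  rw [map_mul, map_mul, AlgHom.map_adjugate, dual_gX, Matrix.adjugate_mul_distrib, adj_dual]
  have hA : (aeval (fun b => algebraMap ℂ ℂ[ε] (fl c b) + fl (w * c) b • (ε : ℂ[ε])) :
      MvPolynomial (N × N) ℂ →ₐ[ℂ] ℂ[ε]).mapMatrix (A.map (C : ℂ →+* MvPolynomial (N × N) ℂ)) =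
      A.map (algebraMap ℂ ℂ[ε]) := by
    ext1 i j
    simp only [AlgHom.mapMatrix_apply, Matrix.map_apply, aeval_C]
  rw [hA, Matrix.map_mul, Matrix.map_mul, Matrix.map_mul, Matrix.map_mul,
    Matrix.map_sub _ (by intro a b; exact map_sub _ a b), Matrix.map_mul, Matrix.map_mul]
  have hadj : (adjugate c).map (algebraMap ℂ ℂ[ε]) = adjugate (c.map (algebraMap ℂ ℂ[ε])) :=
    RingHom.map_adjugate (algebraMap ℂ ℂ[ε]) c
  rw [hadj]
  set c' := c.map (algebraMap ℂ ℂ[ε])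
  set w' := w.map (algebraMap ℂ ℂ[ε])
  set A' := A.map (algebraMap ℂ ℂ[ε])
  set d := det (1 + (ε : ℂ[ε]) • w')
  have he : (ε : ℂ[ε]) * ε = 0 := eps_mul_eps
  simp only [Matrix.mul_smul, Matrix.smul_mul, Matrix.mul_sub, Matrix.sub_mul, Matrix.mul_add, Matrix.add_mul,
    Matrix.mul_one, Matrix.one_mul, smul_add, smul_sub, smul_smul, Matrix.mul_assoc]
  have he2 : (ε : ℂ[ε]) * (d * ε) = 0 := by rw [mul_left_comm, he, mul_zero]
  rw [he2, zero_smul, sub_zero, mul_comm (ε : ℂ[ε]) d]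
  abel

theorem dd_PG (c w A : Matrix N N ℂ) (u : N × N → ℂ) :
    dd (PG A u) (fl c) (fl (w * c)) =
      trace w * (∑ b, u b * (adjugate c * A * c) b.1 b.2) +
        ∑ b, u b * (adjugate c * (A * w - w * A) * c) b.1 b.2 := by
  have h1 := aeval_dual (PG A u) (fl c) (fl (w * c))
  have h2 : (aeval (fun b => algebraMap ℂ ℂ[ε] (fl c b) + fl (w * c) b • (ε : ℂ[ε])) :
      MvPolynomial (N × N) ℂ →ₐ[ℂ] ℂ[ε]) (PG A u) =
      ∑ b, algebraMap ℂ ℂ[ε] (u b) * (det (1 + (ε : ℂ[ε]) • w.map (algebraMap ℂ ℂ[ε])) *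
        (algebraMap ℂ ℂ[ε] ((adjugate c * A * c) b.1 b.2) +
          (ε : ℂ[ε]) * algebraMap ℂ ℂ[ε] ((adjugate c * (A * w - w * A) * c) b.1 b.2))) := by
    unfold PG
    rw [map_sum]
    refine Finset.sum_congr rfl fun b _ => ?_
    rw [map_mul, aeval_C]
    congr 1
    have h3 := congrFun (congrFun (dual_entry c w A) b.1) b.2
    rw [AlgHom.mapMatrix_apply, Matrix.map_apply] at h3
    rw [h3]
    simp only [Matrix.smul_apply, Matrix.add_apply, Matrix.map_apply, smul_eq_mul]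
  rw [h2, det_dual] at h1
  have h4 := congrArg TrivSqZeroExt.snd h1
  have h5 : ∀ s : Finset (N × N), ∀ f : N × N → ℂ[ε], TrivSqZeroExt.snd (∑ b ∈ s, f b) =
      ∑ b ∈ s, TrivSqZeroExt.snd (f b) := fun s f => TrivSqZeroExt.snd_sum s f
  rw [h5] at h4
  simp only [TrivSqZeroExt.algebraMap_eq_inl, TrivSqZeroExt.snd_add, TrivSqZeroExt.snd_inl, TrivSqZeroExt.snd_smul,
    snd_eps, smul_eq_mul, mul_one, zero_add] at h4
  rw [← h4, Finset.mul_sum, ← Finset.sum_add_distrib]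
  refine Finset.sum_congr rfl fun b _ => ?_
  simp
  ring

end Pool.Agent.R913.Tor
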