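import Mathlib

/-!
# Derivations with prescribed values at finitely many elements
-/

set_option autoImplicit false
set_option linter.unusedSectionVars false

namespace Pool.Agent.R913.Tor

open TensorProduct MvPolynomial

noncomputable section

variable {K L : Type*} [Field K] [Field L] [CharZero K] [Algebra K L] {B : Type} [Fintype B]

/-- the value of the derivative -/
def psi (c v : B → L) : MvPolynomial B K →ₗ[K] L where
  toFun P := ∑ b, aeval c (pderiv b P) * v b
  map_add' P Q := by
    rw [← Finset.sum_add_distrib]
    refine Finset.sum_congr rfl fun b _ => ?_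
    rw [map_add, map_add, add_mul]
  map_smul' a P := by
    rw [RingHom.id_apply, Finset.smul_sum]
    refine Finset.sum_congr rfl fun b _ => ?_
    rw [Derivation.map_smul, map_smul, smul_mul_assoc]

theorem psi_mul (c v : B → L) (P Q : MvPolynomial B K) :
    psi c v (P * Q) = aeval c P * psi c v Q + aeval c Q * psi c v P := by
  change ∑ b, aeval c (pderiv b (P * Q)) * v b = aeval c P * (∑ b, aeval c (pderiv b Q) * v b) +
    aeval c Q * (∑ b, aeval c (pderiv b P) * v b)
  rw [Finset.mul_sum, Finset.mul_sum, ← Finset.sum_add_distrib]
  refine Finset.sum_congr rfl fun b _ => ?_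
  rw [pderiv_mul, map_add, map_mul, map_mul]
  ring

theorem psi_X [DecidableEq B] (c v : B → L) (b : B) : psi (K := K) c v (X b) = v b := by
  change ∑ k, aeval c (pderiv k (X b : MvPolynomial B K)) * v k = v b
  rw [Finset.sum_eq_single b]
  · rw [pderiv_X_self, map_one, one_mul]
  · intro k _ hk
    rw [pderiv_X_of_ne hk.symm, map_zero, zero_mul]
  · intro h
    exact absurd (Finset.mem_univ _) h

open scoped IntermediateField.algebraAdjoinAdjoin in
/-- **A vector annihilated by the differentials of all relations over `K` is the vector of the values of a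
derivation over `K`.** -/
theorem exists_der (c v : B → L)
    (h : ∀ P : MvPolynomial B K, aeval c P = 0 → ∑ b, aeval c (pderiv b P) * v b = 0) :
    ∃ D : Derivation K L L, ∀ b, D (c b) = v b := by
  classical
  let A := Algebra.adjoin K (Set.range c)
  let F := IntermediateField.adjoin K (Set.range c)
  have hAF : Algebra.FormallySmooth A F := .of_isLocalization (nonZeroDivisors _)
  have hFL : Algebra.FormallySmooth F L := by
    obtain ⟨s, hs⟩ := exists_isTranscendenceBasis F L
    have halg := hs.isAlgebraic_field
    have hsep : Algebra.IsSeparable (IntermediateField.adjoin F (Set.range ((↑) : s → L))) L := inferInstance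
    exact .of_algebraicIndependent_of_isSeparable hs.1
  have hAL : Algebra.FormallySmooth A L := .comp A F L
  -- the derivation of the algebra generated by the elements
  have hA : ∀ a : A, ∃ P : MvPolynomial B K, aeval c P = (a : L) := by
    intro a
    have h1 : (a : L) ∈ Algebra.adjoin K (Set.range c) := a.2
    rw [Algebra.adjoin_range_eq_range_aeval] at h1
    exact h1
  choose g hg using hA
  have hpsi : ∀ P Q : MvPolynomial B K, aeval c P = aeval c Q → psi c v P = psi c v Q := by
    intro P Q hPQ
    rw [← sub_eq_zero, ← map_sub]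
    exact h _ (by rw [map_sub, hPQ, sub_self])
  let D₀ : Derivation K A L :=
    { toFun := fun a => psi c v (g a)
      map_add' := fun a b => by
        rw [← map_add]
        exact hpsi _ _ (by rw [hg, map_add, hg, hg]; rfl)
      map_smul' := fun a b => by
        rw [RingHom.id_apply, ← map_smul]
        exact hpsi _ _ (by rw [hg, map_smul, hg]; rfl)
      map_one_eq_zero' := by
        have h1 : psi c v (g 1) = psi c v 1 := hpsi _ _ (by rw [hg, map_one]; rfl)
        change psi c v (g 1) = 0
        rw [h1]
        change ∑ b, aeval c (pderiv b (1 : MvPolynomial B K)) * v b = 0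
        simp
      leibniz' := fun a b => by
        have h1 : psi c v (g (a * b)) = psi c v (g a * g b) := hpsi _ _ (by rw [hg, map_mul, hg, hg]; rfl)
        change psi c v (g (a * b)) = a • psi c v (g b) + b • psi c v (g a)
        rw [h1, psi_mul, hg, hg]
        rfl }
  have hinj : Function.Injective (KaehlerDifferential.mapBaseChange K A L) := by
    rw [injective_iff_map_eq_zero]
    intro x hx
    obtain ⟨y, hy⟩ := (Algebra.H1Cotangent.exact_δ_mapBaseChange K A L x).1 hx
    have hsub : Subsingleton (Algebra.H1Cotangent A L) := Algebra.FormallySmooth.subsingleton_h1Cotangent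
    rw [← hy, Subsingleton.elim y 0, map_zero]
  obtain ⟨r, hr⟩ := LinearMap.exists_leftInverse_of_injective (KaehlerDifferential.mapBaseChange K A L)
    (LinearMap.ker_eq_bot.2 hinj)
  let lin : Ω[L⁄K] →ₗ[L] L := (LinearMap.liftBaseChange L D₀.liftKaehlerDifferential) ∘ₗ r
  refine ⟨lin.compDer (KaehlerDifferential.D K L), fun b => ?_⟩
  have hcA : c b ∈ A := Algebra.subset_adjoin ⟨b, rfl⟩
  have h2 : KaehlerDifferential.D K L (c b) =
      KaehlerDifferential.mapBaseChange K A L (1 ⊗ₜ KaehlerDifferential.D K A ⟨c b, hcA⟩) := by
    rw [KaehlerDifferential.mapBaseChange_tmul, one_smul, KaehlerDifferential.map_D]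
    rfl
  change lin (KaehlerDifferential.D K L (c b)) = v b
  rw [h2]
  change (LinearMap.liftBaseChange L D₀.liftKaehlerDifferential) (r (KaehlerDifferential.mapBaseChange K A L _)) = _
  have h3 := LinearMap.congr_fun hr (1 ⊗ₜ KaehlerDifferential.D K A ⟨c b, hcA⟩)
  rw [LinearMap.comp_apply, LinearMap.id_apply] at h3
  rw [h3, LinearMap.liftBaseChange_tmul, one_smul, Derivation.liftKaehlerDifferential_comp_D]
  change psi c v (g ⟨c b, hcA⟩) = v b
  rw [hpsi (g ⟨c b, hcA⟩) (X b) (by rw [hg, aeval_X]), psi_X]

end

end Pool.Agent.R913.Tor
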