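import Pool.Agent.R913.Tor.Crit

/-!
# The matrix of one-forms of a point and the torsor property of its Zariski closure
-/

set_option autoImplicit false
set_option linter.unusedSectionVars false

open Matrix MvPolynomial

namespace Pool.Agent.R913.Tor

open Pool.Agent.TH127.PT Pool.Agent.TH119.MX Pool.Agent.TH119.DR Pool.Agent.Y123.ST KaehlerDifferential

variable {N : Type} [Fintype N] [DecidableEq N] {K : Subfield ℂ}

/-- The entries of the matrix `dc c⁻¹` of Kähler differentials of `ℂ` over `K`. -/
noncomputable def frm (K : Subfield ℂ) (c : Matrix N N ℂ) (b : N × N) : Ω[ℂ⁄K] :=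
  ∑ k, c⁻¹ k b.2 • KaehlerDifferential.D K ℂ (c b.1 k)

theorem lift_frm (D : Derivation K ℂ ℂ) (c : Matrix N N ℂ) (b : N × N) :
    D.liftKaehlerDifferential (frm K c b) = (c.map D * c⁻¹) b.1 b.2 := by
  unfold frm
  rw [map_sum, Matrix.mul_apply]
  refine Finset.sum_congr rfl fun k _ => ?_
  rw [map_smul, Derivation.liftKaehlerDifferential_comp_D, smul_eq_mul, mul_comm]
  rfl

/-- derivations separate the differentials -/
theorem sep {x : Ω[ℂ⁄K]} (h : ∀ D : Derivation K ℂ ℂ, D.liftKaehlerDifferential x = 0) : x = 0 := by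
  refine (Module.forall_dual_apply_eq_zero_iff ℂ x).1 fun f => ?_
  have h1 := h (f.compDer (KaehlerDifferential.D K ℂ))
  have h2 : (f.compDer (KaehlerDifferential.D K ℂ)).liftKaehlerDifferential = f :=
    (KaehlerDifferential.linearMapEquivDerivation K ℂ).left_inv f
  rwa [h2] at h1

/-- The number of the entries of `dc c⁻¹` which are linearly independent over `K`. -/
noncomputable def numForms (K : Subfield ℂ) (c : Matrix N N ℂ) : ℕ :=
  Module.finrank K (Submodule.span K (Set.range (frm K c)))

section hull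

variable (K) (c : Matrix N N ℂ)

/-- the rational hull of the space of the logarithmic derivatives -/
theorem exists_hull : ∃ H : Submodule ℂ (Matrix N N ℂ), Rational K H ∧ logs K c ≤ H ∧
    Module.finrank ℂ H = numForms K c ∧
    ∀ u : N × N → ℂ, (∀ b, u b ∈ K) → (∀ A ∈ logs K c, ∑ b, u b * A b.1 b.2 = 0) →
      ∀ A ∈ H, ∑ b, u b * A b.1 b.2 = 0 := by
  classical
  let V := Submodule.span K (Set.range (frm K c))
  have hfin : Module.Finite K V := Module.Finite.span_of_finite K (Set.finite_range _)
  let η := Module.finBasis K V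
  let a : N × N → Fin (Module.finrank K V) → K := fun b j =>
    η.repr ⟨frm K c b, Submodule.subset_span ⟨b, rfl⟩⟩ j
  have ha : ∀ b, frm K c b = ∑ j, a b j • ((η j : V) : Ω[ℂ⁄K]) := by
    intro b
    have h1 := η.sum_repr ⟨frm K c b, Submodule.subset_span ⟨b, rfl⟩⟩
    have h2 : ((∑ j, η.repr ⟨frm K c b, Submodule.subset_span ⟨b, rfl⟩⟩ j • η j : V) : Ω[ℂ⁄K]) = frm K c b :=
      congrArg Subtype.val h1
    rw [← h2, Submodule.coe_sum]
    rfl
  have he : ∀ j, ∃ e : N × N → K, ∑ b, e b • frm K c b = ((η j : V) : Ω[ℂ⁄K]) := fun j =>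
    (Submodule.mem_span_range_iff_exists_fun K).1 (η j).2
  choose e he using he
  have hea : ∀ j k, ∑ b, e j b * a b k = if j = k then 1 else 0 := by
    intro j k
    have h1 : (∑ b, e j b • (⟨frm K c b, Submodule.subset_span ⟨b, rfl⟩⟩ : V)) = η j := by
      apply Subtype.ext
      rw [← he j]
      simp only [Submodule.coe_sum, Submodule.coe_smul]
    have h2 := congrArg (fun x => η.repr x k) h1
    simp only [map_sum, map_smul, Finsupp.coe_finsetSum, Finset.sum_apply, Finsupp.smul_apply, smul_eq_mul,
      Module.Basis.repr_self] at h2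
    rw [← Finsupp.single_apply]
    exact h2
  let Φ : (Fin (Module.finrank K V) → ℂ) →ₗ[ℂ] Matrix N N ℂ :=
    { toFun := fun x => Matrix.of fun i j => ∑ k, x k * (a (i, j) k : ℂ)
      map_add' := fun x y => by
        ext i j
        simp only [Matrix.of_apply, Matrix.add_apply, Pi.add_apply, add_mul, Finset.sum_add_distrib]
      map_smul' := fun r x => by
        ext i j
        simp only [Matrix.of_apply, Matrix.smul_apply, Pi.smul_apply, smul_eq_mul, RingHom.id_apply,
          Finset.mul_sum, mul_assoc] }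
  have hΦ : ∀ x (b : N × N), Φ x b.1 b.2 = ∑ k, x k * (a b k : ℂ) := fun x b => rfl
  have hinj : Function.Injective Φ := by
    rw [injective_iff_map_eq_zero]
    intro x hx
    funext j
    have h1 : ∑ b : N × N, (e j b : ℂ) * Φ x b.1 b.2 = x j := by
      have h2 : ∀ b : N × N, (e j b : ℂ) * Φ x b.1 b.2 = ∑ k, x k * ((e j b : ℂ) * (a b k : ℂ)) := by
        intro b
        rw [hΦ, Finset.mul_sum]
        refine Finset.sum_congr rfl fun k _ => ?_
        ring
      rw [Finset.sum_congr rfl fun b _ => h2 b, Finset.sum_comm]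
      have h3 : ∀ k, ∑ b, x k * ((e j b : ℂ) * (a b k : ℂ)) = if j = k then x k else 0 := by
        intro k
        rw [← Finset.mul_sum]
        have h4 : ((∑ b, e j b * a b k : K) : ℂ) = ((if j = k then 1 else 0 : K) : ℂ) := by rw [hea]
        have h5 : ((∑ b, e j b * a b k : K) : ℂ) = ∑ b, (e j b : ℂ) * (a b k : ℂ) := by
          push_cast
          rfl
        rw [h5] at h4
        rw [h4]
        split_ifs
        · simp
        · simp
      rw [Finset.sum_congr rfl fun k _ => h3 k, Finset.sum_ite_eq, if_pos (Finset.mem_univ j)]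
    rw [← h1, hx]
    simp
  refine ⟨LinearMap.range Φ, ?_, ?_, ?_, ?_⟩
  · rintro A ⟨x, rfl⟩
    have h1 : Φ x = ∑ k, x k • Φ (Pi.single k 1) := by
      conv_lhs => rw [LinearMap.pi_apply_eq_sum_univ Φ x]
      refine Finset.sum_congr rfl fun k _ => ?_
      congr 2
      funext j
      simp [Pi.single_apply, eq_comm]
    rw [h1]
    refine Submodule.sum_mem _ fun k _ => Submodule.smul_mem _ _ (Submodule.subset_span ⟨⟨_, rfl⟩, fun i j => ?_⟩)
    have h2 := hΦ (Pi.single k 1) (i, j)
    simp only at h2
    rw [h2]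
    refine sum_mem fun l _ => mul_mem ?_ (a (i, j) l).2
    rw [Pi.single_apply]
    split_ifs
    · exact K.one_mem
    · exact K.zero_mem
  · intro M hM
    obtain ⟨D, rfl⟩ := mem_logs.1 hM
    refine ⟨fun k => D.liftKaehlerDifferential ((η k : V) : Ω[ℂ⁄K]), ?_⟩
    ext i j
    have h1 := hΦ (fun k => D.liftKaehlerDifferential ((η k : V) : Ω[ℂ⁄K])) (i, j)
    simp only at h1
    rw [h1, ← lift_frm D c (i, j), ha (i, j), map_sum]
    refine Finset.sum_congr rfl fun k _ => ?_
    rw [mul_comm]
    exact (map_smul ((D.liftKaehlerDifferential).restrictScalars K) (a (i, j) k) _).symm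
  · rw [LinearMap.finrank_range_of_inj hinj, Module.finrank_fin_fun]
    rfl
  · rintro u huK hu A ⟨x, rfl⟩
    -- the relation over `K` between the forms
    have h1 : ∑ b, (⟨u b, huK b⟩ : K) • frm K c b = 0 := by
      refine sep fun D => ?_
      rw [map_sum]
      have h2 := hu _ (mem_logs.2 ⟨D, rfl⟩)
      rw [← h2]
      refine Finset.sum_congr rfl fun b _ => ?_
      rw [← lift_frm]
      exact map_smul ((D.liftKaehlerDifferential).restrictScalars K) (⟨u b, huK b⟩ : K) _
    have h2 : ∀ k, ∑ b, (⟨u b, huK b⟩ : K) * a b k = 0 := by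
      intro k
      have h3 : (∑ b, (⟨u b, huK b⟩ : K) • (⟨frm K c b, Submodule.subset_span ⟨b, rfl⟩⟩ : V)) = 0 := by
        apply Subtype.ext
        rw [Submodule.coe_zero, ← h1]
        simp only [Submodule.coe_sum, Submodule.coe_smul]
      have h4 := congrArg (fun x => η.repr x k) h3
      simp only [map_sum, map_smul, Finsupp.coe_finsetSum, Finset.sum_apply, Finsupp.smul_apply, smul_eq_mul,
        map_zero, Finsupp.coe_zero, Pi.zero_apply] at h4
      exact h4
    have h3 : ∀ b : N × N, u b * Φ x b.1 b.2 = ∑ k, x k * (u b * (a b k : ℂ)) := by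
      intro b
      rw [hΦ, Finset.mul_sum]
      refine Finset.sum_congr rfl fun k _ => ?_
      ring
    rw [Finset.sum_congr rfl fun b _ => h3 b, Finset.sum_comm]
    refine Finset.sum_eq_zero fun k _ => ?_
    rw [← Finset.mul_sum]
    have h4 : ((∑ b, (⟨u b, huK b⟩ : K) * a b k : K) : ℂ) = ((0 : K) : ℂ) := by rw [h2]
    have h5 : ((∑ b, (⟨u b, huK b⟩ : K) * a b k : K) : ℂ) = ∑ b, u b * (a b k : ℂ) := by
      push_cast
      rfl
    rw [h5] at h4
    rw [h4]
    simp

end hull

/-- **The transcendence degree is at most the number of the forms which are linearly independent over `K`, with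
equality if and only if the Zariski closure is a torsor.** -/
theorem forms_criterion [IsAlgClosed K] {c : Matrix N N ℂ} (hc : IsUnit c) :
    Algebra.trdeg K (Algebra.adjoin K (Set.range (fl c))) ≤ (numForms K c : Cardinal) ∧
      (Algebra.trdeg K (Algebra.adjoin K (Set.range (fl c))) = (numForms K c : Cardinal) ↔
        IsTorsor (Zar K c)) ∧
      ∀ S : Set (Matrix N N ℂ), IsSubtorsor K S → c ∈ S → numForms K c ≤ Module.finrank ℂ (LM S) := by
  obtain ⟨H, h1, h2, h3, h4⟩ := exists_hull K c
  rw [trdeg_logs hc, torsor_iff hc, Nat.cast_le, Nat.cast_inj, ← h3]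
  refine ⟨Submodule.finrank_mono h2, ?_, fun S hS hcS => ?_⟩
  · constructor
    · intro h
      rw [Submodule.eq_of_le_of_finrank_eq h2 h]
      exact h1
    · intro h
      have h5 : H ≤ logs K c := by
        intro A hA
        refine mem_of_ann_rational h fun u hu huK => ?_
        exact h4 u huK hu A hA
      rw [le_antisymm h2 h5]
  · refine Submodule.finrank_mono ?_
    intro A hA
    refine mem_of_ann_rational (LM_rational hS) fun u hu huK => ?_
    exact h4 u huK (fun A hA => hu A (logs_le hS hcS hA)) A hA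

end Pool.Agent.R913.Tor
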