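import Pool.Agent.R913.Tor.Kr
import Pool.Agent.R913.Tor.Bwd
import Pool.Agent.R913.Tor.Alg

/-!
# A subtorsor with the full Lie algebra contains an irreducible torsor
-/

set_option autoImplicit false
set_option linter.unusedSectionVars false

open Matrix MvPolynomial

namespace Pool.Agent.R913.Tor

open Pool.Agent.TH127.PT Pool.Agent.TH119.MX Pool.Agent.TH119.DR Pool.Agent.Y123.ST

variable {N : Type} [Fintype N] [DecidableEq N]

/-- A set of matrices is irreducible if a product of two polynomials vanishes on it only if one of the factors does. -/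
def Irred (S : Set (Matrix N N ℂ)) : Prop :=
  ∀ P Q : MvPolynomial (N × N) ℂ, Van S (P * Q) → Van S P ∨ Van S Q

/-- the ideal of a set of matrices -/
noncomputable def vid (S : Set (Matrix N N ℂ)) : Ideal (MvPolynomial (N × N) ℂ) where
  carrier := {P | Van S P}
  zero_mem' := fun x _ => map_zero _
  add_mem' := by
    intro P Q hP hQ x hx
    rw [map_add, hP x hx, hQ x hx, add_zero]
  smul_mem' := by
    intro P Q hQ x hx
    rw [smul_eq_mul, map_mul, hQ x hx, mul_zero]

theorem mem_vid {S : Set (Matrix N N ℂ)} {P : MvPolynomial (N × N) ℂ} : P ∈ vid S ↔ Van S P := Iff.rfl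

variable {K : Subfield ℂ} {S T : Set (Matrix N N ℂ)}

theorem vf_van {w : Matrix N N ℂ} (hw : w ∈ LM T) {P : MvPolynomial (N × N) ℂ} (hP : P ∈ vid T) :
    vf w P ∈ vid T := by
  rw [vf_eq]
  exact van_DL hw hP

/-- one step of the approximation -/
theorem step {c : Matrix N N ℂ} (hcu : IsUnit c) (I : Ideal (MvPolynomial (N × N) ℂ)) (hI : I ≤ mx (fl c))
    (H : Set (Matrix N N ℂ)) (hH : ∀ w, (∀ P ∈ I, dd P (fl c) (fl (w * c)) = 0) → w ∈ H) (k : ℕ)
    {P : MvPolynomial (N × N) ℂ} (hP : P ∈ mx (fl c) ^ (k + 1))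
    (h : ∀ w ∈ H, vf w P ∈ mx (fl c) ^ (k + 1) ⊔ I) : P ∈ mx (fl c) ^ (k + 2) ⊔ I := by
  obtain ⟨v, hv1, hv2⟩ := exists_tangent I (fl c) hI
  -- the tangent vectors come from the Lie algebra
  let w : N × N → Matrix N N ℂ := fun b => um (v b) * c⁻¹
  have hwc : ∀ b, w b * c = um (v b) := by
    intro b
    change um (v b) * c⁻¹ * c = _
    rw [Matrix.mul_assoc, unit_inv_mul hcu, Matrix.mul_one]
  have hw : ∀ b, w b ∈ H := fun b => hH _ fun Q hQ => by
    rw [hwc, fl_um]
    exact hv1 b Q hQ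
  have h1 := euler (fl c) (k + 1) hP
  -- the vector fields of the tangent vectors
  have h2 : ∀ b, (∑ j, pderiv j P * C (v b j)) - vf (w b) P ∈ mx (fl c) ^ (k + 1) := by
    intro b
    rw [vf, mkDer_eq, ← Finset.sum_sub_distrib]
    refine sum_mem fun j _ => ?_
    rw [← mul_sub]
    have h3 : C (v b j) - sb (ml (w b)) j ∈ mx (fl c) := by
      rw [mem_mx, map_sub, eval_C, eval_sb, ml_fl, hwc, fl_um, sub_self]
    rw [pow_succ]
    exact Ideal.mul_mem_mul (der_pow (fl c) (pderiv j) k hP) h3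
  have h4 : eu (fl c) P - ∑ b, yy (fl c) b * vf (w b) P ∈ mx (fl c) ^ (k + 2) ⊔ I := by
    have h5 : eu (fl c) P - ∑ b, yy (fl c) b * vf (w b) P =
        ∑ j, pderiv j P * (yy (fl c) j - ∑ b, C (v b j) * yy (fl c) b) +
          ∑ b, yy (fl c) b * ((∑ j, pderiv j P * C (v b j)) - vf (w b) P) := by
      rw [eu, mkDer_eq]
      simp only [mul_sub, Finset.sum_sub_distrib, Finset.mul_sum]
      rw [Finset.sum_comm (f := fun j b => pderiv j P * (C (v b j) * yy (fl c) b))]
      have h6 : ∀ b j, yy (fl c) b * (pderiv j P * C (v b j)) = pderiv j P * (C (v b j) * yy (fl c) b) := by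
        intro b j
        ring
      simp only [h6]
      ring
    rw [h5]
    refine Ideal.add_mem _ (sum_mem fun j _ => ?_) (sum_mem fun b _ => Ideal.mem_sup_left ?_)
    · obtain ⟨q, hq, i, hi, hqi⟩ := Submodule.mem_sup.1 (hv2 j)
      rw [← hqi, mul_add]
      refine Ideal.add_mem _ (Ideal.mem_sup_left ?_) (Ideal.mem_sup_right (Ideal.mul_mem_left _ _ hi))
      rw [pow_add]
      exact Ideal.mul_mem_mul (der_pow (fl c) (pderiv j) k hP) hq
    · have h7 := Ideal.mul_mem_mul (h2 b) (yy_mem (fl c) b)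
      rw [← pow_succ] at h7
      rw [mul_comm]
      exact h7
  have h5 : ∑ b, yy (fl c) b * vf (w b) P ∈ mx (fl c) ^ (k + 2) ⊔ I := by
    refine sum_mem fun b _ => ?_
    obtain ⟨q, hq, i, hi, hqi⟩ := Submodule.mem_sup.1 (h (w b) (hw b))
    rw [← hqi, mul_add]
    refine Ideal.add_mem _ (Ideal.mem_sup_left ?_) (Ideal.mem_sup_right (Ideal.mul_mem_left _ _ hi))
    have h7 := Ideal.mul_mem_mul hq (yy_mem (fl c) b)
    rw [← pow_succ] at h7
    rw [mul_comm]
    exact h7
  have h6 : ((k + 1 : ℕ) : MvPolynomial (N × N) ℂ) * P ∈ mx (fl c) ^ (k + 2) ⊔ I := by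
    have h7 : ((k + 1 : ℕ) : MvPolynomial (N × N) ℂ) * P =
        -(eu (fl c) P - ((k + 1 : ℕ) : MvPolynomial (N × N) ℂ) * P) +
          ((eu (fl c) P - ∑ b, yy (fl c) b * vf (w b) P) + ∑ b, yy (fl c) b * vf (w b) P) := by
      ring
    rw [h7]
    exact Ideal.add_mem _ (Ideal.mem_sup_left (neg_mem h1)) (Ideal.add_mem _ h4 h5)
  have h7 : P = C (((k + 1 : ℕ) : ℂ)⁻¹) * (((k + 1 : ℕ) : MvPolynomial (N × N) ℂ) * P) := by
    rw [← mul_assoc, ← map_natCast (C : ℂ →+* MvPolynomial (N × N) ℂ), ← map_mul,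
      inv_mul_cancel₀ (Nat.cast_ne_zero.2 (Nat.succ_ne_zero k)), map_one, one_mul]
  rw [h7]
  exact Ideal.mul_mem_left _ _ h6

/-- polynomials in a family stable under the vector fields vanish to infinite order -/
theorem van_inf {c : Matrix N N ℂ} (hcu : IsUnit c) (I : Ideal (MvPolynomial (N × N) ℂ)) (hI : I ≤ mx (fl c))
    (H : Set (Matrix N N ℂ)) (hH : ∀ w, (∀ P ∈ I, dd P (fl c) (fl (w * c)) = 0) → w ∈ H)
    (hHI : ∀ w ∈ H, ∀ P ∈ I, vf w P ∈ I) (J : MvPolynomial (N × N) ℂ → Prop)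
    (h1 : ∀ P, J P → P ∈ mx (fl c)) (h2 : ∀ w ∈ H, ∀ P, J P → J (vf w P)) (k : ℕ) :
    ∀ P, J P → P ∈ mx (fl c) ^ (k + 1) ⊔ I := by
  induction k with
  | zero =>
    intro P hP
    rw [zero_add, pow_one]
    exact Ideal.mem_sup_left (h1 P hP)
  | succ k ih =>
    intro P hP
    obtain ⟨Q, hQ, i, hi, rfl⟩ := Submodule.mem_sup.1 (ih P hP)
    refine Ideal.add_mem _ ?_ (Ideal.mem_sup_right hi)
    refine step hcu I hI H hH k hQ fun w hw => ?_
    have h3 := ih _ (h2 w hw _ hP)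
    have h4 := hHI w hw i hi
    have h5 : vf w Q = vf w (Q + i) - vf w i := by
      rw [map_add]
      ring
    rw [h5]
    exact Ideal.sub_mem _ h3 (Ideal.mem_sup_right h4)

/-- **A family of polynomials vanishing at `c` and stable under the vector fields is contained in a prime ideal
whose tangent space at `c` consists of these vector fields.** -/
theorem mem_of_stable {c : Matrix N N ℂ} (hcu : IsUnit c) (I : Ideal (MvPolynomial (N × N) ℂ)) [I.IsPrime]
    (hI : I ≤ mx (fl c)) (H : Set (Matrix N N ℂ)) (hH : ∀ w, (∀ P ∈ I, dd P (fl c) (fl (w * c)) = 0) → w ∈ H)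
    (hHI : ∀ w ∈ H, ∀ P ∈ I, vf w P ∈ I) (J : MvPolynomial (N × N) ℂ → Prop)
    (h1 : ∀ P, J P → P ∈ mx (fl c)) (h2 : ∀ w ∈ H, ∀ P, J P → J (vf w P)) : ∀ P, J P → P ∈ I := by
  intro P hP
  refine krull I (fl c) hI fun k => ?_
  have h3 := van_inf hcu I hI H hH hHI J h1 h2 k P hP
  exact (sup_le_sup (Ideal.pow_le_pow_right (Nat.le_succ k)) le_rfl : mx (fl c) ^ (k + 1) ⊔ I ≤
    mx (fl c) ^ k ⊔ I) h3

/-- **A family of polynomials vanishing at `c` and stable under the vector fields vanishes on an irreducible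
torsor.** -/
theorem van_of_stable (hS : IsSubtorsor K S) (hirr : Irred S) {c : Matrix N N ℂ} (hc : c ∈ S)
    (J : MvPolynomial (N × N) ℂ → Prop) (h1 : ∀ P, J P → P ∈ mx (fl c))
    (h2 : ∀ w ∈ LM S, ∀ P, J P → J (vf w P)) : ∀ P, J P → Van S P := by
  have hprime : (vid S).IsPrime := by
    refine ⟨?_, fun {P Q} h => hirr P Q h⟩
    rw [Ideal.ne_top_iff_one]
    intro h
    have := h c hc
    rw [map_one] at this
    exact one_ne_zero this
  exact mem_of_stable (hS.isUnit c hc) (vid S) (fun P hP => hP c hc) (LM S : Set (Matrix N N ℂ))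
    (fun w hw => mem_LM_of_point hS hc hw) (fun w hw P hP => vf_van hw hP) J h1 h2

/-- **A subtorsor with the full Lie algebra contains an irreducible torsor.** -/
theorem full (hS : IsSubtorsor K S) (hirr : Irred S) (hT : IsSubtorsor K T) {c : Matrix N N ℂ}
    (hcS : c ∈ S) (hc : c ∈ T) (hL : LM S ≤ LM T) : S ⊆ T := by
  have h1 := van_of_stable hS hirr hcS (Van T) (fun P hP => hP c hc) fun w hw P hP => vf_van (hL hw) hP
  intro x hx
  obtain ⟨I, h2, h3⟩ := hT.algebraic
  rw [h3]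
  refine ⟨hS.isUnit x hx, fun p hp => ?_⟩
  exact h1 p (fun y hy => ((h3 y).1 hy).2 p hp) x hx

end Pool.Agent.R913.Tor
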