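import Pool.Agent.R913.Tor.Rt

/-!
# Powers of the maximal ideal of a point and Euler's identity
-/

set_option autoImplicit false
set_option linter.unusedSectionVars false

open Matrix MvPolynomial

namespace Pool.Agent.R913.Tor

open Pool.Agent.TH127.PT Pool.Agent.TH119.MX Pool.Agent.TH119.DR Pool.Agent.Y123.ST

section gen

variable {B : Type} [Fintype B] [DecidableEq B]

/-- the maximal ideal of a point -/
noncomputable def mx (c : B → ℂ) : Ideal (MvPolynomial B ℂ) := RingHom.ker (eval c)

theorem mem_mx {c : B → ℂ} {P : MvPolynomial B ℂ} : P ∈ mx c ↔ eval c P = 0 := Iff.rfl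

/-- the coordinates at a point -/
noncomputable def yy (c : B → ℂ) (b : B) : MvPolynomial B ℂ := X b - C (c b)

theorem yy_mem (c : B → ℂ) (b : B) : yy c b ∈ mx c := by
  rw [mem_mx, yy, map_sub, eval_X, eval_C, sub_self]

theorem sub_eval_mem (c : B → ℂ) (P : MvPolynomial B ℂ) : P - C (eval c P) ∈ mx c := by
  rw [mem_mx, map_sub, eval_C, sub_self]

/-- the Taylor expansion to the first order -/
theorem taylor (c : B → ℂ) (P : MvPolynomial B ℂ) :
    P - C (eval c P) - ∑ b, C (eval c (pderiv b P)) * yy c b ∈ mx c ^ 2 := by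
  induction P using MvPolynomial.induction_on with
  | C a =>
    have : (C a : MvPolynomial B ℂ) - C (eval c (C a)) - ∑ b, C (eval c (pderiv b (C a))) * yy c b = 0 := by
      simp
    rw [this]
    exact Ideal.zero_mem _
  | add p q hp hq =>
    have : p + q - C (eval c (p + q)) - ∑ b, C (eval c (pderiv b (p + q))) * yy c b =
        (p - C (eval c p) - ∑ b, C (eval c (pderiv b p)) * yy c b) +
          (q - C (eval c q) - ∑ b, C (eval c (pderiv b q)) * yy c b) := by
      simp only [map_add, add_mul, Finset.sum_add_distrib]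
      ring
    rw [this]
    exact Ideal.add_mem _ hp hq
  | mul_X p b hp =>
    have h1 : ∑ k, C (eval c (pderiv k (p * X b))) * yy c k =
        C (c b) * (∑ k, C (eval c (pderiv k p)) * yy c k) + C (eval c p) * yy c b := by
      have h2 : ∀ k, C (eval c (pderiv k (p * X b))) * yy c k =
          C (c b) * (C (eval c (pderiv k p)) * yy c k) + (if b = k then C (eval c p) * yy c b else 0) := by
        intro k
        rw [pderiv_mul, map_add, map_mul, map_mul, eval_X]
        by_cases h : b = k
        · subst h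
          rw [pderiv_X_self, map_one, if_pos rfl, mul_one, map_add, map_mul]
          ring
        · rw [pderiv_X_of_ne h, map_zero, if_neg h, mul_zero, add_zero, add_zero, map_mul]
          ring
      rw [Finset.sum_congr rfl fun k _ => h2 k, Finset.sum_add_distrib, Finset.sum_ite_eq,
        if_pos (Finset.mem_univ b), Finset.mul_sum]
    have h3 : p * X b - C (eval c (p * X b)) - ∑ k, C (eval c (pderiv k (p * X b))) * yy c k =
        C (c b) * (p - C (eval c p) - ∑ k, C (eval c (pderiv k p)) * yy c k) +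
          (p - C (eval c p)) * yy c b := by
      rw [h1, map_mul, eval_X, map_mul, yy]
      ring
    rw [h3]
    refine Ideal.add_mem _ (Ideal.mul_mem_left _ _ hp) ?_
    rw [pow_two]
    exact Ideal.mul_mem_mul (sub_eval_mem c p) (yy_mem c b)

/-- derivations lower the order by at most one -/
theorem der_pow (c : B → ℂ) (D : Derivation ℂ (MvPolynomial B ℂ) (MvPolynomial B ℂ)) (k : ℕ)
    {P : MvPolynomial B ℂ} (hP : P ∈ mx c ^ (k + 1)) : D P ∈ mx c ^ k := by
  induction k generalizing P with
  | zero =>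
    rw [pow_zero, Ideal.one_eq_top]
    exact Submodule.mem_top
  | succ k ih =>
    rw [pow_succ] at hP
    refine Submodule.mul_induction_on hP ?_ ?_
    · intro p hp q hq
      rw [D.leibniz, smul_eq_mul, smul_eq_mul]
      refine Ideal.add_mem _ (Ideal.mul_mem_right _ _ hp) ?_
      rw [mul_comm, pow_succ]
      exact Ideal.mul_mem_mul (ih hp) hq
    · intro p q hp hq
      rw [map_add]
      exact Ideal.add_mem _ hp hq

/-- Euler's operator -/
noncomputable def eu (c : B → ℂ) : Derivation ℂ (MvPolynomial B ℂ) (MvPolynomial B ℂ) :=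
  mkDerivation ℂ fun b => yy c b

theorem mkDer_eq (f : B → MvPolynomial B ℂ) (P : MvPolynomial B ℂ) :
    mkDerivation ℂ f P = ∑ b, pderiv b P * f b := by
  induction P using MvPolynomial.induction_on with
  | C a =>
    rw [show (C a : MvPolynomial B ℂ) = algebraMap ℂ _ a from rfl, Derivation.map_algebraMap]
    simp
  | add p q hp hq =>
    rw [map_add, hp, hq, ← Finset.sum_add_distrib]
    refine Finset.sum_congr rfl fun b _ => ?_
    rw [map_add, add_mul]
  | mul_X p b hp =>
    rw [Derivation.leibniz, hp, mkDerivation_X]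
    rw [smul_eq_mul, smul_eq_mul, Finset.mul_sum]
    have h1 : ∀ k, pderiv k (p * X b) * f k =
        X b * (pderiv k p * f k) + (if b = k then p * f b else 0) := by
      intro k
      rw [pderiv_mul]
      by_cases h2 : b = k
      · subst h2
        rw [pderiv_X_self, if_pos rfl]
        ring
      · rw [pderiv_X_of_ne h2, if_neg h2]
        ring
    rw [Finset.sum_congr rfl fun k _ => h1 k, Finset.sum_add_distrib, Finset.sum_ite_eq,
      if_pos (Finset.mem_univ b), add_comm]

theorem eu_one (c : B → ℂ) {P : MvPolynomial B ℂ} (hP : P ∈ mx c) : eu c P - P ∈ mx c ^ 2 := by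
  have h1 := taylor c P
  rw [mem_mx.1 hP, map_zero, sub_zero] at h1
  have h2 : eu c P - P = -(P - ∑ b, C (eval c (pderiv b P)) * yy c b) +
      ∑ b, (pderiv b P - C (eval c (pderiv b P))) * yy c b := by
    rw [eu, mkDer_eq]
    simp only [sub_mul, Finset.sum_sub_distrib]
    ring
  rw [h2]
  refine Ideal.add_mem _ (neg_mem h1) (sum_mem fun b _ => ?_)
  rw [pow_two]
  exact Ideal.mul_mem_mul (sub_eval_mem c _) (yy_mem c b)

/-- Euler's identity modulo higher order terms -/
theorem euler (c : B → ℂ) (k : ℕ) {P : MvPolynomial B ℂ} (hP : P ∈ mx c ^ k) :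
    eu c P - (k : MvPolynomial B ℂ) * P ∈ mx c ^ (k + 1) := by
  induction k generalizing P with
  | zero =>
    rw [Nat.cast_zero, zero_mul, sub_zero, zero_add, pow_one, eu, mkDer_eq]
    exact sum_mem fun b _ => Ideal.mul_mem_left _ _ (yy_mem c b)
  | succ k ih =>
    rw [pow_succ] at hP
    refine Submodule.mul_induction_on hP ?_ ?_
    · intro p hp q hq
      have h1 : eu c (p * q) - ((k + 1 : ℕ) : MvPolynomial B ℂ) * (p * q) =
          p * (eu c q - q) + (eu c p - (k : MvPolynomial B ℂ) * p) * q := by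
        rw [(eu c).leibniz, smul_eq_mul, smul_eq_mul, Nat.cast_add, Nat.cast_one]
        ring
      rw [h1]
      refine Ideal.add_mem _ ?_ ?_
      · have h2 := Ideal.mul_mem_mul hp (eu_one c hq)
        rwa [← pow_add] at h2
      · have h2 := Ideal.mul_mem_mul (ih hp) hq
        rwa [← pow_succ] at h2
    · intro p q hp hq
      have h1 : eu c (p + q) - ((k + 1 : ℕ) : MvPolynomial B ℂ) * (p + q) =
          (eu c p - ((k + 1 : ℕ) : MvPolynomial B ℂ) * p) + (eu c q - ((k + 1 : ℕ) : MvPolynomial B ℂ) * q) := by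
        rw [map_add]
        ring
      rw [h1]
      exact Ideal.add_mem _ hp hq

/-- the functionals of the differentials at `c` of the elements of an ideal -/
noncomputable def dfl (I : Ideal (MvPolynomial B ℂ)) (c : B → ℂ) : Submodule ℂ (Module.Dual ℂ (B → ℂ)) where
  carrier := {f | ∃ P ∈ I, ∀ v, f v = dd P c v}
  zero_mem' := ⟨0, I.zero_mem, fun v => by simp [dd]⟩
  add_mem' := by
    rintro f g ⟨P, hP, h1⟩ ⟨Q, hQ, h2⟩
    exact ⟨P + Q, I.add_mem hP hQ, fun v => by rw [LinearMap.add_apply, h1, h2, dd_add]⟩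
  smul_mem' := by
    rintro a f ⟨P, hP, h1⟩
    refine ⟨a • P, ?_, fun v => by rw [LinearMap.smul_apply, h1, dd_smul, smul_eq_mul]⟩
    rw [MvPolynomial.smul_eq_C_mul]
    exact I.mul_mem_left _ hP

/-- a functional vanishing on the tangent space is the differential of an element of the ideal -/
theorem exists_dfl (I : Ideal (MvPolynomial B ℂ)) (c : B → ℂ) (f : Module.Dual ℂ (B → ℂ))
    (hf : ∀ v, (∀ P ∈ I, dd P c v = 0) → f v = 0) : ∃ P ∈ I, ∀ v, f v = dd P c v := by
  have h1 : f ∈ (dfl I c).dualCoannihilator.dualAnnihilator := by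
    rw [Submodule.mem_dualAnnihilator]
    intro v hv
    rw [Submodule.mem_dualCoannihilator] at hv
    refine hf v fun P hP => ?_
    let g : Module.Dual ℂ (B → ℂ) :=
      { toFun := fun v => dd P c v, map_add' := fun a b => dd_add_right P c a b,
        map_smul' := fun a b => dd_smul_right P c b a }
    exact hv g ⟨P, hP, fun v => rfl⟩
  rw [Subspace.dualCoannihilator_dualAnnihilator_eq] at h1
  exact h1

/-- the coordinates are combinations of tangent coordinates modulo the ideal and the second order -/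
theorem exists_tangent (I : Ideal (MvPolynomial B ℂ)) (c : B → ℂ) (hI : I ≤ mx c) :
    ∃ v : B → (B → ℂ), (∀ b, ∀ P ∈ I, dd P c (v b) = 0) ∧
      ∀ b, yy c b - ∑ k, C (v k b) * yy c k ∈ mx c ^ 2 ⊔ I := by
  let t : Submodule ℂ (B → ℂ) :=
    { carrier := {v | ∀ P ∈ I, dd P c v = 0}
      zero_mem' := fun P _ => dd_zero_right P c
      add_mem' := fun h h' P hP => by rw [dd_add_right, h P hP, h' P hP, add_zero]
      smul_mem' := fun a v h P hP => by rw [dd_smul_right, h P hP, mul_zero] }
  obtain ⟨p, hp⟩ := LinearMap.exists_leftInverse_of_injective t.subtype t.ker_subtype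
  have hp1 : ∀ v ∈ t, (p v : B → ℂ) = v := by
    intro v hv
    have := LinearMap.congr_fun hp ⟨v, hv⟩
    exact congrArg Subtype.val this
  refine ⟨fun b => (p (Pi.single b 1) : B → ℂ), fun b => (p (Pi.single b 1)).2, fun b => ?_⟩
  let f : Module.Dual ℂ (B → ℂ) := LinearMap.proj b - (LinearMap.proj b) ∘ₗ t.subtype ∘ₗ p
  obtain ⟨P, hP, hfP⟩ := exists_dfl I c f fun v hv => by
    change v b - (p v : B → ℂ) b = 0
    rw [hp1 v hv, sub_self]
  have h1 := taylor c P
  rw [mem_mx.1 (hI hP), map_zero, sub_zero] at h1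
  have h2 : ∀ k, eval c (pderiv k P) = f (Pi.single k 1) := by
    intro k
    rw [hfP]
    unfold dd
    rw [Finset.sum_eq_single k]
    · rw [Pi.single_eq_same, mul_one]
    · intro j _ hj
      rw [Pi.single_eq_of_ne hj, mul_zero]
    · intro h
      exact absurd (Finset.mem_univ _) h
  have h3 : ∑ k, C (eval c (pderiv k P)) * yy c k =
      yy c b - ∑ k, C ((p (Pi.single k 1) : B → ℂ) b) * yy c k := by
    have h4 : ∀ k, C (eval c (pderiv k P)) * yy c k =
        (if k = b then yy c b else 0) - C ((p (Pi.single k 1) : B → ℂ) b) * yy c k := by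
      intro k
      rw [h2]
      change C ((Pi.single k 1 : B → ℂ) b - (p (Pi.single k 1) : B → ℂ) b) * yy c k = _
      by_cases h : k = b
      · subst h
        rw [if_pos rfl, Pi.single_eq_same, map_sub, map_one]
        ring
      · rw [if_neg h, Pi.single_eq_of_ne (Ne.symm h), map_sub, map_zero]
        ring
    rw [Finset.sum_congr rfl fun k _ => h4 k, Finset.sum_sub_distrib, Finset.sum_ite_eq',
      if_pos (Finset.mem_univ b)]
  rw [← h3]
  have h5 : ∑ k, C (eval c (pderiv k P)) * yy c k = -(P - ∑ k, C (eval c (pderiv k P)) * yy c k) + P := by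
    ring
  rw [h5]
  exact Ideal.add_mem _ (Ideal.mem_sup_left (neg_mem h1)) (Ideal.mem_sup_right hP)

/-- Krull's intersection theorem modulo a prime ideal -/
theorem krull (I : Ideal (MvPolynomial B ℂ)) [I.IsPrime] (c : B → ℂ) (hI : I ≤ mx c) {P : MvPolynomial B ℂ}
    (hP : ∀ k, P ∈ mx c ^ k ⊔ I) : P ∈ I := by
  have hne : (mx c).map (Ideal.Quotient.mk I) ≠ ⊤ := by
    intro h
    have h1 : (mx c) = ⊤ := by
      have h2 := congrArg (Ideal.comap (Ideal.Quotient.mk I)) h
      rw [Ideal.comap_map_of_surjective' _ Ideal.Quotient.mk_surjective, Ideal.mk_ker, Ideal.comap_top,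
        sup_eq_left.2 hI] at h2
      exact h2
    rw [Ideal.eq_top_iff_one, mem_mx, map_one] at h1
    exact one_ne_zero h1
  have h1 := Ideal.iInf_pow_eq_bot_of_isDomain _ hne
  have h2 : Ideal.Quotient.mk I P ∈ (⨅ k : ℕ, (mx c).map (Ideal.Quotient.mk I) ^ k) := by
    rw [Submodule.mem_iInf]
    intro k
    obtain ⟨Q, hQ, i, hi, rfl⟩ := Submodule.mem_sup.1 (hP k)
    rw [map_add, Ideal.Quotient.eq_zero_iff_mem.2 hi, add_zero, ← Ideal.map_pow]
    exact Ideal.mem_map_of_mem _ hQ
  rw [h1] at h2
  exact Ideal.Quotient.eq_zero_iff_mem.1 h2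

end gen

end Pool.Agent.R913.Tor
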