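import Pool.Agent.R913.Tor.Full
import Pool.Agent.R913.Tor.Ext

/-!
# The space of the logarithmic derivatives of a point
-/

set_option autoImplicit false
set_option linter.unusedSectionVars false

open Matrix MvPolynomial

namespace Pool.Agent.R913.Tor

open Pool.Agent.TH127.PT Pool.Agent.TH119.MX Pool.Agent.TH119.DR Pool.Agent.Y123.ST

variable {N : Type} [Fintype N] [DecidableEq N] {K : Subfield ℂ}

theorem exists_der_ne [IsAlgClosed K] {x : ℂ} (hx : x ∉ K) : ∃ D : Derivation K ℂ ℂ, D x ≠ 0 := by
  by_contra hcon
  push Not at hcon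
  obtain ⟨a, ha⟩ := Pool.Agent.W516.DR.mem_of_derivation (K := K) (L := ℂ) hcon
  apply hx
  rw [← ha]
  exact a.2

/-- A subspace which is stable under all derivations of `ℂ` over `K` is defined over `K`. -/
theorem defOver_of_der [IsAlgClosed K] {B : Type*} [Fintype B] (W : Submodule ℂ (B → ℂ))
    (hC : ∀ D : Derivation K ℂ ℂ, ∀ v ∈ W, (fun i => D (v i)) ∈ W) :
    DefOver K W := by
  classical
  have key : ∀ (n : ℕ) (v : B → ℂ), v ∈ W → (Finset.univ.filter (fun i => v i ≠ 0)).card ≤ n →
      v ∈ Submodule.span ℂ {w | w ∈ W ∧ ∀ a, w a ∈ K} := by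
    intro n
    induction n with
    | zero =>
      intro v _ hv
      have h1 : v = 0 := by
        funext i
        by_contra h
        have h2 : i ∈ Finset.univ.filter (fun i => v i ≠ 0) := by simpa using h
        rw [Nat.le_zero, Finset.card_eq_zero] at hv
        rw [hv] at h2
        exact absurd h2 (Finset.notMem_empty i)
      rw [h1]
      exact Submodule.zero_mem _
    | succ n ih =>
      intro v hv hcard
      by_cases hv0 : v = 0
      · rw [hv0]
        exact Submodule.zero_mem _
      · obtain ⟨i0, hi0⟩ : ∃ i, v i ≠ 0 := by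
          by_contra hcon
          push Not at hcon
          exact hv0 (funext hcon)
        have hw : (v i0)⁻¹ • v ∈ W := Submodule.smul_mem _ _ hv
        set w := (v i0)⁻¹ • v with hwdef
        have hwi0 : w i0 = 1 := by
          rw [hwdef, Pi.smul_apply, smul_eq_mul, inv_mul_cancel₀ hi0]
        have hwsupp : ∀ i, w i ≠ 0 → v i ≠ 0 := by
          intro i h1 h2
          apply h1
          rw [hwdef, Pi.smul_apply, h2, smul_zero]
        have hvw : v = (v i0) • w := by
          rw [hwdef, smul_smul, mul_inv_cancel₀ hi0, one_smul]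
        by_cases hrat : ∀ i, w i ∈ K
        · rw [hvw]
          exact Submodule.smul_mem _ _ (Submodule.subset_span ⟨hw, hrat⟩)
        · push Not at hrat
          obtain ⟨i1, hi1⟩ := hrat
          obtain ⟨D, hD⟩ := exists_der_ne hi1
          set d : B → ℂ := fun i => D (w i) with hd
          have hdC : d ∈ W := hC D w hw
          have hd0 : d i0 = 0 := by
            rw [hd]
            simp only [hwi0]
            exact D.map_one_eq_zero
          have hd1 : d i1 ≠ 0 := hD
          have hdsupp : ∀ i, d i ≠ 0 → v i ≠ 0 := by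
            intro i h1
            apply hwsupp
            intro h2
            apply h1
            rw [hd]
            simp only [h2, map_zero]
          have hdcard : (Finset.univ.filter (fun i => d i ≠ 0)).card ≤ n := by
            have h1 : (Finset.univ.filter (fun i => d i ≠ 0)) ⊂
                Finset.univ.filter (fun i => v i ≠ 0) := by
              rw [Finset.ssubset_iff_of_subset]
              · exact ⟨i0, by simpa using hi0, by simpa using hd0⟩
              · intro i hi
                simp only [Finset.mem_filter, Finset.mem_univ, true_and] at hi ⊢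
                exact hdsupp i hi
            have h2 := Finset.card_lt_card h1
            omega
          have h1 := ih d hdC hdcard
          set v' : B → ℂ := v - (v i1 / d i1) • d with hv'
          have hv'C : v' ∈ W := Submodule.sub_mem _ hv (Submodule.smul_mem _ _ hdC)
          have hv'1 : v' i1 = 0 := by
            rw [hv', Pi.sub_apply, Pi.smul_apply, smul_eq_mul, div_mul_cancel₀ _ hd1, sub_self]
          have hv'card : (Finset.univ.filter (fun i => v' i ≠ 0)).card ≤ n := by
            have h1 : (Finset.univ.filter (fun i => v' i ≠ 0)) ⊂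
                Finset.univ.filter (fun i => v i ≠ 0) := by
              rw [Finset.ssubset_iff_of_subset]
              · refine ⟨i1, ?_, by simpa using hv'1⟩
                simpa using hdsupp i1 hd1
              · intro i hi
                simp only [Finset.mem_filter, Finset.mem_univ, true_and] at hi ⊢
                intro h2
                apply hi
                have h3 : d i = 0 := by
                  by_contra h4
                  exact hdsupp i h4 h2
                rw [hv', Pi.sub_apply, Pi.smul_apply, h2, h3, smul_zero, sub_zero]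
            have h2 := Finset.card_lt_card h1
            omega
          have h2 := ih v' hv'C hv'card
          have h3 : v = v' + (v i1 / d i1) • d := by
            rw [hv', sub_add_cancel]
          rw [h3]
          exact Submodule.add_mem _ h2 (Submodule.smul_mem _ _ h1)
  intro v hv
  exact key _ v hv le_rfl

theorem rational_of_der [IsAlgClosed K] (U : Submodule ℂ (Matrix N N ℂ))
    (h : ∀ D : Derivation K ℂ ℂ, ∀ A ∈ U, A.map D ∈ U) : Rational K U := by
  let L : (N × N → ℂ) →ₗ[ℂ] Matrix N N ℂ :=
    { toFun := um, map_add' := fun _ _ => rfl, map_smul' := fun _ _ => rfl }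
  have h1 : DefOver K (U.comap L) := defOver_of_der _ fun D v hv => h D (um v) hv
  intro A hA
  have h2 : fl A ∈ U.comap L := hA
  have h3 := Submodule.mem_map_of_mem (f := L) (h1 h2)
  rw [Submodule.map_span] at h3
  refine Submodule.span_mono ?_ h3
  rintro _ ⟨v, hv, rfl⟩
  exact ⟨hv.1, fun i j => hv.2 (i, j)⟩

theorem Rational.der {U : Submodule ℂ (Matrix N N ℂ)} (h : Rational K U) (D : Derivation K ℂ ℂ)
    {A : Matrix N N ℂ} (hA : A ∈ U) : A.map D ∈ U := by
  have h1 := h hA
  clear hA
  suffices A ∈ U ∧ A.map D ∈ U from this.2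
  induction h1 using Submodule.span_induction with
  | mem w hw =>
    refine ⟨hw.1, ?_⟩
    rw [map_der_const D hw.2]
    exact U.zero_mem
  | zero =>
    refine ⟨U.zero_mem, ?_⟩
    have h2 : (0 : Matrix N N ℂ).map D = 0 := by
      ext1 i j
      exact map_zero D
    rw [h2]
    exact U.zero_mem
  | add v w _ _ hv hw =>
    refine ⟨U.add_mem hv.1 hw.1, ?_⟩
    have h2 : (v + w).map D = v.map D + w.map D := by
      ext1 i j
      exact map_add D _ _
    rw [h2]
    exact U.add_mem hv.2 hw.2
  | smul a v _ hv =>
    refine ⟨U.smul_mem a hv.1, ?_⟩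
    have h2 : (a • v).map D = a • v.map D + D a • v := by
      ext1 i j
      simp only [Matrix.map_apply, Matrix.smul_apply, Matrix.add_apply, smul_eq_mul, D.leibniz]
      ring
    rw [h2]
    exact U.add_mem (U.smul_mem _ hv.2) (U.smul_mem _ hv.1)

/-- The complex space of the logarithmic derivatives `D(c) c⁻¹` of `c`, for the derivations `D` of `ℂ` over `K`. -/
def logs (K : Subfield ℂ) (c : Matrix N N ℂ) : Submodule ℂ (Matrix N N ℂ) :=
  Submodule.span ℂ {M | ∃ D : Derivation K ℂ ℂ, M = c.map D * c⁻¹}

theorem mem_logs {c M : Matrix N N ℂ} : M ∈ logs K c ↔ ∃ D : Derivation K ℂ ℂ, M = c.map D * c⁻¹ := by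
  constructor
  · intro h
    unfold logs at h
    induction h using Submodule.span_induction with
    | mem w hw => exact hw
    | zero =>
      refine ⟨0, ?_⟩
      have h2 : c.map (0 : Derivation K ℂ ℂ) = 0 := by
        ext1 i j
        rfl
      rw [h2, Matrix.zero_mul]
    | add v w _ _ hv hw =>
      obtain ⟨D, rfl⟩ := hv
      obtain ⟨D', rfl⟩ := hw
      refine ⟨D + D', ?_⟩
      have h2 : c.map (D + D' : Derivation K ℂ ℂ) = c.map D + c.map D' := by
        ext1 i j
        rfl
      rw [h2, Matrix.add_mul]
    | smul a v _ hv =>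
      obtain ⟨D, rfl⟩ := hv
      refine ⟨a • D, ?_⟩
      have h2 : c.map (a • D : Derivation K ℂ ℂ) = a • c.map D := by
        ext1 i j
        rfl
      rw [h2, Matrix.smul_mul]
  · rintro ⟨D, rfl⟩
    exact Submodule.subset_span ⟨D, rfl⟩

/-- the derivative of a conjugate -/
theorem der_conj {c : Matrix N N ℂ} (hc : IsUnit c) (D : Derivation K ℂ ℂ) (A : Matrix N N ℂ) :
    (c⁻¹ * A * c).map D = c⁻¹ * (A.map D - ((c.map D * c⁻¹) * A - A * (c.map D * c⁻¹))) * c := by
  have h1 := unit_inv_mul hc
  have h2 := unit_mul_inv hc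
  have h3 : (c * (c⁻¹ * A * c)).map D = (A * c).map D := by
    rw [Matrix.mul_assoc c⁻¹, ← Matrix.mul_assoc c, h2, Matrix.one_mul]
  rw [map_der_mul D c, map_der_mul D A] at h3
  have h4 : c * (c⁻¹ * A * c).map D = A.map D * c + A * c.map D - c.map D * (c⁻¹ * A * c) := by
    rw [← h3]
    abel
  calc (c⁻¹ * A * c).map D = c⁻¹ * (c * (c⁻¹ * A * c).map D) := by
        rw [← Matrix.mul_assoc, h1, Matrix.one_mul]
    _ = c⁻¹ * (A.map D * c + A * c.map D - c.map D * (c⁻¹ * A * c)) := by rw [h4]
    _ = c⁻¹ * ((A.map D - ((c.map D * c⁻¹) * A - A * (c.map D * c⁻¹))) * c) := by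
      congr 1
      have h5 : A * (c.map D * c⁻¹) * c = A * c.map D := by
        rw [Matrix.mul_assoc, Matrix.mul_assoc, h1, Matrix.mul_one]
      rw [Matrix.sub_mul, Matrix.sub_mul, h5]
      simp only [Matrix.mul_assoc]
      abel
    _ = _ := (Matrix.mul_assoc _ _ _).symm

/-- **A space rational over `K` is a subobject if and only if it is stable under the logarithmic derivatives.** -/
theorem sub_iff [IsAlgClosed K] {c : Matrix N N ℂ} (hc : IsUnit c) {U : Submodule ℂ (Matrix N N ℂ)}
    (hU : Rational K U) : Rational K (conjBy c U) ↔ ∀ w ∈ logs K c, ∀ A ∈ U, w * A - A * w ∈ U := by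
  constructor
  · intro h w hw A hA
    obtain ⟨D, rfl⟩ := mem_logs.1 hw
    have h1 : c⁻¹ * A * c ∈ conjBy c U := (inv_mem_conjBy hc).2 hA
    have h2 := h.der D h1
    rw [der_conj hc, inv_mem_conjBy hc] at h2
    have h3 := U.sub_mem (hU.der D hA) h2
    rwa [sub_sub_cancel] at h3
  · intro h
    refine rational_of_der _ fun D A hA => ?_
    have h1 : A = c⁻¹ * (c * A * c⁻¹) * c := ((cj c hc).left_inv A).symm
    rw [h1, der_conj hc, inv_mem_conjBy hc]
    exact U.sub_mem (hU.der D hA) (h _ (mem_logs.2 ⟨D, rfl⟩) _ hA)

end Pool.Agent.R913.Tor
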