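import Pool.Agent.R913.Tor.Gpc

/-!
# The relations over an algebraically closed field generate a prime ideal over the complex numbers
-/

set_option autoImplicit false
set_option linter.unusedSectionVars false

open Matrix MvPolynomial

namespace Pool.Agent.R913.Tor

open Pool.Agent.TH127.PT Pool.Agent.TH119.MX Pool.Agent.TH119.DR Pool.Agent.Y123.ST

/-- points of domains of finite type -/
theorem exists_hom {K R : Type} [Field K] [IsAlgClosed K] [CommRing R] [IsDomain R] [Algebra K R]
    [Algebra.FiniteType K R] {r : R} (hr : r ≠ 0) : ∃ φ : R →ₐ[K] K, φ r ≠ 0 := by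
  have hJ : IsJacobsonRing R := isJacobsonRing_of_finiteType (A := K)
  have h1 : (⊥ : Ideal R).jacobson = ⊥ := hJ.out (Ideal.isRadical_bot)
  have h2 : r ∉ (⊥ : Ideal R).jacobson := by
    rw [h1]
    exact hr
  have h3 : ∃ m : Ideal R, m.IsMaximal ∧ r ∉ m := by
    by_contra hcon
    push Not at hcon
    apply h2
    unfold Ideal.jacobson
    rw [Submodule.mem_sInf]
    rintro m ⟨-, hm⟩
    exact hcon m hm
  obtain ⟨m, hm, hrm⟩ := h3
  let _ : Field (R ⧸ m) := Ideal.Quotient.field m
  have _ : Module.Finite K (R ⧸ m) := finite_of_finite_type_of_isJacobsonRing K (R ⧸ m)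
  have hb := IsAlgClosed.algebraMap_bijective_of_isIntegral (k := K) (K := R ⧸ m)
  let e : K ≃ₐ[K] (R ⧸ m) := AlgEquiv.ofBijective (Algebra.ofId K (R ⧸ m)) hb
  refine ⟨(e.symm : (R ⧸ m) →ₐ[K] K).comp (Ideal.Quotient.mkₐ K m), fun h => hrm ?_⟩
  have h4 : e.symm (Ideal.Quotient.mkₐ K m r) = 0 := h
  rw [map_eq_zero_iff _ e.symm.injective] at h4
  exact Ideal.Quotient.eq_zero_iff_mem.1 h4

section FF

variable {K : Subfield ℂ} {B : Type}

/-- the extension of a functional -/
noncomputable def FF (A : Type) [CommRing A] [Algebra K A] (c : B → ℂ) (f : ℂ →ₗ[K] K) :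
    MvPolynomial B A →ₗ[A] A :=
  (basisMonomials B A).constr A fun m => algebraMap K A (f (m.prod fun i e => c i ^ e))

theorem FF_monomial (A : Type) [CommRing A] [Algebra K A] (c : B → ℂ) (f : ℂ →ₗ[K] K) (m : B →₀ ℕ) (a : A) :
    FF A c f (monomial m a) = a * algebraMap K A (f (m.prod fun i e => c i ^ e)) := by
  have h1 : (monomial m a : MvPolynomial B A) = a • basisMonomials B A m := by
    rw [coe_basisMonomials, smul_monomial, smul_eq_mul, mul_one]
  rw [h1, map_smul, FF, Module.Basis.constr_basis, smul_eq_mul]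

theorem FF_map (A A' : Type) [CommRing A] [Algebra K A] [CommRing A'] [Algebra K A'] (φ : A →ₐ[K] A')
    (c : B → ℂ) (f : ℂ →ₗ[K] K) (P : MvPolynomial B A) :
    FF A' c f (MvPolynomial.map (φ : A →+* A') P) = φ (FF A c f P) := by
  induction P using MvPolynomial.induction_on' with
  | monomial m a =>
    rw [map_monomial, FF_monomial, FF_monomial, map_mul, AlgHom.commutes]
    rfl
  | add p q hp hq => rw [map_add, map_add, map_add, map_add, hp, hq]

theorem FF_K (c : B → ℂ) (f : ℂ →ₗ[K] K) (P : MvPolynomial B K) : FF K c f P = f (aeval c P) := by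
  induction P using MvPolynomial.induction_on' with
  | monomial m a =>
    rw [FF_monomial, aeval_monomial, ← Algebra.smul_def, map_smul, smul_eq_mul]
    rfl
  | add p q hp hq => rw [map_add, map_add, map_add, hp, hq]

/-- The complex span of the relations over `K` of a point. -/
noncomputable def relS (K : Subfield ℂ) (c : B → ℂ) : Submodule ℂ (MvPolynomial B ℂ) :=
  Submodule.span ℂ {P : MvPolynomial B ℂ | (∀ m, P.coeff m ∈ K) ∧ eval c P = 0}

/-- The ideal generated by the relations over `K` of a point. -/
noncomputable def relI (K : Subfield ℂ) (c : B → ℂ) : Ideal (MvPolynomial B ℂ) where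
  carrier := (relS K c : Set (MvPolynomial B ℂ))
  zero_mem' := (relS K c).zero_mem
  add_mem' := fun h h' => (relS K c).add_mem h h'
  smul_mem' := by
    intro Q P hP
    change P ∈ relS K c at hP
    change Q * P ∈ relS K c
    induction Q using MvPolynomial.induction_on generalizing P with
    | C a =>
      rw [← MvPolynomial.smul_eq_C_mul]
      exact Submodule.smul_mem _ _ hP
    | add p q hp hq =>
      rw [add_mul]
      exact Submodule.add_mem _ (hp hP) (hq hP)
    | mul_X p b hp =>
      rw [mul_assoc]
      apply hp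
      unfold relS at hP ⊢
      induction hP using Submodule.span_induction with
      | mem P hP =>
        refine Submodule.subset_span ⟨fun m => ?_, by rw [map_mul, hP.2, mul_zero]⟩
        classical
        rw [MvPolynomial.coeff_X_mul']
        split_ifs
        · exact hP.1 _
        · exact K.zero_mem
      | zero =>
        rw [mul_zero]
        exact Submodule.zero_mem _
      | add x y _ _ hx hy =>
        rw [mul_add]
        exact Submodule.add_mem _ hx hy
      | smul a x _ hx =>
        rw [mul_smul_comm]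
        exact Submodule.smul_mem _ _ hx

theorem mem_relI {c : B → ℂ} {P : MvPolynomial B ℂ} :
    P ∈ relI K c ↔ P ∈ Submodule.span ℂ {P : MvPolynomial B ℂ | (∀ m, P.coeff m ∈ K) ∧ eval c P = 0} := by
  change P ∈ relS K c ↔ _
  rw [relS]

theorem relI_le (c : B → ℂ) {P : MvPolynomial B ℂ} (hP : P ∈ relI K c) : eval c P = 0 := by
  rw [mem_relI] at hP
  induction hP using Submodule.span_induction with
  | mem P hP => exact hP.2
  | zero => exact map_zero _
  | add x y _ _ hx hy => rw [map_add, hx, hy, add_zero]
  | smul a x _ hx => rw [smul_eval, hx, mul_zero]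

theorem exists_mapB (P : MvPolynomial B ℂ) (hP : ∀ m, P.coeff m ∈ K) :
    ∃ P0 : MvPolynomial B K, P0.map (algebraMap K ℂ) = P := by
  classical
  refine ⟨∑ m ∈ P.support, monomial m (⟨P.coeff m, hP m⟩ : K), ?_⟩
  rw [map_sum]
  conv_rhs => rw [P.as_sum]
  refine Finset.sum_congr rfl fun m _ => ?_
  rw [map_monomial]
  rfl

theorem FF_rel (c : B → ℂ) (f : ℂ →ₗ[K] K) {P : MvPolynomial B ℂ} (hP : ∀ m, P.coeff m ∈ K) :
    FF ℂ c f P = algebraMap K ℂ (f (eval c P)) := by
  obtain ⟨P0, rfl⟩ := exists_mapB P hP
  have h1 := FF_map K ℂ (Algebra.ofId K ℂ) c f P0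
  rw [FF_K] at h1
  have h2 : eval c (MvPolynomial.map (algebraMap K ℂ) P0) = aeval c P0 := by
    rw [eval_map, ← aeval_def]
  rw [h2]
  exact h1

/-- membership is detected by the functionals -/
theorem mem_relI_iff (c : B → ℂ) (P : MvPolynomial B ℂ) : P ∈ relI K c ↔ ∀ f : ℂ →ₗ[K] K, FF ℂ c f P = 0 := by
  classical
  constructor
  · intro hP f
    rw [mem_relI] at hP
    induction hP using Submodule.span_induction with
    | mem P hP => rw [FF_rel c f hP.1, hP.2, map_zero, map_zero]
    | zero => exact map_zero _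
    | add x y _ _ hx hy => rw [map_add, hx, hy, add_zero]
    | smul a x _ hx => rw [map_smul, hx, smul_zero]
  · intro h
    obtain ⟨J, s, e, g, hg, hz⟩ := exists_coords K (P.support.image fun m => P.coeff m)
    have hP : P = ∑ j ∈ s, e j • ∑ m ∈ P.support, monomial m (g j (P.coeff m)) := by
      conv_lhs => rw [P.as_sum]
      have h1 : ∀ m ∈ P.support, (monomial m (P.coeff m) : MvPolynomial B ℂ) =
          ∑ j ∈ s, e j • monomial m (g j (P.coeff m)) := by
        intro m hm
        conv_lhs => rw [hz _ (Finset.mem_image_of_mem _ hm)]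
        rw [map_sum]
        refine Finset.sum_congr rfl fun j _ => ?_
        rw [smul_monomial, smul_eq_mul]
      rw [Finset.sum_congr rfl h1, Finset.sum_comm]
      refine Finset.sum_congr rfl fun j _ => ?_
      rw [Finset.smul_sum]
    rw [mem_relI, hP]
    refine Submodule.sum_mem _ fun j _ => Submodule.smul_mem _ _ (Submodule.subset_span ⟨fun m => ?_, ?_⟩)
    · rw [coeff_sum]
      refine sum_mem fun m' _ => ?_
      rw [coeff_monomial]
      split_ifs
      · exact hg _ _
      · exact K.zero_mem
    · have hcoef : ∀ m, (∑ m ∈ P.support, (monomial m (g j (P.coeff m)) : MvPolynomial B ℂ)).coeff m ∈ K := by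
        intro m
        rw [coeff_sum]
        refine sum_mem fun m' _ => ?_
        rw [coeff_monomial]
        split_ifs
        · exact hg _ _
        · exact K.zero_mem
      have h2 : ∀ f : ℂ →ₗ[K] K, f (eval c (∑ m ∈ P.support, monomial m (g j (P.coeff m)))) = 0 := by
        intro f
        have h3 := FF_rel c f hcoef
        have h4 : FF ℂ c f (∑ m ∈ P.support, monomial m (g j (P.coeff m))) = g j (FF ℂ c f P) := by
          conv_rhs => rw [P.as_sum]
          rw [map_sum, map_sum, map_sum]
          refine Finset.sum_congr rfl fun m _ => ?_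
          rw [FF_monomial, FF_monomial]
          exact (lin_mul' (g j) (Subtype.coe_prop _) _).symm
        rw [h4, h f, map_zero] at h3
        exact (map_eq_zero_iff _ (algebraMap K ℂ).injective).1 h3.symm
      exact (Module.forall_dual_apply_eq_zero_iff K _).1 h2

/-- **The relations over an algebraically closed field generate a prime ideal.** -/
theorem relI_prime [IsAlgClosed K] (c : B → ℂ) : (relI K c).IsPrime := by
  classical
  refine ⟨?_, ?_⟩
  · rw [Ideal.ne_top_iff_one]
    intro h
    have := relI_le c h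
    rw [map_one] at this
    exact one_ne_zero this
  · intro P Q hPQ
    by_contra hcon
    push Not at hcon
    obtain ⟨hP, hQ⟩ := hcon
    rw [mem_relI_iff] at hP hQ
    push Not at hP hQ
    obtain ⟨f, hf⟩ := hP
    obtain ⟨g, hg⟩ := hQ
    let Z : Finset ℂ := (P.support.image fun m => P.coeff m) ∪ (Q.support.image fun m => Q.coeff m)
    let R := Algebra.adjoin K (Z : Set ℂ)
    have hft : Algebra.FiniteType K R := (Subalgebra.fg_iff_finiteType _).1 (Subalgebra.fg_adjoin_finset Z)
    have lift : ∀ P' : MvPolynomial B ℂ, (∀ m ∈ P'.support, P'.coeff m ∈ R) →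
        ∃ P0 : MvPolynomial B R, MvPolynomial.map (R.val : R →+* ℂ) P0 = P' := by
      intro P' h
      refine ⟨∑ m : P'.support, monomial m.1 (⟨P'.coeff m.1, h m.1 m.2⟩ : R), ?_⟩
      rw [map_sum]
      conv_rhs => rw [P'.as_sum, ← Finset.sum_coe_sort]
      refine Finset.sum_congr rfl fun m _ => ?_
      rw [map_monomial]
      rfl
    obtain ⟨P0, hP0⟩ := lift P fun m hm =>
      Algebra.subset_adjoin (Finset.mem_coe.2 (Finset.mem_union_left _ (Finset.mem_image_of_mem _ hm)))
    obtain ⟨Q0, hQ0⟩ := lift Q fun m hm =>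
      Algebra.subset_adjoin (Finset.mem_coe.2 (Finset.mem_union_right _ (Finset.mem_image_of_mem _ hm)))
    have hr : FF R c f P0 ≠ 0 := by
      intro h
      apply hf
      have h1 := FF_map R ℂ R.val c f P0
      rw [hP0, h, map_zero] at h1
      exact h1
    have hs : FF R c g Q0 ≠ 0 := by
      intro h
      apply hg
      have h1 := FF_map R ℂ R.val c g Q0
      rw [hQ0, h, map_zero] at h1
      exact h1
    obtain ⟨φ, hφ⟩ := exists_hom (K := K) (R := R) (mul_ne_zero hr hs)
    rw [map_mul] at hφ
    have h1 : aeval c (MvPolynomial.map (φ : R →+* K) P0) * aeval c (MvPolynomial.map (φ : R →+* K) Q0) = 0 := by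
      rw [← map_mul, ← map_mul]
      refine (Module.forall_dual_apply_eq_zero_iff K _).1 fun h => ?_
      rw [← FF_K, FF_map R K φ c h (P0 * Q0)]
      have h2 := FF_map R ℂ R.val c h (P0 * Q0)
      rw [map_mul, hP0, hQ0, (mem_relI_iff c _).1 hPQ h] at h2
      have h3 : FF R c h (P0 * Q0) = 0 := by
        apply Subtype.ext
        exact h2.symm
      rw [h3, map_zero]
    rcases mul_eq_zero.1 h1 with h2 | h2
    · apply left_ne_zero_of_mul hφ
      rw [← FF_map R K φ c f P0, FF_K, h2, map_zero]
    · apply right_ne_zero_of_mul hφ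
      rw [← FF_map R K φ c g Q0, FF_K, h2, map_zero]

end FF

end Pool.Agent.R913.Tor
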