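import Pool.Agent.R913.Tor.Drb

/-!
# Quadratic relations between periods
-/

set_option autoImplicit false
set_option linter.unusedSectionVars false

open Matrix MvPolynomial

namespace Pool.Agent.R913.Tor

open Pool.Agent.TH127.PT Pool.Agent.TH119.MX Pool.Agent.TH119.DR Pool.Agent.Y123.ST

variable {N : Type} [Fintype N] [DecidableEq N] {K : Subfield ℂ} {S : Set (Matrix N N ℂ)}

/-- Every homogeneous polynomial of degree `d` over `K` which vanishes at `c` vanishes on `S`. -/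
def RelHold (K : Subfield ℂ) (S : Set (Matrix N N ℂ)) (c : Matrix N N ℂ) (d : ℕ) : Prop :=
  ∀ P : MvPolynomial (N × N) ℂ, (∀ m, P.coeff m ∈ K) → P.IsHomogeneous d → eval (fl c) P = 0 → Van S P

/-- all entries are homogeneous of degree `d` -/
def Hm (d : ℕ) (M : Matrix N N (MvPolynomial (N × N) ℂ)) : Prop := ∀ i j, (M i j).IsHomogeneous d

theorem Hm.mul {d e : ℕ} {M M' : Matrix N N (MvPolynomial (N × N) ℂ)} (h : Hm d M) (h' : Hm e M') :
    Hm (d + e) (M * M') := by
  intro i j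
  rw [Matrix.mul_apply]
  exact IsHomogeneous.sum _ _ _ fun k _ => (h i k).mul (h' k j)

theorem Hm.const (A : Matrix N N ℂ) : Hm 0 (A.map (C : ℂ →+* MvPolynomial (N × N) ℂ)) := fun _ _ =>
  isHomogeneous_C _ _

theorem Hm_X : Hm 1 (gX N) := fun _ _ => isHomogeneous_X _ _

theorem Hm_Xt : Hm 1 (gX N)ᵀ := fun _ _ => isHomogeneous_X _ _

theorem Hm_adj : Hm (Fintype.card N - 1) (adjugate (gX N)) := by
  intro i j
  rw [Matrix.adjugate_apply, Matrix.det_apply']
  refine IsHomogeneous.sum _ _ _ fun σ _ => ?_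
  have h1 : (∏ k, updateRow (gX N) j (Pi.single i 1) (σ k) k).IsHomogeneous
      (∑ k, if σ k = j then 0 else 1) := by
    refine IsHomogeneous.prod _ _ _ fun k _ => ?_
    rw [Matrix.updateRow_apply]
    split_ifs with h2
    · rw [Pi.single_apply]
      split_ifs
      · exact isHomogeneous_one _ _
      · exact isHomogeneous_zero _ _ _
    · exact isHomogeneous_X _ _
  have h2 : (∑ k, if σ k = j then 0 else 1) = Fintype.card N - 1 := by
    have h3 : (∑ k, if σ k = j then 0 else 1) = ∑ k, if k = j then 0 else 1 :=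
      Equiv.sum_comp σ fun k => if k = j then 0 else 1
    rw [h3]
    have h5 : (∑ k : N, if k = j then 1 else 0) = 1 := by simp
    have h6 : ∀ k : N, (if k = j then 0 else 1) + (if k = j then 1 else 0) = 1 := by
      intro k
      split_ifs <;> rfl
    have h7 : (∑ k : N, if k = j then 0 else 1) + (∑ k : N, if k = j then 1 else 0) = Fintype.card N := by
      rw [← Finset.sum_add_distrib, Finset.sum_congr rfl fun k _ => h6 k]
      simp
    omega
  rw [h2] at h1
  have h3 : (((Equiv.Perm.sign σ : ℤˣ) : ℤ) : MvPolynomial (N × N) ℂ) =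
      C (((Equiv.Perm.sign σ : ℤˣ) : ℤ) : ℂ) := by
    rw [map_intCast]
  rw [h3]
  have h4 := (isHomogeneous_C (N × N) (((Equiv.Perm.sign σ : ℤˣ) : ℤ) : ℂ)).mul h1
  rwa [zero_add] at h4

theorem PG_hom [Nonempty N] (A : Matrix N N ℂ) (u : N × N → ℂ) : (PG A u).IsHomogeneous (Fintype.card N) := by
  unfold PG
  refine IsHomogeneous.sum _ _ _ fun b _ => ?_
  have h1 := (Hm_adj.mul (Hm.const A)).mul Hm_X b.1 b.2
  have h2 := (isHomogeneous_C (N × N) (u b)).mul h1
  have h3 : 0 + (Fintype.card N - 1 + 0 + 1) = Fintype.card N := by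
    have : 0 < Fintype.card N := Fintype.card_pos
    omega
  rwa [h3] at h2

/-- the quadratic polynomial `∑ u_b (Q Xᵀ A X)_b` -/
noncomputable def QG (Q A : Matrix N N ℂ) (u : N × N → ℂ) : MvPolynomial (N × N) ℂ :=
  ∑ b, C (u b) * (Q.map (C : ℂ →+* MvPolynomial (N × N) ℂ) * (gX N)ᵀ *
    A.map (C : ℂ →+* MvPolynomial (N × N) ℂ) * gX N) b.1 b.2

theorem QG_hom (Q A : Matrix N N ℂ) (u : N × N → ℂ) : (QG Q A u).IsHomogeneous 2 := by
  unfold QG
  refine IsHomogeneous.sum _ _ _ fun b _ => ?_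
  have h1 := (((Hm.const Q).mul Hm_Xt).mul (Hm.const A)).mul Hm_X b.1 b.2
  exact (isHomogeneous_C (N × N) (u b)).mul h1

theorem eval_QG (Q A : Matrix N N ℂ) (u : N × N → ℂ) (x : Matrix N N ℂ) :
    eval (fl x) (QG Q A u) = ∑ b, u b * (Q * xᵀ * A * x) b.1 b.2 := by
  unfold QG
  rw [map_sum]
  refine Finset.sum_congr rfl fun b _ => ?_
  rw [map_mul, eval_C]
  congr 1
  have h1 : (eval (fl x)).mapMatrix (Q.map (C : ℂ →+* MvPolynomial (N × N) ℂ) * (gX N)ᵀ *
    A.map (C : ℂ →+* MvPolynomial (N × N) ℂ) * gX N) = Q * xᵀ * A * x := by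
    rw [map_mul, map_mul, map_mul, eval_gX]
    have h2 : ∀ B : Matrix N N ℂ, (eval (fl x)).mapMatrix (B.map (C : ℂ →+* MvPolynomial (N × N) ℂ)) = B := by
      intro B
      ext i j
      simp
    have h3 : (eval (fl x)).mapMatrix (gX N)ᵀ = xᵀ := by
      ext i j
      simp [gX, fl]
    rw [h2, h2, h3]
  rw [← h1]
  rfl

theorem QG_KP {Q A : Matrix N N ℂ} {u : N × N → ℂ} (hQ : ∀ i j, Q i j ∈ K) (hA : ∀ i j, A i j ∈ K)
    (hu : ∀ b, u b ∈ K) : QG Q A u ∈ KP K (N × N) := by
  unfold QG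
  refine sum_mem fun b _ => mul_mem (C_mem_KP (hu b)) ?_
  rw [Matrix.mul_apply]
  refine sum_mem fun k _ => mul_mem ?_ (X_mem_KP _)
  rw [Matrix.mul_apply]
  refine sum_mem fun l _ => mul_mem ?_ (by rw [Matrix.map_apply]; exact C_mem_KP (hA _ _))
  rw [Matrix.mul_apply]
  refine sum_mem fun p _ => mul_mem (by rw [Matrix.map_apply]; exact C_mem_KP (hQ _ _)) (X_mem_KP _)

/-- If the conditions for the transport of a subobject are relations of degree `d`, and all relations of degree `d` at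
`c` hold on `S`, then the subobjects of the adjoint object are ideals. -/
theorem subIdeals_of (hS : IsSubtorsor K S) {c : Matrix N N ℂ} (hc : c ∈ S) {d : ℕ}
    (F : Matrix N N ℂ → (N × N → ℂ) → MvPolynomial (N × N) ℂ) (hF1 : ∀ A u, (F A u).IsHomogeneous d)
    (hF2 : ∀ A u, (∀ i j, A i j ∈ K) → (∀ b, u b ∈ K) → F A u ∈ KP K (N × N))
    (hF3 : ∀ x ∈ S, ∃ r : ℂ, r ≠ 0 ∧ ∀ A u, eval (fl x) (F A u) = r * ∑ b, u b * (x⁻¹ * A * x) b.1 b.2)
    (h : RelHold K S c d) : SubIdeals K (LM S) c := by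
  intro U hU hUr hUc
  have h1 : S ⊆ stab S c U := by
    intro x hx
    refine ⟨hx, ?_⟩
    have hxu := hS.isUnit x hx
    have h5 : ∀ A ∈ U, x⁻¹ * A * x ∈ conjBy c U := by
      intro A hA
      have h6 := hUr hA
      clear hA
      induction h6 using Submodule.span_induction with
      | mem A hA =>
        refine mem_of_ann_rational hUc fun u hu1 hu2 => ?_
        obtain ⟨r, hr, hr'⟩ := hF3 x hx
        obtain ⟨r', -, hr''⟩ := hF3 c hc
        have h7 : eval (fl c) (F A u) = 0 := by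
          rw [hr'', hu1 _ ((inv_mem_conjBy (hS.isUnit c hc)).2 hA.1), mul_zero]
        have h8 := h (F A u) (fun m => coeff_of_KP (hF2 A u hA.2 hu2) m) (hF1 A u) h7 x hx
        rw [hr'] at h8
        exact (mul_eq_zero.1 h8).resolve_left hr
      | zero =>
        rw [Matrix.mul_zero, Matrix.zero_mul]
        exact Submodule.zero_mem _
      | add v w _ _ hv hw =>
        rw [Matrix.mul_add, Matrix.add_mul]
        exact Submodule.add_mem _ hv hw
      | smul a v _ hv =>
        rw [Matrix.mul_smul, Matrix.smul_mul]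
        exact Submodule.smul_mem _ _ hv
    have h6 : conjBy x U ≤ conjBy c U := by
      intro A hA
      have h7 := h5 _ hA
      have h8 : x⁻¹ * (x * A * x⁻¹) * x = A := (cj x hxu).left_inv A
      rwa [h8] at h7
    refine Submodule.eq_of_le_of_finrank_eq h6 ?_
    rw [finrank_conjBy hxu, finrank_conjBy (hS.isUnit c hc)]
  have h2 := stab_sub hS hc hUr hUc
  refine ⟨hU, fun w hw A hA => ?_⟩
  exact main_bwd hS hc hUr hUc (LM_mono h2 hc h1 hw) A hA

/-- relations of degree the size of the matrices -/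
theorem subIdeals_of_card [Nonempty N] (hS : IsSubtorsor K S) {c : Matrix N N ℂ} (hc : c ∈ S)
    (h : RelHold K S c (Fintype.card N)) : SubIdeals K (LM S) c := by
  refine subIdeals_of hS hc (fun A u => PG A u) (fun A u => PG_hom A u) (fun A u hA hu => PG_KP hA hu)
    (fun x hx => ⟨det x, ((Matrix.isUnit_iff_isUnit_det x).1 (hS.isUnit x hx)).ne_zero, fun A u => ?_⟩) h
  rw [eval_PG, sum_adj (hS.isUnit x hx)]

/-- `S` consists of similitudes between the forms `Q` and `Q'`, which are defined over `K`. -/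
def Similitudes (K : Subfield ℂ) (S : Set (Matrix N N ℂ)) : Prop :=
  ∃ Q Q' : Matrix N N ℂ, (∀ i j, Q i j ∈ K) ∧ (∀ i j, Q' i j ∈ K) ∧ det Q' ≠ 0 ∧
    ∀ x ∈ S, ∃ μ : ℂ, μ ≠ 0 ∧ x * Q * xᵀ = μ • Q'

/-- quadratic relations, for similitudes -/
theorem subIdeals_of_quad (hS : IsSubtorsor K S) (hsim : Similitudes K S) {c : Matrix N N ℂ} (hc : c ∈ S)
    (h : RelHold K S c 2) : SubIdeals K (LM S) c := by
  obtain ⟨Q, Q', hQ, hQ', hdet, hx⟩ := hsim
  refine subIdeals_of hS hc (fun A u => QG Q (adjugate Q' * A) u) (fun A u => QG_hom _ _ u)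
    (fun A u hA hu => QG_KP hQ (fun i j => ?_) hu) (fun x hxS => ?_) h
  · rw [Matrix.mul_apply]
    exact sum_mem fun k _ => K.mul_mem (adj_mem K.toSubring hQ' _ _) (hA _ _)
  · obtain ⟨μ, hμ, hx1⟩ := hx x hxS
    have hxu := hS.isUnit x hxS
    refine ⟨μ * det Q', mul_ne_zero hμ hdet, fun A u => ?_⟩
    have h1 : Q * xᵀ * adjugate Q' = (μ * det Q') • x⁻¹ := by
      have h2 : x * (Q * xᵀ * adjugate Q') = (μ * det Q') • (1 : Matrix N N ℂ) := by
        rw [← Matrix.mul_assoc, ← Matrix.mul_assoc, hx1, Matrix.smul_mul, Matrix.mul_adjugate, smul_smul]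
      calc Q * xᵀ * adjugate Q' = x⁻¹ * (x * (Q * xᵀ * adjugate Q')) := by
            rw [← Matrix.mul_assoc x⁻¹, unit_inv_mul hxu, Matrix.one_mul]
        _ = _ := by rw [h2, Matrix.mul_smul, Matrix.mul_one]
    rw [eval_QG, ← Matrix.mul_assoc (Q * xᵀ), h1, Finset.mul_sum]
    refine Finset.sum_congr rfl fun b _ => ?_
    rw [Matrix.smul_mul, Matrix.smul_mul, Matrix.smul_apply, smul_eq_mul]
    ring

/-- **Relations of bounded degree decide.** -/
theorem bounded_main [IsAlgClosed K] (hS : IsSubtorsor K S) (hirr : Irred S) {c : Matrix N N ℂ} (hc : c ∈ S)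
    {d : ℕ} (hsub : RelHold K S c d → SubIdeals K (LM S) c) :
    ((RelHold K S c d ∧ LM S ≤ der (LM S) ⊔ logs K c) → ∀ T, IsSubtorsor K T → c ∈ T → S ⊆ T) ∧
    (Algebra.trdeg K (Algebra.adjoin K (Set.range (fl c))) = (Module.finrank ℂ (LM S) : Cardinal) ↔
      IsTorsor (Zar K c) ∧ RelHold K S c d ∧ LM S ≤ der (LM S) ⊔ logs K c) := by
  have hcu := hS.isUnit c hc
  have h1 := criterion hS hc
  have key : (RelHold K S c d ∧ LM S ≤ der (LM S) ⊔ logs K c) →
      ∀ T, IsSubtorsor K T → c ∈ T → S ⊆ T := by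
    rintro ⟨h2, h3⟩ T hT hcT
    have hT1 := inter_sub' hS hT
    have hc1 : c ∈ T ∩ S := ⟨hcT, hc⟩
    have hs := hsub h2
    have hle : LM (T ∩ S) ≤ LM S := LM_mono hS hc1 Set.inter_subset_right
    have hr := LM_rational hT1
    have hid : IsIdeal (LM S) (LM (T ∩ S)) := by
      refine hs _ hle hr ?_
      rw [conjBy_LM hT1 hc1]
      exact RM_rational hT1
    have h4 : der (LM S) ≤ LM (T ∩ S) := der_le_of_sub (LM_rational hS) (hs.subalg hcu) hid hr (logs_le hT1 hc1)
    have h5 : LM S ≤ LM (T ∩ S) := h3.trans (sup_le h4 (logs_le hT1 hc1))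
    exact (full hS hirr hT1 hc hc1 h5).trans Set.inter_subset_left
  refine ⟨key, ?_, ?_⟩
  · intro h2
    have h3 := (h1.out 0 1).1 h2
    have h4 : LM S ≤ logs K c := by
      have h5 : logs K c = LM S := by
        refine Submodule.eq_of_le_of_finrank_eq (logs_le hS hc) ?_
        have h6 := h2
        rw [trdeg_logs hcu, Nat.cast_inj] at h6
        exact h6
      exact h5.ge
    have h5 := generic_of_logs hS hirr hc h4
    exact ⟨h3.1, fun P hP _ hP2 => h5 P hP hP2, h3.2.2⟩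
  · rintro ⟨h2, h3, h4⟩
    have h5 := (h1.out 0 1).2
    exact h5 ⟨h2, hsub h3, h4⟩

end Pool.Agent.R913.Tor
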