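import Pool.Agent.R913.Tor.Dn

/-!
# Spaces of matrices spanned by matrices over a subfield
-/

set_option autoImplicit false
set_option linter.unusedSectionVars false

open Matrix MvPolynomial

namespace Pool.Agent.R913.Tor

open Pool.Agent.TH127.PT Pool.Agent.TH119.MX Pool.Agent.TH119.DR Pool.Agent.Y123.ST

variable {N : Type} [Fintype N] [DecidableEq N]

/-- A complex space of matrices is rational over `K` if it is spanned by matrices with entries in `K`. -/
def Rational (K : Subfield ℂ) (U : Submodule ℂ (Matrix N N ℂ)) : Prop :=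
  U ≤ Submodule.span ℂ {A | A ∈ U ∧ ∀ i j, A i j ∈ K}

/-- The space `c⁻¹ U c`, for invertible `c`. -/
def conjBy (c : Matrix N N ℂ) (U : Submodule ℂ (Matrix N N ℂ)) : Submodule ℂ (Matrix N N ℂ) where
  carrier := {A | c * A * c⁻¹ ∈ U}
  zero_mem' := by
    rw [Set.mem_ofPred_eq, Matrix.mul_zero, Matrix.zero_mul]
    exact U.zero_mem
  add_mem' := by
    intro A A' h h'
    rw [Set.mem_ofPred_eq, Matrix.mul_add, Matrix.add_mul]
    exact U.add_mem h h'
  smul_mem' := by
    intro a A h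
    rw [Set.mem_ofPred_eq, Matrix.mul_smul, Matrix.smul_mul]
    exact U.smul_mem a h

theorem mem_conjBy {c A : Matrix N N ℂ} {U : Submodule ℂ (Matrix N N ℂ)} :
    A ∈ conjBy c U ↔ c * A * c⁻¹ ∈ U := Iff.rfl

variable {K : Subfield ℂ} {T : Set (Matrix N N ℂ)}

theorem rational_of_aut (U : Submodule ℂ (Matrix N N ℂ))
    (h : ∀ σ : ℂ ≃+* ℂ, (∀ x ∈ K, σ x = x) → ∀ A ∈ U, A.map σ ∈ U) : Rational K U := by
  let L : (N × N → ℂ) →ₗ[ℂ] Matrix N N ℂ :=
    { toFun := um, map_add' := fun _ _ => rfl, map_smul' := fun _ _ => rfl }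
  have h1 : DefOver K (U.comap L) := defOver_of_aut _ fun σ hσ v hv => h σ hσ (um v) hv
  intro A hA
  have h2 : fl A ∈ U.comap L := hA
  have h3 := Submodule.mem_map_of_mem (f := L) (h1 h2)
  rw [Submodule.map_span] at h3
  refine Submodule.span_mono ?_ h3
  rintro _ ⟨v, hv, rfl⟩
  exact ⟨hv.1, fun i j => hv.2 (i, j)⟩

theorem Rational.aut {U : Submodule ℂ (Matrix N N ℂ)} (h : Rational K U) {σ : ℂ ≃+* ℂ}
    (hσ : ∀ x ∈ K, σ x = x) {A : Matrix N N ℂ} (hA : A ∈ U) : A.map σ ∈ U := by
  have h1 := h hA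
  clear hA
  induction h1 using Submodule.span_induction with
  | mem w hw =>
    have h2 : w.map σ = w := by
      ext1 i j
      exact hσ _ (hw.2 i j)
    rw [h2]
    exact hw.1
  | zero =>
    have h2 : (0 : Matrix N N ℂ).map σ = 0 := by
      ext1 i j
      exact map_zero σ
    rw [h2]
    exact U.zero_mem
  | add v w _ _ hv hw =>
    have h2 : (v + w).map σ = v.map σ + w.map σ := by
      ext1 i j
      exact map_add σ _ _
    rw [h2]
    exact U.add_mem hv hw
  | smul a v _ hv =>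
    have h2 : (a • v).map σ = σ a • v.map σ := by
      ext1 i j
      exact map_mul σ _ _
    rw [h2]
    exact U.smul_mem _ hv

/-- the annihilator of a space of matrices -/
def ann (U : Submodule ℂ (Matrix N N ℂ)) : Submodule ℂ (N × N → ℂ) where
  carrier := {u | ∀ A ∈ U, ∑ b, u b * A b.1 b.2 = 0}
  zero_mem' := by
    intro A _
    simp
  add_mem' := by
    intro u v hu hv A hA
    simp only [Pi.add_apply, add_mul, Finset.sum_add_distrib]
    rw [hu A hA, hv A hA, add_zero]
  smul_mem' := by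
    intro a u hu A hA
    simp only [Pi.smul_apply, smul_eq_mul, mul_assoc, ← Finset.mul_sum]
    rw [hu A hA, mul_zero]

theorem ann_def {U : Submodule ℂ (Matrix N N ℂ)} (hU : Rational K U) : DefOver K (ann U) := by
  refine defOver_of_aut _ fun σ hσ u hu A hA => ?_
  have h1 := hu _ (hU.aut (symm_fix hσ) hA)
  have h2 := congrArg σ h1
  rw [map_zero, map_sum] at h2
  rw [← h2]
  refine Finset.sum_congr rfl fun b _ => ?_
  rw [map_mul, Matrix.map_apply, RingEquiv.apply_symm_apply]

/-- a matrix killed by the annihilator of a space belongs to the space -/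
theorem mem_of_ann {U : Submodule ℂ (Matrix N N ℂ)} {A : Matrix N N ℂ}
    (h : ∀ u ∈ ann U, ∑ b, u b * A b.1 b.2 = 0) : A ∈ U := by
  classical
  by_contra hcon
  obtain ⟨f, hf1, hf2⟩ := Submodule.exists_le_ker_of_notMem hcon
  have hf3 : ∀ A : Matrix N N ℂ, f A = ∑ b : N × N, f (Matrix.single b.1 b.2 1) * A b.1 b.2 := by
    intro A
    conv_lhs => rw [Matrix.matrix_eq_sum_single A]
    rw [map_sum, Fintype.sum_prod_type]
    refine Finset.sum_congr rfl fun i _ => ?_
    rw [map_sum]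
    refine Finset.sum_congr rfl fun j _ => ?_
    have : Matrix.single i j (A i j) = A i j • Matrix.single i j (1 : ℂ) := by
      rw [Matrix.smul_single, smul_eq_mul, mul_one]
    rw [this, map_smul, smul_eq_mul, mul_comm]
  apply hf1
  rw [hf3]
  refine h _ fun A' hA' => ?_
  rw [← hf3]
  exact hf2 hA'

theorem mem_of_ann_rational {U : Submodule ℂ (Matrix N N ℂ)} (hU : Rational K U) {A : Matrix N N ℂ}
    (h : ∀ u ∈ ann U, (∀ b, u b ∈ K) → ∑ b, u b * A b.1 b.2 = 0) : A ∈ U := by
  refine mem_of_ann fun u hu => ?_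
  have h1 : u ∈ Submodule.span ℂ {u : N × N → ℂ | u ∈ ann U ∧ ∀ a, u a ∈ K} := ann_def hU hu
  clear hu
  induction h1 using Submodule.span_induction with
  | mem u hu => exact h u hu.1 hu.2
  | zero => simp
  | add u v _ _ hu hv =>
    simp only [Pi.add_apply, add_mul, Finset.sum_add_distrib]
    rw [hu, hv, add_zero]
  | smul z u _ hu =>
    simp only [Pi.smul_apply, smul_eq_mul, mul_assoc z, ← Finset.mul_sum]
    rw [hu, mul_zero]

theorem LM_rational (hT : IsSubtorsor K T) : Rational K (LM T) :=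
  rational_of_aut _ fun σ hσ A hA => LL_aut hT σ hσ (fl A) hA

theorem RM_rational (hT : IsSubtorsor K T) : Rational K (RM T) :=
  rational_of_aut _ fun σ hσ A hA => RR_aut hT σ hσ (fl A) hA

theorem conjBy_LM (hT : IsSubtorsor K T) {c : Matrix N N ℂ} (hc : c ∈ T) : conjBy c (LM T) = RM T := by
  ext A
  constructor
  · intro h
    have h1 := conj_mem hT hc h
    have h2 : c⁻¹ * (c * A * c⁻¹) * c = A := by
      rw [Matrix.mul_assoc c A, ← Matrix.mul_assoc c⁻¹, inv_mul' hT hc, Matrix.one_mul, Matrix.mul_assoc,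
        inv_mul' hT hc, Matrix.mul_one]
    rw [h2] at h1
    exact h1
  · intro h
    exact conj_mem' hT hc h

/-- The polynomials over `K`. -/
noncomputable def KP (K : Subfield ℂ) (B : Type) : Subring (MvPolynomial B ℂ) :=
  (MvPolynomial.map (algebraMap K ℂ) : MvPolynomial B K →+* MvPolynomial B ℂ).range

theorem coeff_of_KP {B : Type} {P : MvPolynomial B ℂ} (h : P ∈ KP K B) (m : B →₀ ℕ) : P.coeff m ∈ K := by
  obtain ⟨P0, rfl⟩ := h
  rw [coeff_map]
  exact (P0.coeff m).2

theorem C_mem_KP {B : Type} {a : ℂ} (ha : a ∈ K) : (C a : MvPolynomial B ℂ) ∈ KP K B :=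
  ⟨C (⟨a, ha⟩ : K), by rw [map_C]; rfl⟩

theorem X_mem_KP {B : Type} (b : B) : (X b : MvPolynomial B ℂ) ∈ KP K B := ⟨X b, by rw [map_X]⟩

theorem det_mem {R : Type*} [CommRing R] (H : Subring R) {M : Matrix N N R} (hM : ∀ i j, M i j ∈ H) :
    det M ∈ H := by
  rw [Matrix.det_apply']
  refine sum_mem fun σ _ => mul_mem ?_ (prod_mem fun i _ => hM _ _)
  exact intCast_mem _ _

theorem adj_mem {R : Type*} [CommRing R] (H : Subring R) {M : Matrix N N R} (hM : ∀ i j, M i j ∈ H) (i j : N) :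
    adjugate M i j ∈ H := by
  rw [Matrix.adjugate_apply]
  refine det_mem H fun k l => ?_
  rw [Matrix.updateRow_apply]
  split_ifs
  · rw [Pi.single_apply]
    split_ifs
    · exact one_mem _
    · exact zero_mem _
  · exact hM k l

theorem det_KP : det (gX N) ∈ KP K (N × N) := det_mem _ fun i j => X_mem_KP (i, j)

theorem PG_KP {A : Matrix N N ℂ} {u : N × N → ℂ} (hA : ∀ i j, A i j ∈ K) (hu : ∀ b, u b ∈ K) :
    PG A u ∈ KP K (N × N) := by
  unfold PG
  refine sum_mem fun b _ => mul_mem (C_mem_KP (hu b)) ?_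
  rw [Matrix.mul_apply]
  refine sum_mem fun k _ => mul_mem ?_ (X_mem_KP _)
  rw [Matrix.mul_apply]
  refine sum_mem fun l _ => mul_mem (adj_mem _ (fun i j => X_mem_KP (i, j)) _ _) ?_
  rw [Matrix.map_apply]
  exact C_mem_KP (hA _ _)

theorem eval_det (x : Matrix N N ℂ) : eval (fl x) (det (gX N)) = det x := by
  rw [RingHom.map_det, eval_gX]

theorem dd_det (c w : Matrix N N ℂ) : dd (det (gX N)) (fl c) (fl (w * c)) = trace w * det c := by
  have h1 := aeval_dual (det (gX N)) (fl c) (fl (w * c))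
  rw [AlgHom.map_det, dual_gX, Matrix.det_mul, det_dual, eval_det] at h1
  have h3 : det (c.map (algebraMap ℂ (DualNumber ℂ))) = algebraMap ℂ (DualNumber ℂ) (det c) :=
    (RingHom.map_det (algebraMap ℂ (DualNumber ℂ)) c).symm
  rw [h3] at h1
  have h4 := congrArg TrivSqZeroExt.snd h1
  simp [TrivSqZeroExt.algebraMap_eq_inl] at h4
  rw [← h4]

end Pool.Agent.R913.Tor
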